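import Mathlib

/-!
Group topologies from filters, minimal groups.
-/

set_option autoImplicit false

namespace Pool.Agent.Helper92.GroupFilter

open Topology Filter
open scoped Pointwise

universe u

/-- A filter with the properties of the filter of neighbourhoods of `1` in a group topology. -/
structure GF {G : Type u} [Group G] (N : Filter G) : Prop where
  one : pure 1 ≤ N
  mul : Tendsto (fun p : G × G => p.1 * p.2) (N ×ˢ N) N
  inv : Tendsto (fun g : G => g⁻¹) N N
  conj : ∀ g : G, Tendsto (fun x => g * x * g⁻¹) N N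

variable {G : Type u} [Group G]

/-- the group filter basis -/
@[reducible] def GF.basis {N : Filter G} (h : GF N) : GroupFilterBasis G where
  sets := N.sets
  nonempty := ⟨Set.univ, N.univ_sets⟩
  inter_sets := fun {x y} hx hy => ⟨x ∩ y, N.inter_sets hx hy, le_rfl⟩
  one' := fun {U} hU => mem_pure.mp (h.one hU)
  mul' := fun {U} hU => by
    have := h.mul hU
    rw [mem_map, mem_prod_same_iff] at this
    obtain ⟨V, hV, hVU⟩ := this
    refine ⟨V, hV, ?_⟩
    rintro _ ⟨a, ha, b, hb, rfl⟩
    exact hVU (show (a, b) ∈ V ×ˢ V from ⟨ha, hb⟩)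
  inv' := fun {U} hU => ⟨_, h.inv hU, le_rfl⟩
  conj' := fun g {U} hU => ⟨_, h.conj g hU, le_rfl⟩

/-- the group topology -/
@[reducible] def GF.top {N : Filter G} (h : GF N) : TopologicalSpace G := h.basis.topology

theorem GF.isTopologicalGroup {N : Filter G} (h : GF N) : @IsTopologicalGroup G h.top _ :=
  h.basis.isTopologicalGroup

theorem GF.filter_eq {N : Filter G} (h : GF N) : h.basis.toFilterBasis.filter = N := by
  ext s
  rw [FilterBasis.mem_filter_iff]
  constructor
  · rintro ⟨t, ht, hts⟩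
    exact mem_of_superset ht hts
  · intro hs
    exact ⟨s, hs, le_rfl⟩

theorem GF.nhds_one {N : Filter G} (h : GF N) : @nhds G h.top 1 = N := by
  have := h.basis.nhds_one_eq
  rw [h.filter_eq] at this
  exact this

theorem GF.t2 {N : Filter G} (h : GF N) (hsep : ∀ g : G, g ≠ 1 → ∃ U ∈ N, g ∉ U) :
    @T2Space G h.top := by
  let _ : TopologicalSpace G := h.top
  have : IsTopologicalGroup G := h.isTopologicalGroup
  have h1 : T1Space G := by
    refine IsTopologicalGroup.t1Space G ?_
    rw [← isOpen_compl_iff, isOpen_iff_mem_nhds]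
    intro g hg
    obtain ⟨U, hU, hgU⟩ := hsep g hg
    have h2 : U ∈ 𝓝 (1 : G) := by rw [h.nhds_one]; exact hU
    have h3 : Tendsto (fun x : G => x⁻¹ * g) (𝓝 g) (𝓝 1) := by
      have : Continuous fun x : G => x⁻¹ * g := by fun_prop
      have h4 := this.tendsto g
      simpa using h4
    filter_upwards [h3 h2] with x hx
    intro hx1
    rw [Set.mem_singleton_iff] at hx1
    rw [Set.mem_preimage, hx1, inv_one, one_mul] at hx
    exact hgU hx
  infer_instance

/-- Minimality of a topological group: every coarser Hausdorff group topology is the same. -/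
def MinGrp (G : Type u) [Group G] [τ : TopologicalSpace G] : Prop :=
  ∀ σ : TopologicalSpace G, @IsTopologicalGroup G σ _ → @T2Space G σ →
    (∀ U : Set G, IsOpen[σ] U → IsOpen[τ] U) → ∀ U : Set G, IsOpen[τ] U → IsOpen[σ] U

theorem le_of_nhds_one_le {t s : TopologicalSpace G} (ht : @IsTopologicalGroup G t _)
    (hs : @IsTopologicalGroup G s _) (h : @nhds G t 1 ≤ @nhds G s 1) : t ≤ s := by
  rw [le_iff_nhds]
  intro x
  have h1 : @nhds G t x = map (fun y => x * y) (@nhds G t 1) :=
    (@map_mul_left_nhds_one G t _ _ x).symm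
  have h2 : @nhds G s x = map (fun y => x * y) (@nhds G s 1) :=
    (@map_mul_left_nhds_one G s _ _ x).symm
  rw [h1, h2]
  exact map_mono h

theorem MinGrp.filter_le [τ : TopologicalSpace G] [hτ : IsTopologicalGroup G] (hmin : MinGrp G)
    {N : Filter G} (h : GF N) (hsep : ∀ g : G, g ≠ 1 → ∃ U ∈ N, g ∉ U) (hle : 𝓝 1 ≤ N) :
    N ≤ 𝓝 1 := by
  have h1 := h.isTopologicalGroup
  have h2 := h.t2 hsep
  have hle' : τ ≤ h.top := by
    apply le_of_nhds_one_le hτ h1
    rw [h.nhds_one]
    exact hle
  have hge : h.top ≤ τ := by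
    rw [TopologicalSpace.le_def]
    exact hmin h.top h1 h2 hle'
  rw [← h.nhds_one]
  exact nhds_mono hge

/-- Cauchy ultrafilters in locally compact groups converge. -/
theorem exists_le_nhds_of_cauchy [TopologicalSpace G] [IsTopologicalGroup G]
    [LocallyCompactSpace G] (U : Ultrafilter G)
    (hU : Tendsto (fun p : G × G => p.1 * p.2⁻¹) ((U : Filter G) ×ˢ (U : Filter G)) (𝓝 1)) :
    ∃ g, (U : Filter G) ≤ 𝓝 g := by
  obtain ⟨K, hK, hK1⟩ := exists_compact_mem_nhds (1 : G)
  have := hU hK1
  rw [mem_map, mem_prod_same_iff] at this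
  obtain ⟨V, hV, hVK⟩ := this
  obtain ⟨h, hh⟩ := U.nonempty_of_mem hV
  have hsub : V ⊆ (fun x => x * h) '' K := by
    intro g hg
    refine ⟨g * h⁻¹, hVK (show (g, h) ∈ V ×ˢ V from ⟨hg, hh⟩), by simp⟩
  have hcomp : IsCompact ((fun x => x * h) '' K) :=
    hK.image (continuous_mul_const h)
  obtain ⟨g, _, hg⟩ := hcomp.ultrafilter_le_nhds U
    (le_principal_iff.mpr (mem_of_superset hV hsub))
  exact ⟨g, hg⟩

end Pool.Agent.Helper92.GroupFilter
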