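import Mathlib

set_option autoImplicit false

namespace Pool.Agent.Helper92.LCAChar

open Topology Filter

universe u

/-- the double centralizer star subalgebra -/
def dc {E : Type u} [CStarAlgebra E] (S : Set E) : StarSubalgebra ℂ E :=
  StarSubalgebra.centralizer ℂ (StarSubalgebra.centralizer ℂ S : Set E)

theorem subset_dc {E : Type u} [CStarAlgebra E] (S : Set E) : S ⊆ (dc S : Set E) := by
  intro x hx
  exact StarAlgebra.adjoin_le_centralizer_centralizer ℂ S (StarAlgebra.subset_adjoin ℂ S hx)

theorem dc_comm {E : Type u} [CStarAlgebra E] (S : Set E)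
    (hS : ∀ x ∈ S, ∀ y ∈ S, x * y = y * x ∧ star x * y = y * star x) :
    ∀ x ∈ dc S, ∀ y ∈ dc S, x * y = y * x := by
  intro x hx y hy
  have h1 : S ⊆ (StarSubalgebra.centralizer ℂ S : Set E) := by
    intro z hz
    rw [SetLike.mem_coe, StarSubalgebra.mem_centralizer_iff]
    intro g hg
    exact ⟨(hS g hg z hz).1, (hS g hg z hz).2⟩
  have h2 : y ∈ StarSubalgebra.centralizer ℂ S := by
    have := StarSubalgebra.centralizer_le (R := ℂ) S _ h1
    exact this hy
  rw [dc, StarSubalgebra.mem_centralizer_iff] at hx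
  exact ((hx y h2).1).symm

theorem exists_character {E : Type u} [CStarAlgebra E] (S : Set E)
    (hS : ∀ x ∈ S, ∀ y ∈ S, x * y = y * x ∧ star x * y = y * star x)
    (x : dc S) (hx : x ≠ 0) : ∃ φ : dc S →ₐ[ℂ] ℂ, (∀ y, ‖φ y‖ ≤ ‖(y : E)‖) ∧ φ x ≠ 0 := by
  have hclosed : IsClosed (dc S : Set E) := by
    rw [dc, StarSubalgebra.coe_centralizer]
    exact Set.isClosed_centralizer _
  have : CompleteSpace (dc S) := hclosed.completeSpace_coe
  let inst : CommCStarAlgebra (dc S) :=
    { (inferInstance : NormedRing (dc S)), (inferInstance : StarRing (dc S)),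
      (inferInstance : NormedAlgebra ℂ (dc S)), (inferInstance : StarModule ℂ (dc S)) with
      mul_comm := fun a b => Subtype.ext (dc_comm S hS a a.2 b b.2)
      complete := this.complete
      norm_mul_self_le := fun x => CStarRing.norm_star_mul_self (x := (x : E)) |>.symm.le }
  have hinj := (gelfandTransform_isometry (dc S)).injective
  have h1 : WeakDual.gelfandTransform ℂ (dc S) x ≠ 0 := by
    intro h
    apply hx
    apply hinj
    rw [h, map_zero]
  obtain ⟨φ, hφ⟩ : ∃ φ, WeakDual.gelfandTransform ℂ (dc S) x φ ≠ 0 := by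
    by_contra h
    push Not at h
    exact h1 (ContinuousMap.ext h)
  refine ⟨WeakDual.CharacterSpace.toAlgHom φ, ?_, hφ⟩
  intro y
  have : Nontrivial (dc S) := ⟨x, 0, hx⟩
  have : NormOneClass (dc S) := inferInstance
  have := AlgHom.norm_apply_le_self (WeakDual.CharacterSpace.toAlgHom φ) y
  exact this

end Pool.Agent.Helper92.LCAChar
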