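import Mathlib
import Pool.Agent.Helper92.LCAChar0

/-!
A strongly continuous unitary representation of a locally compact abelian group is separated by
continuous characters of the group.
-/

set_option autoImplicit false
set_option linter.unusedSectionVars false

namespace Pool.Agent.Helper92.LCAChar

open MeasureTheory Topology Filter ContinuousLinearMap
open scoped Pointwise

universe u v

section Rep

variable {A : Type u} [CommGroup A] [TopologicalSpace A] [IsTopologicalGroup A]
  [MeasurableSpace A] [BorelSpace A]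
  {μ : Measure A} [IsFiniteMeasureOnCompacts μ] [μ.IsMulLeftInvariant]
  {H : Type v} [NormedAddCommGroup H] [InnerProductSpace ℂ H] [CompleteSpace H]
  (π : A →* (H ≃ₗᵢ[ℂ] H)) (hπ : ∀ ξ : H, Continuous fun a => π a ξ)
  (f : A → ℂ) (hf : Continuous f) (hfc : HasCompactSupport f)

include hπ hf hfc

omit [IsTopologicalGroup A] [μ.IsMulLeftInvariant] [CompleteSpace H] in
theorem integrable_smul (ξ : H) : Integrable (fun x => f x • π x ξ) μ :=
  (hf.smul (hπ ξ)).integrable_of_hasCompactSupport hfc.smul_right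

/-- The smeared operator. -/
noncomputable def T : H →L[ℂ] H :=
  LinearMap.mkContinuous
    { toFun := fun ξ => ∫ x, f x • π x ξ ∂μ
      map_add' := fun ξ η => by
        rw [← integral_add (integrable_smul π hπ f hf hfc ξ) (integrable_smul π hπ f hf hfc η)]
        congr 1
        funext x
        simp
      map_smul' := fun c ξ => by
        rw [RingHom.id_apply, ← integral_smul]
        congr 1
        funext x
        rw [map_smul, smul_comm] }
    (∫ x, ‖f x‖ ∂μ)
    (fun ξ => by
      change ‖∫ x, f x • π x ξ ∂μ‖ ≤ _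
      refine (norm_integral_le_integral_norm _).trans ?_
      rw [← integral_mul_const]
      refine le_of_eq ?_
      congr 1
      funext x
      rw [norm_smul, LinearIsometryEquiv.norm_map])

omit [IsTopologicalGroup A] [μ.IsMulLeftInvariant] [CompleteSpace H] in
theorem T_apply (ξ : H) : T (μ := μ) π hπ f hf hfc ξ = ∫ x, f x • π x ξ ∂μ := rfl

/-- `π a` as a continuous linear map. -/
noncomputable def P (a : A) : H →L[ℂ] H := ((π a).toContinuousLinearEquiv : H →L[ℂ] H)

omit [TopologicalSpace A] [IsTopologicalGroup A] [MeasurableSpace A] [BorelSpace A] [CompleteSpace H] hπ hf hfc in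
theorem P_apply (a : A) (ξ : H) : P π a ξ = π a ξ := rfl

omit [TopologicalSpace A] [IsTopologicalGroup A] [MeasurableSpace A] [BorelSpace A] [CompleteSpace H] hπ hf hfc in
theorem P_mul (a b : A) : P π (a * b) = P π a * P π b := by
  ext ξ
  simp [P_apply, map_mul]

omit [TopologicalSpace A] [IsTopologicalGroup A] [MeasurableSpace A] [BorelSpace A] [CompleteSpace H] hπ hf hfc in
theorem P_one : P π 1 = 1 := by
  ext ξ
  simp [P_apply]

omit [TopologicalSpace A] [IsTopologicalGroup A] [MeasurableSpace A] [BorelSpace A] [CompleteSpace H] hπ hf hfc in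
theorem P_comm (a b : A) : P π a * P π b = P π b * P π a := by
  rw [← P_mul, ← P_mul, mul_comm]

omit [TopologicalSpace A] [IsTopologicalGroup A] [MeasurableSpace A] [BorelSpace A] hπ hf hfc in
theorem P_star (a : A) : star (P π a) = P π a⁻¹ := by
  rw [ContinuousLinearMap.star_eq_adjoint]
  have h1 : P π a * P π a⁻¹ = 1 := by rw [← P_mul, mul_inv_cancel, P_one]
  have h2 := (π a).adjoint_eq_symm
  ext ξ
  rw [P_apply, map_inv]
  exact congrArg (fun L : H →L[ℂ] H => L ξ) h2

omit [TopologicalSpace A] [IsTopologicalGroup A] [MeasurableSpace A] [BorelSpace A] [CompleteSpace H] hπ hf hfc in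
theorem P_norm (a : A) : ‖P π a‖ ≤ 1 := by
  refine ContinuousLinearMap.opNorm_le_bound _ zero_le_one fun ξ => ?_
  rw [P_apply, one_mul, LinearIsometryEquiv.norm_map]

omit [IsTopologicalGroup A] [μ.IsMulLeftInvariant] in
theorem T_comm_of_comm (L : H →L[ℂ] H) (hL : ∀ x, L * P π x = P π x * L) :
    L * T (μ := μ) π hπ f hf hfc = T (μ := μ) π hπ f hf hfc * L := by
  ext ξ
  change L (T (μ := μ) π hπ f hf hfc ξ) = T (μ := μ) π hπ f hf hfc (L ξ)
  rw [T_apply, T_apply, ← ContinuousLinearMap.integral_comp_comm L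
    (integrable_smul π hπ f hf hfc ξ)]
  congr 1
  funext x
  rw [map_smul]
  congr 1
  exact congrArg (fun M : H →L[ℂ] H => M ξ) (hL x)

omit [IsTopologicalGroup A] [μ.IsMulLeftInvariant] in
theorem P_T_comm (a : A) : P π a * T (μ := μ) π hπ f hf hfc = T (μ := μ) π hπ f hf hfc * P π a :=
  T_comm_of_comm π hπ f hf hfc (P π a) fun x => P_comm π a x

omit [IsTopologicalGroup A] [μ.IsMulLeftInvariant] in
theorem starT_P_comm (a : A) :
    star (T (μ := μ) π hπ f hf hfc) * P π a = P π a * star (T (μ := μ) π hπ f hf hfc) := by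
  have h := congrArg star (P_T_comm (μ := μ) π hπ f hf hfc a⁻¹)
  rw [star_mul, star_mul, P_star, inv_inv] at h
  exact h

omit [IsTopologicalGroup A] [μ.IsMulLeftInvariant] in
theorem T_normal : star (T (μ := μ) π hπ f hf hfc) * T (μ := μ) π hπ f hf hfc =
    T (μ := μ) π hπ f hf hfc * star (T (μ := μ) π hπ f hf hfc) :=
  T_comm_of_comm π hπ f hf hfc _ fun x => starT_P_comm π hπ f hf hfc x

theorem P_T_apply (a : A) (ξ : H) : P π a (T (μ := μ) π hπ f hf hfc ξ) =
    ∫ x, f (a⁻¹ * x) • π x ξ ∂μ := by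
  rw [T_apply, ← ContinuousLinearMap.integral_comp_comm (P π a)
    (integrable_smul π hπ f hf hfc ξ)]
  rw [← integral_mul_left_eq_self (fun x => f (a⁻¹ * x) • π x ξ) a]
  congr 1
  funext x
  rw [map_smul, inv_mul_cancel_left, map_mul]
  rfl

theorem P_T_sub_norm (a : A) : ‖P π a * T (μ := μ) π hπ f hf hfc - T (μ := μ) π hπ f hf hfc‖ ≤
    ∫ x, ‖f (a⁻¹ * x) - f x‖ ∂μ := by
  refine ContinuousLinearMap.opNorm_le_bound _ (integral_nonneg fun x => norm_nonneg _) fun ξ => ?_
  change ‖P π a (T (μ := μ) π hπ f hf hfc ξ) - T (μ := μ) π hπ f hf hfc ξ‖ ≤ _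
  have hf' : Continuous fun x => f (a⁻¹ * x) := hf.comp (continuous_const.mul continuous_id)
  have hfc' : HasCompactSupport fun x => f (a⁻¹ * x) := hfc.comp_homeomorph (Homeomorph.mulLeft a⁻¹)
  rw [P_T_apply, T_apply, ← integral_sub (integrable_smul π hπ _ hf' hfc' ξ)
    (integrable_smul π hπ f hf hfc ξ)]
  refine (norm_integral_le_integral_norm _).trans ?_
  rw [← integral_mul_const]
  refine le_of_eq ?_
  congr 1
  funext x
  rw [← sub_smul, norm_smul, LinearIsometryEquiv.norm_map]

end Rep

section Cont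

variable {A : Type u} [CommGroup A] [TopologicalSpace A] [IsTopologicalGroup A]
  [LocallyCompactSpace A]
  [MeasurableSpace A] [BorelSpace A]
  {μ : Measure A} [IsFiniteMeasureOnCompacts μ] [μ.IsMulLeftInvariant]

theorem tendsto_L1 (f : A → ℂ) (hf : Continuous f) (hfc : HasCompactSupport f) :
    Tendsto (fun a : A => ∫ x, ‖f (a⁻¹ * x) - f x‖ ∂μ) (𝓝 1) (𝓝 0) := by
  obtain ⟨K, hK, hK1⟩ := exists_compact_mem_nhds (1 : A)
  have hcont : ContinuousOn (fun a : A => ∫ x, ‖f (a⁻¹ * x) - f x‖ ∂μ) K := by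
    refine continuousOn_integral_of_compact_support (k := (K * tsupport f) ∪ tsupport f)
      ((hK.mul hfc).union hfc) ?_ ?_
    · apply Continuous.continuousOn
      change Continuous fun p : A × A => ‖f (p.1⁻¹ * p.2) - f p.2‖
      exact ((hf.comp (continuous_fst.inv.mul continuous_snd)).sub (hf.comp continuous_snd)).norm
    · intro a x ha hx
      rw [Set.mem_union, not_or] at hx
      have h1 : f x = 0 := image_eq_zero_of_notMem_tsupport hx.2
      have h2 : f (a⁻¹ * x) = 0 := by
        apply image_eq_zero_of_notMem_tsupport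
        intro h
        apply hx.1
        exact ⟨a, ha, a⁻¹ * x, h, by simp⟩
      simp [h1, h2]
  have h1 : (1 : A) ∈ K := mem_of_mem_nhds hK1
  have := (hcont.continuousAt hK1).tendsto
  simpa using this

end Cont

theorem circle_isInducing : Topology.IsInducing (fun z : Circle => (z : ℂ)) :=
  Topology.IsInducing.subtypeVal

section Main

variable {A : Type u} [CommGroup A] [TopologicalSpace A] [IsTopologicalGroup A]
  [LocallyCompactSpace A] [T2Space A]
  {H : Type v} [NormedAddCommGroup H] [InnerProductSpace ℂ H] [CompleteSpace H]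

/-- A strongly continuous unitary representation of a locally compact abelian group is separated
by continuous characters. -/
theorem exists_char_of_rep (π : A →* (H ≃ₗᵢ[ℂ] H)) (hπ : ∀ ξ : H, Continuous fun a => π a ξ)
    (a : A) (ha : π a ≠ 1) : ∃ χ : A →* Circle, Continuous χ ∧ χ a ≠ 1 := by
  borelize A
  let μ : Measure A := Measure.haar
  -- a vector moved by `a`
  obtain ⟨ξ, hξ⟩ : ∃ ξ : H, π a ξ ≠ ξ := by
    by_contra h
    push Not at h
    exact ha (LinearIsometryEquiv.ext fun ξ => by simpa using h ξ)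
  set δ : ℝ := ‖π a ξ - ξ‖ with hδ
  have hδpos : 0 < δ := norm_pos_iff.mpr (sub_ne_zero.mpr hξ)
  -- a neighbourhood of `1` moving `ξ` only a little
  let U : Set A := {b | ‖π b ξ - ξ‖ < δ / 4}
  have hUopen : IsOpen U :=
    isOpen_lt ((hπ ξ).sub continuous_const).norm continuous_const
  have hU1 : (1 : A) ∈ U := by
    change ‖π 1 ξ - ξ‖ < δ / 4
    simp [hδpos]
  -- a bump function
  obtain ⟨g, h1, h2, hgc, h4⟩ := exists_continuous_one_zero_of_isCompact
    (isCompact_singleton (x := (1 : A))) hUopen.isClosed_compl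
    (by
      rw [Set.disjoint_singleton_left]
      intro h
      exact h hU1)
  have hg1 : g 1 = 1 := h1 (Set.mem_singleton _)
  have hgU : ∀ x, x ∉ U → g x = 0 := fun x hx => h2 hx
  have hg0 : ∀ x, 0 ≤ g x := fun x => (h4 x).1
  let f : A → ℂ := fun x => (g x : ℂ)
  have hf : Continuous f := Complex.continuous_ofReal.comp g.continuous
  have hfc : HasCompactSupport f := hgc.comp_left (g := fun r : ℝ => (r : ℂ)) (by simp)
  let c : ℝ := ∫ x, g x ∂μ
  have hc : 0 < c := g.continuous.integral_pos_of_hasCompactSupport_nonneg_nonzero hgc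
    (fun x => hg0 x) (x := 1) (by rw [hg1]; exact one_ne_zero)
  -- the smeared operator
  let S : H →L[ℂ] H := T (μ := μ) π hπ f hf hfc
  have hSξ : ‖S ξ - (c : ℂ) • ξ‖ ≤ c * (δ / 4) := by
    have e1 : S ξ = ∫ x, f x • π x ξ ∂μ := rfl
    have hint : Integrable (fun x => f x • ξ) μ :=
      (hf.smul continuous_const).integrable_of_hasCompactSupport hfc.smul_right
    have e2 : (c : ℂ) • ξ = ∫ x, f x • ξ ∂μ := by
      rw [integral_smul_const]
      congr 1
      exact (integral_ofReal).symm
    rw [e1, e2, ← integral_sub (integrable_smul π hπ f hf hfc ξ) hint]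
    refine (norm_integral_le_integral_norm _).trans ?_
    rw [← integral_mul_const]
    refine integral_mono_of_nonneg (Filter.Eventually.of_forall fun x => norm_nonneg _) ?_
      (Filter.Eventually.of_forall fun x => ?_)
    · exact ((g.continuous.mul continuous_const).integrable_of_hasCompactSupport hgc.mul_right)
    · change ‖f x • π x ξ - f x • ξ‖ ≤ g x * (δ / 4)
      rw [← smul_sub, norm_smul]
      have : ‖f x‖ = g x := by
        change ‖((g x : ℝ) : ℂ)‖ = g x
        rw [Complex.norm_real, Real.norm_of_nonneg (hg0 x)]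
      rw [this]
      by_cases hx : x ∈ U
      · exact mul_le_mul_of_nonneg_left (le_of_lt hx) (hg0 x)
      · rw [hgU x hx]
        simp
  -- the element `(π a - 1) S` is nonzero
  have hne : P π a * S - S ≠ 0 := by
    intro h
    have h3 : P π a (S ξ) = S ξ := by
      have := congrArg (fun L : H →L[ℂ] H => L ξ) (sub_eq_zero.mp h)
      exact this
    have h5 : ‖P π a ((c : ℂ) • ξ) - (c : ℂ) • ξ‖ = c * δ := by
      rw [map_smul, ← smul_sub, norm_smul, Complex.norm_real, Real.norm_of_nonneg hc.le]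
      rfl
    have h6 : ‖P π a ((c : ℂ) • ξ) - (c : ℂ) • ξ‖ ≤ c * (δ / 4) + c * (δ / 4) := by
      have : P π a ((c : ℂ) • ξ) - (c : ℂ) • ξ =
          (S ξ - (c : ℂ) • ξ) - P π a (S ξ - (c : ℂ) • ξ) := by
        rw [map_sub, h3]
        abel
      rw [this]
      refine (norm_sub_le _ _).trans (add_le_add hSξ ?_)
      rw [P_apply, LinearIsometryEquiv.norm_map]
      exact hSξ
    rw [h5] at h6
    nlinarith [mul_pos hc hδpos]
  -- the commutative C*-algebra
  let Gs : Set (H →L[ℂ] H) := Set.range (P π) ∪ {S}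
  have hGs : ∀ x ∈ Gs, ∀ y ∈ Gs, x * y = y * x ∧ star x * y = y * star x := by
    rintro x (⟨b, rfl⟩ | rfl) y (⟨b', rfl⟩ | rfl)
    · refine ⟨P_comm π b b', ?_⟩
      rw [P_star, P_comm]
    · refine ⟨P_T_comm π hπ f hf hfc b, ?_⟩
      rw [P_star]
      exact P_T_comm π hπ f hf hfc b⁻¹
    · refine ⟨(P_T_comm π hπ f hf hfc b').symm, ?_⟩
      exact starT_P_comm π hπ f hf hfc b'
    · exact ⟨rfl, T_normal π hπ f hf hfc⟩
  have memP : ∀ b, P π b ∈ dc Gs := fun b => subset_dc Gs (Or.inl ⟨b, rfl⟩)
  have memS : S ∈ dc Gs := subset_dc Gs (Or.inr rfl)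
  let PP : A → dc Gs := fun b => ⟨P π b, memP b⟩
  let SS : dc Gs := ⟨S, memS⟩
  have hne' : PP a * SS - SS ≠ 0 := by
    intro h
    apply hne
    exact congrArg Subtype.val h
  obtain ⟨φ, hφn, hφ⟩ := exists_character Gs hGs (PP a * SS - SS) hne'
  have hPP_mul : ∀ b b', PP (b * b') = PP b * PP b' := fun b b' => Subtype.ext (P_mul π b b')
  have hPP_one : PP 1 = 1 := Subtype.ext (P_one π)
  have hSS : φ SS ≠ 0 := by
    intro h
    apply hφ
    rw [map_sub, map_mul, h, mul_zero, sub_zero]
  have hnorm : ∀ b, ‖φ (PP b)‖ = 1 := by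
    intro b
    have h7 : ∀ b, ‖φ (PP b)‖ ≤ 1 := fun b => (hφn _).trans (P_norm π b)
    have h8 : φ (PP b) * φ (PP b⁻¹) = 1 := by
      rw [← map_mul, ← hPP_mul, mul_inv_cancel, hPP_one, map_one]
    have h9 : ‖φ (PP b)‖ * ‖φ (PP b⁻¹)‖ = 1 := by
      rw [← norm_mul, h8, norm_one]
    nlinarith [h7 b, h7 b⁻¹, norm_nonneg (φ (PP b)), norm_nonneg (φ (PP b⁻¹))]
  let χ : A →* Circle :=
    { toFun := fun b => ⟨φ (PP b), mem_sphere_zero_iff_norm.2 (hnorm b)⟩
      map_one' := by
        apply Circle.ext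
        change φ (PP 1) = 1
        rw [hPP_one, map_one]
      map_mul' := fun b b' => by
        apply Circle.ext
        change φ (PP (b * b')) = φ (PP b) * φ (PP b')
        rw [hPP_mul, map_mul] }
  refine ⟨χ, ?_, ?_⟩
  · -- continuity
    have h10 : ContinuousAt χ (1 : A) := by
      rw [ContinuousAt, map_one, circle_isInducing.tendsto_nhds_iff]
      change Tendsto (fun b => φ (PP b)) (𝓝 1) (𝓝 (1 : ℂ))
      have h11 : Tendsto (fun b => φ (PP b) * φ SS) (𝓝 1) (𝓝 (1 * φ SS)) := by
        rw [one_mul, tendsto_iff_norm_sub_tendsto_zero]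
        refine squeeze_zero (fun b => norm_nonneg _) (fun b => ?_)
          (tendsto_L1 (μ := μ) f hf hfc)
        have : φ (PP b) * φ SS - φ SS = φ (PP b * SS - SS) := by
          rw [map_sub, map_mul]
        rw [this]
        exact (hφn _).trans (P_T_sub_norm π hπ f hf hfc b)
      have h12 := h11.mul_const (φ SS)⁻¹
      simpa [mul_assoc, mul_inv_cancel₀ hSS] using h12
    exact continuous_of_continuousAt_one χ h10
  · intro h
    apply hφ
    have h13 : φ (PP a) = 1 := by
      exact congrArg (fun z : Circle => (z : ℂ)) h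
    rw [map_sub, map_mul, h13, one_mul, sub_self]

end Main

end Pool.Agent.Helper92.LCAChar
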