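import Mathlib
import Pool.Agent.Helper92.LCAChar1

/-!
Continuous characters separate the points of a locally compact Hausdorff abelian group.
-/

set_option autoImplicit false
set_option linter.unusedSectionVars false

namespace Pool.Agent.Helper92.LCAChar

open MeasureTheory Topology Filter
open scoped Pointwise ENNReal

universe u

variable {A : Type u} [CommGroup A] [TopologicalSpace A] [IsTopologicalGroup A]
  [LocallyCompactSpace A]
  [MeasurableSpace A] [BorelSpace A]

/-- the regular representation on `L²` -/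
noncomputable def reg (μ : Measure A) [μ.IsMulLeftInvariant] (a : A) :
    Lp ℂ 2 μ ≃ₗᵢ[ℂ] Lp ℂ 2 μ where
  toFun ξ := DomMulAct.mk a • ξ
  invFun ξ := DomMulAct.mk a⁻¹ • ξ
  map_add' ξ η := DomMulAct.smul_Lp_add _ _ _
  map_smul' c ξ := by
    rw [RingHom.id_apply]
    exact smul_comm _ _ _
  left_inv ξ := by
    change DomMulAct.mk a⁻¹ • DomMulAct.mk a • ξ = ξ
    rw [smul_smul, ← DomMulAct.mk_mul, mul_inv_cancel, DomMulAct.mk_one, one_smul]
  right_inv ξ := by
    change DomMulAct.mk a • DomMulAct.mk a⁻¹ • ξ = ξ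
    rw [smul_smul, ← DomMulAct.mk_mul, inv_mul_cancel, DomMulAct.mk_one, one_smul]
  norm_map' ξ := DomMulAct.norm_smul_Lp _ _

theorem reg_apply (μ : Measure A) [μ.IsMulLeftInvariant] (a : A) (ξ : Lp ℂ 2 μ) :
    reg μ a ξ = DomMulAct.mk a • ξ := rfl

/-- the regular representation as a homomorphism -/
noncomputable def regHom (μ : Measure A) [μ.IsMulLeftInvariant] :
    A →* (Lp ℂ 2 μ ≃ₗᵢ[ℂ] Lp ℂ 2 μ) where
  toFun := reg μ
  map_one' := by
    ext1 ξ
    change DomMulAct.mk (1 : A) • ξ = ξ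
    rw [DomMulAct.mk_one, one_smul]
  map_mul' a b := by
    ext1 ξ
    change DomMulAct.mk (a * b) • ξ = DomMulAct.mk a • DomMulAct.mk b • ξ
    rw [smul_smul, ← DomMulAct.mk_mul, mul_comm]

theorem regHom_continuous (μ : Measure A) [μ.IsHaarMeasure] [μ.Regular] (ξ : Lp ℂ 2 μ) :
    Continuous fun a => regHom μ a ξ := by
  have : Fact ((2 : ℝ≥0∞) ≠ ∞) := ⟨by norm_num⟩
  change Continuous fun a => DomMulAct.mk a • ξ
  exact (continuous_smul (M := Aᵈᵐᵃ) (X := Lp ℂ 2 μ)).comp
    ((DomMulAct.continuous_mk).prodMk continuous_const)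

theorem regHom_ne_one [T2Space A] (μ : Measure A) [μ.IsHaarMeasure] [μ.Regular] (a : A)
    (ha : a ≠ 1) : regHom μ a ≠ 1 := by
  intro hone
  obtain ⟨U', U, hU', hU, haU', h1U, hdisj⟩ := t2_separation ha
  obtain ⟨K, hK, hK1⟩ := exists_compact_mem_nhds (1 : A)
  let s : Set A := U ∩ ((fun x => a * x) ⁻¹' U') ∩ interior K
  have hs : IsOpen s :=
    (hU.inter (hU'.preimage (continuous_const.mul continuous_id))).inter isOpen_interior
  have h1s : (1 : A) ∈ s := by
    refine ⟨⟨h1U, ?_⟩, mem_interior_iff_mem_nhds.mpr hK1⟩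
    change a * 1 ∈ U'
    rwa [mul_one]
  have hμs : μ s ≠ ∞ :=
    (lt_of_le_of_lt (measure_mono (Set.inter_subset_right.trans interior_subset))
      hK.measure_lt_top).ne
  have hpos : 0 < μ s := hs.measure_pos μ ⟨1, h1s⟩
  let ξ : Lp ℂ 2 μ := indicatorConstLp 2 hs.measurableSet hμs (1 : ℂ)
  have h : DomMulAct.mk a • ξ = ξ := by
    have := congrArg (fun L : Lp ℂ 2 μ ≃ₗᵢ[ℂ] Lp ℂ 2 μ => L ξ) hone
    exact this
  rw [DomMulAct.mk_smul_indicatorConstLp] at h
  have e1 := indicatorConstLp_coeFn (p := 2) (hs := hs.measurableSet) (hμs := hμs) (c := (1 : ℂ))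
  have e2 : ((ξ : Lp ℂ 2 μ) : A → ℂ) =ᵐ[μ] ((fun x => a • x) ⁻¹' s).indicator fun _ => (1 : ℂ) := by
    rw [← h]
    exact indicatorConstLp_coeFn
  have e3 : (s.indicator fun _ => (1 : ℂ)) =ᵐ[μ]
      ((fun x => a • x) ⁻¹' s).indicator fun _ => (1 : ℂ) := e1.symm.trans e2
  have : μ s = 0 := by
    rw [Filter.EventuallyEq, ae_iff] at e3
    refine measure_mono_null ?_ e3
    intro x hx
    change ¬ (s.indicator (fun _ => (1 : ℂ)) x = ((fun x => a • x) ⁻¹' s).indicator (fun _ => (1 : ℂ)) x)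
    have hx' : x ∉ (fun x => a • x) ⁻¹' s := by
      intro hx2
      exact Set.disjoint_left.mp hdisj hx.1.2 hx2.1.1
    rw [Set.indicator_of_mem hx, Set.indicator_of_notMem hx']
    exact one_ne_zero
  exact hpos.ne' this

end Pool.Agent.Helper92.LCAChar

namespace Pool.Agent.Helper92.LCAChar

open MeasureTheory Topology Filter

universe u

/-- Continuous characters separate points of a locally compact Hausdorff abelian group. -/
theorem exists_char {A : Type u} [CommGroup A] [TopologicalSpace A] [IsTopologicalGroup A]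
    [LocallyCompactSpace A] [T2Space A] (a : A) (ha : a ≠ 1) :
    ∃ χ : A →* Circle, Continuous χ ∧ χ a ≠ 1 := by
  borelize A
  exact exists_char_of_rep (regHom (Measure.haar : Measure A))
    (regHom_continuous (Measure.haar : Measure A)) a
    (regHom_ne_one (Measure.haar : Measure A) a ha)

end Pool.Agent.Helper92.LCAChar
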