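import Mathlib
import Pool.Agent.Helper92.LCAChar
import Pool.Agent.Helper92.GroupFilter

/-!
The centre of a minimal locally compact group is compact.
-/

set_option autoImplicit false
set_option linter.unusedSectionVars false

noncomputable section

namespace Pool.Agent.Helper92.CenterCompact

open Topology Filter Pool.Agent.Helper92.GroupFilter
open scoped Pointwise IsMulCommutative

universe u

variable {G : Type u} [Group G] [TopologicalSpace G] [IsTopologicalGroup G] [T2Space G]

theorem isClosed_center : IsClosed (Subgroup.center G : Set G) := by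
  have : (Subgroup.center G : Set G) = ⋂ g : G, {z | g * z = z * g} := by
    ext z
    simp [Subgroup.mem_center_iff]
  rw [this]
  refine isClosed_iInter fun g => ?_
  exact isClosed_eq (continuous_const.mul continuous_id) (continuous_id.mul continuous_const)

/-- Bohr neighbourhoods in the centre. -/
def bohr (G : Type u) [Group G] [TopologicalSpace G] : Filter (Subgroup.center G) :=
  ⨅ χ : {χ : Subgroup.center G →* Circle // Continuous χ}, comap χ.1 (𝓝 1)

theorem tendsto_bohr {α : Type*} {l : Filter α} {f : α → Subgroup.center G} :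
    Tendsto f l (bohr G) ↔
      ∀ χ : Subgroup.center G →* Circle, Continuous χ → Tendsto (fun a => χ (f a)) l (𝓝 1) := by
  rw [bohr, tendsto_iInf]
  constructor
  · intro h χ hχ
    exact tendsto_comap_iff.mp (h ⟨χ, hχ⟩)
  · intro h χ
    exact tendsto_comap_iff.mpr (h χ.1 χ.2)

theorem pure_le_bohr : pure 1 ≤ bohr G := by
  have : Tendsto (fun _ : Unit => (1 : Subgroup.center G)) ⊤ (bohr G) := by
    rw [tendsto_bohr]
    intro χ _
    simp
  intro U hU
  have := this hU
  simpa using this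

/-- the filter on the whole group -/
def NB (G : Type u) [Group G] [TopologicalSpace G] : Filter G :=
  map (fun p : Subgroup.center G × G => (p.1 : G) * p.2) (bohr G ×ˢ 𝓝 1)

theorem NB_gf : GF (NB G) := by
  constructor
  · intro U hU
    have h1 : {p : Subgroup.center G × G | (p.1 : G) * p.2 ∈ U} ∈ bohr G ×ˢ 𝓝 (1 : G) := hU
    rw [mem_prod_iff] at h1
    obtain ⟨A, hA, B, hB, hAB⟩ := h1
    have h2 : (1 : Subgroup.center G) ∈ A := pure_le_bohr hA
    have h3 : (1 : G) ∈ B := mem_of_mem_nhds hB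
    have h4 := hAB (show ((1 : Subgroup.center G), (1 : G)) ∈ A ×ˢ B from ⟨h2, h3⟩)
    simpa using h4
  · rw [NB, prod_map_map_eq, tendsto_map'_iff]
    have h1 : ((fun p : G × G => p.1 * p.2) ∘ fun p : (Subgroup.center G × G) × (Subgroup.center G × G) =>
        ((p.1.1 : G) * p.1.2, (p.2.1 : G) * p.2.2)) =
        (fun p : Subgroup.center G × G => (p.1 : G) * p.2) ∘
        fun p : (Subgroup.center G × G) × (Subgroup.center G × G) =>
          (p.1.1 * p.2.1, p.1.2 * p.2.2) := by
      funext p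
      change (p.1.1 : G) * p.1.2 * ((p.2.1 : G) * p.2.2) = (p.1.1 : G) * p.2.1 * (p.1.2 * p.2.2)
      have : p.1.2 * (p.2.1 : G) = (p.2.1 : G) * p.1.2 :=
        Subgroup.mem_center_iff.mp p.2.1.2 p.1.2
      rw [mul_assoc, ← mul_assoc p.1.2, this]
      simp only [mul_assoc]
    rw [h1]
    refine tendsto_map.comp ?_
    refine Tendsto.prodMk ?_ ?_
    · rw [tendsto_bohr]
      intro χ hχ
      have ha : Tendsto (fun p : (Subgroup.center G × G) × (Subgroup.center G × G) => χ p.1.1)
          ((bohr G ×ˢ 𝓝 1) ×ˢ (bohr G ×ˢ 𝓝 1)) (𝓝 1) :=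
        (tendsto_bohr.mp tendsto_id χ hχ).comp (tendsto_fst.comp tendsto_fst)
      have hb : Tendsto (fun p : (Subgroup.center G × G) × (Subgroup.center G × G) => χ p.2.1)
          ((bohr G ×ˢ 𝓝 1) ×ˢ (bohr G ×ˢ 𝓝 1)) (𝓝 1) :=
        (tendsto_bohr.mp tendsto_id χ hχ).comp (tendsto_fst.comp tendsto_snd)
      have := ha.mul hb
      simpa [map_mul] using this
    · have ha : Tendsto (fun p : (Subgroup.center G × G) × (Subgroup.center G × G) => p.1.2)
          ((bohr G ×ˢ 𝓝 1) ×ˢ (bohr G ×ˢ 𝓝 1)) (𝓝 1) := tendsto_snd.comp tendsto_fst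
      have hb : Tendsto (fun p : (Subgroup.center G × G) × (Subgroup.center G × G) => p.2.2)
          ((bohr G ×ˢ 𝓝 1) ×ˢ (bohr G ×ˢ 𝓝 1)) (𝓝 1) := tendsto_snd.comp tendsto_snd
      have := ha.mul hb
      simpa using this
  · rw [NB, tendsto_map'_iff]
    have h1 : ((fun g : G => g⁻¹) ∘ fun p : Subgroup.center G × G => (p.1 : G) * p.2) =
        (fun p : Subgroup.center G × G => (p.1 : G) * p.2) ∘
        fun p : Subgroup.center G × G => (p.1⁻¹, p.2⁻¹) := by
      funext p
      change ((p.1 : G) * p.2)⁻¹ = ((p.1⁻¹ : Subgroup.center G) : G) * p.2⁻¹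
      rw [mul_inv_rev]
      exact Subgroup.mem_center_iff.mp (p.1⁻¹).2 _
    rw [h1]
    refine tendsto_map.comp ?_
    refine Tendsto.prodMk ?_ ?_
    · rw [tendsto_bohr]
      intro χ hχ
      have ha : Tendsto (fun p : Subgroup.center G × G => χ p.1) (bohr G ×ˢ 𝓝 1) (𝓝 1) :=
        (tendsto_bohr.mp tendsto_id χ hχ).comp tendsto_fst
      have := ha.inv
      simpa using this
    · have ha : Tendsto (fun p : Subgroup.center G × G => p.2) (bohr G ×ˢ 𝓝 1) (𝓝 1) :=
        tendsto_snd
      have := ha.inv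
      simpa using this
  · intro g
    rw [NB, tendsto_map'_iff]
    have h1 : ((fun x : G => g * x * g⁻¹) ∘ fun p : Subgroup.center G × G => (p.1 : G) * p.2) =
        (fun p : Subgroup.center G × G => (p.1 : G) * p.2) ∘
        fun p : Subgroup.center G × G => (p.1, g * p.2 * g⁻¹) := by
      funext p
      change g * ((p.1 : G) * p.2) * g⁻¹ = (p.1 : G) * (g * p.2 * g⁻¹)
      have : g * (p.1 : G) = (p.1 : G) * g := Subgroup.mem_center_iff.mp p.1.2 g
      rw [← mul_assoc g, this]
      simp only [mul_assoc]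
    rw [h1]
    refine tendsto_map.comp ?_
    refine Tendsto.prodMk tendsto_fst ?_
    have hc : Continuous fun x : G => g * x * g⁻¹ := by fun_prop
    have := (hc.tendsto 1).comp (tendsto_snd (f := bohr G) (g := 𝓝 (1 : G)))
    simpa [Function.comp_def] using this

theorem nhds_le_NB : 𝓝 (1 : G) ≤ NB G := by
  intro U hU
  have h1 : {p : Subgroup.center G × G | (p.1 : G) * p.2 ∈ U} ∈ bohr G ×ˢ 𝓝 (1 : G) := hU
  rw [mem_prod_iff] at h1
  obtain ⟨A, hA, B, hB, hAB⟩ := h1
  filter_upwards [hB] with x hx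
  have h4 := hAB (show ((1 : Subgroup.center G), x) ∈ A ×ˢ B from ⟨pure_le_bohr hA, hx⟩)
  simpa using h4

theorem NB_sep [LocallyCompactSpace G] (g : G) (hg : g ≠ 1) : ∃ U ∈ NB G, g ∉ U := by
  by_contra hcon
  push Not at hcon
  -- `g` is in the centre
  have hfreq : ∀ A ∈ bohr G, ∀ B ∈ 𝓝 (1 : G), ∃ z ∈ A, ∃ p ∈ B, (z : G) * p = g := by
    intro A hA B hB
    have : (fun p : Subgroup.center G × G => (p.1 : G) * p.2) '' (A ×ˢ B) ∈ NB G :=
      image_mem_map (prod_mem_prod hA hB)
    obtain ⟨⟨z, p⟩, ⟨hz, hp⟩, hzp⟩ := hcon _ this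
    exact ⟨z, hz, p, hp, hzp⟩
  have hgZ : g ∈ Subgroup.center G := by
    have : g ∈ closure (Subgroup.center G : Set G) := by
      rw [mem_closure_iff_nhds]
      intro t ht
      have hc : Tendsto (fun x : G => g * x⁻¹) (𝓝 1) (𝓝 g) := by
        have : Continuous fun x : G => g * x⁻¹ := by fun_prop
        simpa using this.tendsto 1
      obtain ⟨z, _, p, hp, hzp⟩ := hfreq Set.univ univ_mem _ (hc ht)
      refine ⟨g * p⁻¹, hp, ?_⟩
      rw [← hzp]
      simp
    rwa [isClosed_center.closure_eq] at this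
  have hlc : LocallyCompactSpace (Subgroup.center G) :=
    isClosed_center.isClosedEmbedding_subtypeVal.locallyCompactSpace
  have hne : (⟨g, hgZ⟩ : Subgroup.center G) ≠ 1 := by
    intro h
    exact hg (congrArg Subtype.val h)
  obtain ⟨χ, hχ, hχg⟩ := LCAChar.exists_char (⟨g, hgZ⟩ : Subgroup.center G) hne
  -- separate
  have h3 : Tendsto (fun q : Circle × Circle => q.1 * q.2) (𝓝 1 ×ˢ 𝓝 1) (𝓝 1) := by
    have : Continuous fun q : Circle × Circle => q.1 * q.2 := continuous_mul
    have h4 := this.tendsto (1, 1)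
    rw [nhds_prod_eq] at h4
    simpa using h4
  have h4 : {c : Circle | c ≠ χ ⟨g, hgZ⟩} ∈ 𝓝 (1 : Circle) :=
    isOpen_ne.mem_nhds (Ne.symm hχg)
  have h5 := h3 h4
  rw [mem_map, mem_prod_iff] at h5
  obtain ⟨O1, hO1, O2, hO2, hO⟩ := h5
  have hA : χ ⁻¹' O1 ∈ bohr G := by
    have := tendsto_bohr.mp (tendsto_id (α := Subgroup.center G) (x := bohr G)) χ hχ
    exact this hO1
  have hB0 : χ ⁻¹' O2 ∈ 𝓝 (1 : Subgroup.center G) := by
    have := hχ.tendsto 1
    rw [map_one] at this
    exact this hO2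
  rw [nhds_subtype_eq_comap, mem_comap] at hB0
  obtain ⟨B, hB, hBO⟩ := hB0
  obtain ⟨z, hz, p, hp, hzp⟩ := hfreq _ hA B hB
  have hpZ : p ∈ Subgroup.center G := by
    have : p = (z : G)⁻¹ * g := by rw [← hzp]; simp
    rw [this]
    exact (Subgroup.center G).mul_mem ((Subgroup.center G).inv_mem z.2) hgZ
  have h6 : χ ⟨p, hpZ⟩ ∈ O2 := hBO (show (⟨p, hpZ⟩ : Subgroup.center G) ∈ _ from hp)
  have h7 := hO (show (χ z, χ ⟨p, hpZ⟩) ∈ O1 ×ˢ O2 from ⟨hz, h6⟩)
  apply h7
  change χ z * χ ⟨p, hpZ⟩ = χ ⟨g, hgZ⟩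
  rw [← map_mul]
  congr 1
  exact Subtype.ext hzp

theorem isCompact_center [LocallyCompactSpace G] (hmin : MinGrp G) :
    IsCompact (Subgroup.center G : Set G) := by
  have hle : NB G ≤ 𝓝 1 := hmin.filter_le NB_gf NB_sep nhds_le_NB
  rw [isCompact_iff_compactSpace]
  change CompactSpace (Subgroup.center G)
  constructor
  rw [isCompact_iff_ultrafilter_le_nhds]
  intro U _
  -- the image ultrafilter is Cauchy
  let V : Ultrafilter G := U.map Subtype.val
  have hV : Tendsto (fun p : G × G => p.1 * p.2⁻¹) ((V : Filter G) ×ˢ (V : Filter G)) (𝓝 1) := by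
    refine Tendsto.mono_right ?_ hle
    rw [Ultrafilter.coe_map, prod_map_map_eq, tendsto_map'_iff]
    have h1 : ((fun p : G × G => p.1 * p.2⁻¹) ∘ fun p : Subgroup.center G × Subgroup.center G =>
        ((p.1 : G), (p.2 : G))) =
        (fun p : Subgroup.center G × G => (p.1 : G) * p.2) ∘
        fun p : Subgroup.center G × Subgroup.center G => (p.1 * p.2⁻¹, (1 : G)) := by
      funext p
      change (p.1 : G) * (p.2 : G)⁻¹ = (p.1 : G) * (p.2 : G)⁻¹ * 1
      rw [mul_one]
    rw [h1]
    refine tendsto_map.comp ?_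
    refine Tendsto.prodMk ?_ tendsto_const_nhds
    rw [tendsto_bohr]
    intro χ _
    obtain ⟨t, _, ht⟩ := (isCompact_univ (X := Circle)).ultrafilter_le_nhds (U.map χ) (by simp)
    have ht' : Tendsto χ (U : Filter (Subgroup.center G)) (𝓝 t) := ht
    have ha : Tendsto (fun p : Subgroup.center G × Subgroup.center G => χ p.1)
        ((U : Filter (Subgroup.center G)) ×ˢ (U : Filter (Subgroup.center G))) (𝓝 t) :=
      ht'.comp tendsto_fst
    have hb : Tendsto (fun p : Subgroup.center G × Subgroup.center G => χ p.2)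
        ((U : Filter (Subgroup.center G)) ×ˢ (U : Filter (Subgroup.center G))) (𝓝 t) :=
      ht'.comp tendsto_snd
    have := ha.mul hb.inv
    simpa using this
  obtain ⟨g, hg⟩ := exists_le_nhds_of_cauchy V hV
  have hgZ : g ∈ Subgroup.center G := by
    have : g ∈ closure (Subgroup.center G : Set G) := by
      rw [mem_closure_iff_ultrafilter]
      refine ⟨V, ?_, hg⟩
      rw [Ultrafilter.mem_map]
      exact Filter.mem_of_superset univ_mem fun z _ => z.2
    rwa [isClosed_center.closure_eq] at this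
  refine ⟨⟨g, hgZ⟩, Set.mem_univ _, ?_⟩
  rw [nhds_subtype_eq_comap]
  exact map_le_iff_le_comap.mp hg

end Pool.Agent.Helper92.CenterCompact
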