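import Mathlib

set_option autoImplicit false

open Set Cardinal

namespace Pool.Agent.Helper92.Corson

universe u

variable {S : Type u} (c : Finset S → Set S)

/-- `M` is closed under the operator `c`. -/
def IsCl (M : Set S) : Prop := ∀ F : Finset S, (F : Set S) ⊆ M → c F ⊆ M

/-- The smallest closed set containing `A`. -/
def clos (A : Set S) : Set S := ⋂₀ {M | IsCl c M ∧ A ⊆ M}

theorem subset_clos (A : Set S) : A ⊆ clos c A :=
  subset_sInter fun _ h => h.2

theorem isCl_clos (A : Set S) : IsCl c (clos c A) := by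
  intro F hF
  refine subset_sInter fun M hM => hM.1 F (hF.trans (sInter_subset_of_mem hM))

theorem clos_subset {A M : Set S} (hM : IsCl c M) (h : A ⊆ M) : clos c A ⊆ M :=
  sInter_subset_of_mem ⟨hM, h⟩

theorem clos_mono {A B : Set S} (h : A ⊆ B) : clos c A ⊆ clos c B :=
  clos_subset c (isCl_clos c B) (h.trans (subset_clos c B))

/-- The stages. -/
def stage (A : Set S) : ℕ → Set S
  | 0 => A
  | n + 1 => stage A n ∪ ⋃ G : Finset (stage A n), c (G.map ⟨Subtype.val, Subtype.val_injective⟩)

theorem stage_mono (A : Set S) : Monotone (stage c A) :=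
  monotone_nat_of_le_succ fun n => by
    intro x hx
    exact Or.inl hx

theorem isCl_iUnion_stage (A : Set S) : IsCl c (⋃ n, stage c A n) := by
  classical
  intro F hF
  obtain ⟨n, hn⟩ := Directed.exists_mem_subset_of_finset_subset_biUnion
    (f := stage c A) ((stage_mono c A).directed_le) hF
  refine Subset.trans ?_ (subset_iUnion _ (n + 1))
  intro x hx
  refine Or.inr (mem_iUnion.2 ⟨F.attach.map ⟨fun y => ⟨y.1, hn y.2⟩, ?_⟩, ?_⟩)
  · intro y z hyz
    have := congrArg Subtype.val hyz
    exact Subtype.ext this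
  · have : (F.attach.map ⟨fun y => (⟨y.1, hn y.2⟩ : stage c A n), by
        intro y z hyz
        have := congrArg Subtype.val hyz
        exact Subtype.ext this⟩).map ⟨Subtype.val, Subtype.val_injective⟩ = F := by
      ext z
      simp only [Finset.mem_map, Finset.mem_attach, Function.Embedding.coeFn_mk, true_and]
      constructor
      · rintro ⟨w, ⟨v, rfl⟩, rfl⟩
        exact v.2
      · intro hz
        exact ⟨⟨z, hn hz⟩, ⟨⟨z, hz⟩, rfl⟩, rfl⟩
    rw [this]
    exact hx

theorem clos_subset_stage (A : Set S) : clos c A ⊆ ⋃ n, stage c A n :=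
  clos_subset c (isCl_iUnion_stage c A) (subset_iUnion (stage c A) 0)

theorem mk_stage_le (hc : ∀ F, (c F).Countable) (A : Set S) (κ : Cardinal.{u}) (hκ : ℵ₀ ≤ κ)
    (hA : #A ≤ κ) (n : ℕ) : #(stage c A n) ≤ κ := by
  induction n with
  | zero => exact hA
  | succ n ih =>
    have h1 : #(Finset (stage c A n)) ≤ κ := by
      rcases finite_or_infinite (stage c A n) with h | h
      · exact (Cardinal.lt_aleph0_of_finite _).le.trans hκ
      · rw [Cardinal.mk_finset_of_infinite]; exact ih
    have h2 : #(⋃ G : Finset (stage c A n), c (G.map ⟨Subtype.val, Subtype.val_injective⟩) :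
        Set S) ≤ κ := by
      refine (Cardinal.mk_iUnion_le _).trans ?_
      have h3 : (⨆ G : Finset (stage c A n),
          #(c (G.map ⟨Subtype.val, Subtype.val_injective⟩))) ≤ ℵ₀ :=
        ciSup_le' fun G => (Cardinal.le_aleph0_iff_set_countable).2 (hc _)
      calc _ ≤ κ * ℵ₀ := mul_le_mul' h1 h3
        _ ≤ κ * κ := mul_le_mul' le_rfl hκ
        _ = κ := Cardinal.mul_eq_self hκ
    calc #(stage c A (n + 1)) ≤ #(stage c A n) +
        #(⋃ G : Finset (stage c A n), c (G.map ⟨Subtype.val, Subtype.val_injective⟩) : Set S) :=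
          Cardinal.mk_union_le _ _
      _ ≤ κ + κ := add_le_add ih h2
      _ = κ := Cardinal.add_eq_self hκ

theorem mk_clos_le (hc : ∀ F, (c F).Countable) (A : Set S) (κ : Cardinal.{u}) (hκ : ℵ₀ ≤ κ)
    (hA : #A ≤ κ) : #(clos c A) ≤ κ := by
  refine (Cardinal.mk_le_mk_of_subset (clos_subset_stage c A)).trans ?_
  have h := Cardinal.mk_iUnion_le_lift (f := fun n : ℕ => stage c A n)
  simp only [Cardinal.mk_nat, Cardinal.lift_aleph0, Cardinal.lift_id'] at h
  have h3 : (⨆ n : ℕ, #(stage c A n)) ≤ κ :=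
    ciSup_le' fun n => mk_stage_le c hc A κ hκ hA n
  calc _ ≤ ℵ₀ * κ := h.trans (mul_le_mul' le_rfl h3)
    _ ≤ κ * κ := mul_le_mul' hκ le_rfl
    _ = κ := Cardinal.mul_eq_self hκ

theorem countable_clos (hc : ∀ F, (c F).Countable) {A : Set S} (hA : A.Countable) :
    (clos c A).Countable :=
  (Cardinal.le_aleph0_iff_set_countable).1
    (mk_clos_le c hc A ℵ₀ le_rfl ((Cardinal.le_aleph0_iff_set_countable).2 hA))

/-- The closure operator is finitary. -/
theorem clos_sUnion_subset {C : Set (Set S)} (hne : C.Nonempty) (hd : DirectedOn (· ⊆ ·) C) :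
    clos c (⋃₀ C) ⊆ ⋃ A ∈ C, clos c A := by
  obtain ⟨A₀, hA₀⟩ := hne
  refine clos_subset c ?_ ?_
  · intro F hF
    obtain ⟨A, hA, hFA⟩ := DirectedOn.exists_mem_subset_of_finset_subset_biUnion
      (f := clos c) (c := C) ⟨A₀, hA₀⟩
      (fun A hA B hB => by
        obtain ⟨D, hD, h1, h2⟩ := hd A hA B hB
        exact ⟨D, hD, clos_mono c h1, clos_mono c h2⟩) hF
    exact (isCl_clos c A F hFA).trans (subset_biUnion_of_mem (u := clos c) hA)
  · rintro x ⟨A, hA, hx⟩
    exact mem_biUnion hA (subset_clos c A hx)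

end Pool.Agent.Helper92.Corson
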