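import Pool.Agent.Helper92.CorsonCp

set_option autoImplicit false

open Set Topology

namespace Pool.Agent.Helper92.Corson

universe u

/-- The hypothesis of the problem, in the universe `u`. -/
def CorsonCpU (X : Type u) [TopologicalSpace X] : Prop :=
  ∀ S : Set (X → ℝ), (∀ f ∈ S, Continuous f) → IsCompact S →
        ∃ (Γ : Type u) (e : S → (Γ → ℝ)), Topology.IsEmbedding e ∧
          ∀ s, (Function.support (e s)).Countable

/-- Under the hypothesis, continuous images in metric spaces are separable. -/
theorem isSeparable_rangeU {X : Type u} [TopologicalSpace X] (hX : CorsonCpU X) {Y : Type*}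
    [PseudoMetricSpace Y] (n : X → Y) (hn : Continuous n) :
    TopologicalSpace.IsSeparable (range n) := by
  classical
  by_contra hsep
  -- a positive epsilon
  obtain ⟨ε, hε, hno⟩ : ∃ ε > 0, ∀ C : Set X, C.Countable → ∃ x, ∀ y ∈ C,
      ε ≤ dist (n x) (n y) := by
    by_contra hcon
    push Not at hcon
    apply hsep
    have hch : ∀ m : ℕ, ∃ C : Set X, C.Countable ∧ ∀ x, ∃ y ∈ C,
        dist (n x) (n y) < 1 / ((m : ℝ) + 1) := fun m => hcon _ (by positivity)
    choose C hC hCd using hch
    refine ⟨n '' ⋃ m, C m, (countable_iUnion hC).image n, ?_⟩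
    rintro _ ⟨x, rfl⟩
    rw [Metric.mem_closure_iff]
    intro ε hε
    obtain ⟨m, hm⟩ := exists_nat_one_div_lt hε
    obtain ⟨y, hy, hxy⟩ := hCd m x
    exact ⟨n y, ⟨y, mem_iUnion.2 ⟨m, hy⟩, rfl⟩, hxy.trans hm⟩
  -- a maximal separated set
  obtain ⟨A, hA⟩ : ∃ A : Set X, Maximal (fun B : Set X => B.Pairwise
      fun x y => ε ≤ dist (n x) (n y)) A := by
    refine zorn_subset {B : Set X | B.Pairwise fun x y => ε ≤ dist (n x) (n y)} ?_
    intro c hc hchain
    refine ⟨⋃₀ c, ?_, fun s hs => subset_sUnion_of_mem hs⟩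
    exact (pairwise_sUnion hchain.directedOn).2 fun s hs => hc hs
  have hAun : ¬ A.Countable := by
    intro hAc
    obtain ⟨x, hx⟩ := hno A hAc
    have hxA : x ∉ A := by
      intro hxA
      have := hx x hxA
      rw [dist_self] at this
      exact absurd hε (not_lt.2 this)
    have h2 : (insert x A).Pairwise fun x y => ε ≤ dist (n x) (n y) := by
      refine pairwise_insert.2 ⟨hA.prop, fun y hy _ => ⟨hx y hy, ?_⟩⟩
      rw [dist_comm]
      exact hx y hy
    exact hxA (hA.mem_of_prop_insert h2)
  -- the bump functions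
  let f : A → X → ℝ := fun a x => max 0 (1 - 4 / ε * dist (n x) (n a))
  have hfc : ∀ a, Continuous (f a) := fun a =>
    continuous_const.max (continuous_const.sub (continuous_const.mul
      (hn.dist continuous_const)))
  have hfpos : ∀ a x, f a x ≠ 0 → dist (n x) (n a) < ε / 4 := by
    intro a x h
    by_contra hcon
    push Not at hcon
    apply h
    have h1 : 1 ≤ 4 / ε * dist (n x) (n a) := by
      calc (1 : ℝ) = 4 / ε * (ε / 4) := by field_simp
        _ ≤ 4 / ε * dist (n x) (n a) := by gcongr
    exact max_eq_left (by linarith)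
  have hfself : ∀ a : A, f a a = 1 := by
    intro a
    simp [f]
  have huniq : ∀ (a a' : A) (x x' : X), dist (n x) (n x') < ε / 4 → f a x ≠ 0 → f a' x' ≠ 0 →
      a = a' := by
    intro a a' x x' hxx h h'
    by_contra hne
    have h1 := hA.prop a.2 a'.2 (fun h => hne (Subtype.ext h))
    have h2 := hfpos a x h
    have h3 := hfpos a' x' h'
    have h4 : dist (n a) (n a') ≤ dist (n a) (n x) + dist (n x) (n x') + dist (n x') (n a') :=
      dist_triangle4 _ _ _ _
    rw [dist_comm (n a) (n x)] at h4
    simp only at h1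
    linarith
  have huniq' : ∀ (a a' : A) (x : X), f a x ≠ 0 → f a' x ≠ 0 → a = a' := fun a a' x =>
    huniq a a' x x (by rw [dist_self]; positivity)
  have hlf : LocallyFinite fun a => Function.support (f a) := by
    intro x
    refine ⟨{x' | dist (n x') (n x) < ε / 8},
      (isOpen_lt (hn.dist continuous_const) continuous_const).mem_nhds (by
        simp only [mem_ofPred_eq, dist_self]; positivity), ?_⟩
    refine Set.Subsingleton.finite ?_
    rintro a ⟨x₁, hx₁, hx₁'⟩ a' ⟨x₂, hx₂, hx₂'⟩
    refine huniq a a' x₁ x₂ ?_ hx₁ hx₂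
    have h1 : dist (n x₁) (n x) < ε / 8 := hx₁'
    have h2 : dist (n x₂) (n x) < ε / 8 := hx₂'
    have h3 := dist_triangle_right (n x₁) (n x₂) (n x)
    linarith
  -- the cube
  let F : (A → Bool) → (X → ℝ) := fun y x => ∑ᶠ a, if y a = true then f a x else 0
  have hFx : ∀ y, Continuous (F y) := by
    intro y
    refine continuous_finsum (f := fun a x => if y a = true then f a x else 0) ?_ ?_
    · intro a
      by_cases h : y a = true
      · simp only [h, if_true]; exact hfc a
      · simp only [h]; exact continuous_const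
    · refine hlf.subset fun a x hx => ?_
      intro h0
      apply hx
      simp only [h0, ite_self]
  have hFval : ∀ y (a : A) x, f a x ≠ 0 → F y x = if y a = true then f a x else 0 := by
    intro y a x hax
    refine finsum_eq_single _ a fun a' ha' => ?_
    have : f a' x = 0 := by
      by_contra h
      exact ha' (huniq' a' a x h hax)
    simp [this]
  have hFc : Continuous F := by
    refine continuous_pi fun x => ?_
    by_cases hx : ∃ a, f a x ≠ 0
    · obtain ⟨a, ha⟩ := hx
      have : (fun y => F y x) = fun y => (fun t : Bool => if t = true then f a x else 0) (y a) := by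
        funext y
        exact hFval y a x ha
      rw [this]
      exact (continuous_of_discreteTopology (f := fun t : Bool =>
        if t = true then f a x else 0)).comp (continuous_apply a)
    · push Not at hx
      have : (fun y => F y x) = fun _ => 0 := by
        funext y
        simp [F, hx]
      rw [this]
      exact continuous_const
  have hFinj : Function.Injective F := by
    intro y y' hyy
    funext a
    have h1 := congrFun hyy a
    rw [hFval y a a (by rw [hfself]; exact one_ne_zero),
      hFval y' a a (by rw [hfself]; exact one_ne_zero), hfself] at h1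
    cases h2 : y a <;> cases h3 : y' a <;> simp_all
  obtain ⟨Γ, e, he, hes⟩ := hX (range F) (by rintro _ ⟨y, rfl⟩; exact hFx y)
    (isCompact_range hFc)
  let g : (A → Bool) → (Γ → ℝ) := fun y => e ⟨F y, mem_range_self y⟩
  have hg : Continuous g := he.continuous.comp (hFc.subtype_mk _)
  obtain ⟨y, hy, hgy⟩ := exists_countable_ind g hg (fun y => hes _)
  have h1 := he.injective hgy
  have h2 : y = fun _ => true := hFinj (Subtype.ext_iff.1 h1)
  rw [h2] at hy
  simp only [ofPred_true] at hy
  apply hAun
  have : Countable A := countable_univ_iff.1 hy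
  exact this.to_set

/-- The main theorem, local form. -/
theorem main_local {X K : Type u} [TopologicalSpace X] [TopologicalSpace K]
    [CompactSpace K] (L₀ : Set (X × K → ℝ)) (hLc : ∀ f ∈ L₀, Continuous f)
    (hLK : IsCompact L₀)
    (hsl : ∀ k : K, ∃ (Γ : Type u) (e : range (fun (l : L₀) (x : X) => l.1 (x, k)) → (Γ → ℝ)),
      Topology.IsEmbedding e ∧ ∀ s, (Function.support (e s)).Countable)
    (hsr : ∀ n : X → C(K, ℝ), Continuous n → TopologicalSpace.IsSeparable (range n)) :
    ∃ (Γ : Type u) (e : L₀ → (Γ → ℝ)), Topology.IsEmbedding e ∧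
      ∀ s, (Function.support (e s)).Countable := by
  classical
  have : CompactSpace L₀ := isCompact_iff_compactSpace.1 hLK
  -- slices
  let slice : K → L₀ → (X → ℝ) := fun k l x => l.1 (x, k)
  have hslice : ∀ k, Continuous (slice k) := fun k => continuous_pi fun x =>
    (continuous_apply (x, k)).comp continuous_subtype_val
  choose Γ e he hes using hsl
  let J : Type u := Σ k : K, Γ k
  let fJ : J → L₀ → ℝ := fun j l => e j.1 ⟨slice j.1 l, mem_range_self l⟩ j.2
  have hfJ : ∀ j, Continuous (fJ j) := fun j =>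
    (continuous_apply j.2).comp ((he j.1).continuous.comp ((hslice j.1).subtype_mk _))
  -- the map into C(K)
  let nC : L₀ → X → C(K, ℝ) := fun l => (ContinuousMap.curry ⟨l.1, hLc l.1 l.2⟩ : C(X, C(K, ℝ)))
  have hnC : ∀ l, Continuous (nC l) := fun l =>
    (ContinuousMap.curry ⟨l.1, hLc l.1 l.2⟩ : C(X, C(K, ℝ))).continuous
  have hnCapp : ∀ l x k, nC l x k = l.1 (x, k) := fun l x k => rfl
  have hsep : ∀ l, ∃ D : Set C(K, ℝ), D.Countable ∧ range (nC l) ⊆ closure D := by
    intro l
    obtain ⟨D, -, hDc, hD⟩ := (hsr (nC l) (hnC l)).exists_countable_dense_subset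
    exact ⟨D, hDc, hD⟩
  choose D hDc hD using hsep
  let Q : Finset C(K, ℝ) → Set K := fun G =>
    (exists_countable_approx (fun (g : C(K, ℝ)) (k : K) => g k) univ G).choose
  have hQc : ∀ G, (Q G).Countable := fun G =>
    (exists_countable_approx (fun (g : C(K, ℝ)) (k : K) => g k) univ G).choose_spec.2.1
  have hQ : ∀ G, ∀ k : K, ∀ ε > 0, ∃ k' ∈ Q G, ∀ g ∈ G, |g k' - g k| < ε := fun G k =>
    (exists_countable_approx (fun (g : C(K, ℝ)) (k : K) => g k) univ G).choose_spec.2.2 k
      (mem_univ k)
  -- the universe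
  let U : Type u := L₀ ⊕ (K ⊕ (C(K, ℝ) ⊕ J))
  let iL : L₀ → U := Sum.inl
  let iK : K → U := fun k => Sum.inr (Sum.inl k)
  let iC : C(K, ℝ) → U := fun g => Sum.inr (Sum.inr (Sum.inl g))
  let iJ : J → U := fun j => Sum.inr (Sum.inr (Sum.inr j))
  have hiL : Function.Injective iL := Sum.inl_injective
  have hiK : Function.Injective iK := fun x y h => Sum.inl_injective (Sum.inr_injective h)
  have hiC : Function.Injective iC := fun x y h =>
    Sum.inl_injective (Sum.inr_injective (Sum.inr_injective h))
  have hiJ : Function.Injective iJ := fun x y h =>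
    Sum.inr_injective (Sum.inr_injective (Sum.inr_injective h))
  let c : Finset U → Set U := fun F =>
    (iK '' Q (F.preimage iC hiC.injOn)) ∪
    (⋃ l ∈ F.preimage iL hiL.injOn, iC '' D l) ∪
    (⋃ k ∈ F.preimage iK hiK.injOn, ⋃ l ∈ F.preimage iL hiL.injOn,
      (fun γ => iJ ⟨k, γ⟩) '' Function.support (e k ⟨slice k l, mem_range_self l⟩))
  have hc : ∀ F, (c F).Countable := by
    intro F
    refine (((hQc _).image _).union ?_).union ?_
    · exact (Finset.countable_toSet _).biUnion fun l _ => (hDc l).image _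
    · exact (Finset.countable_toSet _).biUnion fun k _ =>
        (Finset.countable_toSet _).biUnion fun l _ => (hes k _).image _
  refine corson_criterion fJ hfJ iL hiL iJ hiJ c hc ?_
  intro M hM l hl l' hl' hagree
  -- closure properties of `M`
  have hMD : ∀ n : L₀, iL n ∈ M → ∀ g ∈ D n, iC g ∈ M := by
    intro n hn g hg
    refine hM {iL n} (by simpa using hn) (Or.inl (Or.inr ?_))
    exact mem_biUnion (x := n) (by simp) ⟨g, hg, rfl⟩
  have hMQ : ∀ G : Finset C(K, ℝ), (∀ g ∈ G, iC g ∈ M) → ∀ k ∈ Q G, iK k ∈ M := by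
    intro G hG k hk
    have hpre : (G.image iC).preimage iC hiC.injOn = G := by
      ext g
      simp only [Finset.mem_preimage, Finset.mem_image]
      exact ⟨fun ⟨g', hg', h⟩ => hiC h ▸ hg', fun h => ⟨g, h, rfl⟩⟩
    refine hM (G.image iC) ?_ (Or.inl (Or.inl ?_))
    · intro u hu
      obtain ⟨g, hg, rfl⟩ := Finset.mem_image.1 (Finset.mem_coe.1 hu)
      exact hG g hg
    · rw [hpre]
      exact ⟨k, hk, rfl⟩
  have hMJ : ∀ k : K, iK k ∈ M → ∀ n : L₀, iL n ∈ M → ∀ γ : Γ k,
      fJ ⟨k, γ⟩ n ≠ 0 → iJ ⟨k, γ⟩ ∈ M := by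
    intro k hk n hn γ hγ
    refine hM {iK k, iL n} ?_ (Or.inr ?_)
    · intro u hu
      simp only [Finset.coe_insert, Finset.coe_singleton, mem_insert_iff,
        mem_singleton_iff] at hu
      rcases hu with rfl | rfl
      · exact hk
      · exact hn
    · exact mem_biUnion (x := k) (by simp) (mem_biUnion (x := n) (by simp) ⟨γ, hγ, rfl⟩)
  -- (i) agreement on slices in `M`
  have h1 : ∀ k : K, iK k ∈ M → ∀ x, l.1 (x, k) = l'.1 (x, k) := by
    intro k hk x
    have hz : ∀ γ : Γ k, iJ ⟨k, γ⟩ ∉ M → ∀ m ∈ closure (iL ⁻¹' M), fJ ⟨k, γ⟩ m = 0 := by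
      intro γ hγ m hm
      have : iL ⁻¹' M ⊆ {m | fJ ⟨k, γ⟩ m = 0} := by
        intro n hn
        by_contra hne
        exact hγ (hMJ k hk n hn γ hne)
      exact closure_minimal this (isClosed_eq (hfJ _) continuous_const) hm
    have heq : e k ⟨slice k l, mem_range_self l⟩ = e k ⟨slice k l', mem_range_self l'⟩ := by
      funext γ
      by_cases hγ : iJ ⟨k, γ⟩ ∈ M
      · exact hagree ⟨k, γ⟩ hγ
      · exact (hz γ hγ l hl).trans (hz γ hγ l' hl').symm
    have := congrArg Subtype.val ((he k).injective heq)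
    exact congrFun this x
  -- (ii) constancy on fibres
  have h2 : ∀ m ∈ closure (iL ⁻¹' M), ∀ (x : X) (k k' : K),
      (∀ g : C(K, ℝ), iC g ∈ M → g k = g k') → m.1 (x, k) = m.1 (x, k') := by
    intro m hm x k k' hkk
    have hsub : iL ⁻¹' M ⊆ {m : L₀ | m.1 (x, k) = m.1 (x, k')} := by
      intro n hn
      have h3 : nC n x ∈ closure (D n) := hD n (mem_range_self x)
      have h4 : D n ⊆ {g : C(K, ℝ) | g k = g k'} := fun g hg => hkk g (hMD n hn g hg)
      have h5 : IsClosed {g : C(K, ℝ) | g k = g k'} :=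
        isClosed_eq (continuous_eval_const k) (continuous_eval_const k')
      exact closure_minimal h4 h5 h3
    have hcl : IsClosed {m : L₀ | m.1 (x, k) = m.1 (x, k')} :=
      isClosed_eq ((continuous_apply (x, k)).comp continuous_subtype_val)
        ((continuous_apply (x, k')).comp continuous_subtype_val)
    exact closure_minimal hsub hcl hm
  -- (iii) conclusion
  apply Subtype.ext
  funext ⟨x, k₀⟩
  obtain ⟨y, hy, hyk⟩ := exists_agree (fun (g : C(K, ℝ)) (k : K) => g k)
    (fun g => g.continuous) {g | iC g ∈ M} univ {k | iK k ∈ M} (by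
      intro G hG z _ ε hε
      obtain ⟨k', hk', h⟩ := hQ G z ε hε
      exact ⟨k', hMQ G (fun g hg => hG hg) k' hk', h⟩) k₀ (by simp)
  have h3 : l.1 (x, k₀) = l.1 (x, y) := h2 l hl x k₀ y fun g hg => (hyk g hg).symm
  have h4 : l'.1 (x, k₀) = l'.1 (x, y) := h2 l' hl' x k₀ y fun g hg => (hyk g hg).symm
  have h5 : l.1 (x, y) = l'.1 (x, y) := by
    have hc1 : Continuous fun k => l.1 (x, k) := (hLc l.1 l.2).comp
      (continuous_const.prodMk continuous_id)
    have hc2 : Continuous fun k => l'.1 (x, k) := (hLc l'.1 l'.2).comp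
      (continuous_const.prodMk continuous_id)
    have hsub : {k | iK k ∈ M} ⊆ {k | l.1 (x, k) = l'.1 (x, k)} := fun k hk => h1 k hk x
    exact closure_minimal hsub (isClosed_eq hc1 hc2) hy
  rw [h3, h4, h5]

end Pool.Agent.Helper92.Corson
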