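import Pool.Agent.Helper92.CorsonClos

set_option autoImplicit false

open Set Cardinal Topology

namespace Pool.Agent.Helper92.Corson

universe u

/-- Approximation lemma: if finitely many coordinates of points of `A` can always be
approximated by points of `C`, then every point of `closure A` agrees on all coordinates in `N`
with some point of `closure C`. -/
theorem exists_agree {L I : Type*} [TopologicalSpace L] [CompactSpace L] (f : I → L → ℝ)
    (hf : ∀ i, Continuous (f i)) (N : Set I) (A C : Set L)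
    (h : ∀ G : Finset I, (G : Set I) ⊆ N → ∀ z ∈ A, ∀ ε > 0, ∃ y ∈ C, ∀ i ∈ G,
      |f i y - f i z| < ε) (x : L) (hx : x ∈ closure A) :
    ∃ y ∈ closure C, ∀ i ∈ N, f i y = f i x := by
  classical
  let φ : L → (N → ℝ) := fun y i => f i y
  have hφ : Continuous φ := continuous_pi fun i => hf i
  have hcl : IsClosed (φ '' closure C) := (isClosed_closure.isCompact.image hφ).isClosed
  have hmem : φ x ∈ closure (φ '' C) := by
    rw [mem_closure_iff]
    intro o ho hxo
    obtain ⟨J, u, hu, hJ⟩ := isOpen_pi_iff.1 ho _ hxo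
    -- choose epsilon
    have hex : ∀ i : N, i ∈ J → ∃ ε > 0, Metric.ball (φ x i) ε ⊆ u i := fun i hi =>
      Metric.isOpen_iff.1 (hu i hi).1 _ (hu i hi).2
    choose! ε hε hball using hex
    obtain ⟨δ, hδ, hδε⟩ : ∃ δ > 0, ∀ i ∈ J, δ ≤ ε i := by
      rcases J.eq_empty_or_nonempty with rfl | hne
      · exact ⟨1, one_pos, by simp⟩
      · refine ⟨J.inf' hne ε, ?_, fun i hi => Finset.inf'_le _ hi⟩
        rw [gt_iff_lt, Finset.lt_inf'_iff]
        exact fun i hi => hε i hi
    let V : Set L := ⋂ i ∈ J, {z | |f i z - f i x| < δ / 2}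
    have hV : IsOpen V := isOpen_biInter_finset fun i _ =>
      isOpen_lt ((hf i).sub continuous_const).abs continuous_const
    have hxV : x ∈ V := by
      simp only [V, mem_iInter, mem_ofPred_eq, sub_self, abs_zero]
      exact fun _ _ => half_pos hδ
    obtain ⟨z, hzV, hzA⟩ := mem_closure_iff.1 hx V hV hxV
    obtain ⟨y, hyC, hy⟩ := h (J.map ⟨Subtype.val, Subtype.val_injective⟩)
      (by intro i hi; simp at hi; exact hi.1) z hzA (δ / 2) (half_pos hδ)
    refine ⟨φ y, hJ ?_, ⟨y, hyC, rfl⟩⟩
    intro i hi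
    have hi' : i ∈ J := hi
    refine hball i hi' ?_
    rw [Metric.mem_ball, Real.dist_eq]
    have h1 : |f i z - f i x| < δ / 2 := by
      have := mem_iInter₂.1 hzV i hi'
      exact this
    have h2 : |f i y - f i z| < δ / 2 := hy i (by
      simp only [Finset.mem_map, Function.Embedding.coeFn_mk]
      exact ⟨i, hi', rfl⟩)
    calc |φ y i - φ x i| = |(f i y - f i z) + (f i z - f i x)| := by simp [φ]
      _ ≤ |f i y - f i z| + |f i z - f i x| := abs_add_le _ _
      _ < δ / 2 + δ / 2 := add_lt_add h2 h1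
      _ = δ := by ring
      _ ≤ ε i := hδε i hi'
  have hmem' : φ x ∈ φ '' closure C :=
    (closure_minimal (image_mono subset_closure) hcl) hmem
  obtain ⟨y, hy, hyx⟩ := hmem'
  exact ⟨y, hy, fun i hi => congrFun hyx ⟨i, hi⟩⟩

/-- A countable set approximating all points of `A` with respect to finitely many functions. -/
theorem exists_countable_approx {L I : Type*} (f : I → L → ℝ) (A : Set L) (G : Finset I) :
    ∃ C : Set L, C ⊆ A ∧ C.Countable ∧ ∀ z ∈ A, ∀ ε > 0, ∃ y ∈ C, ∀ i ∈ G,
      |f i y - f i z| < ε := by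
  classical
  let φ : L → (G → ℝ) := fun y i => f i y
  obtain ⟨D, hDA, hDc, hD⟩ := (TopologicalSpace.IsSeparable.of_separableSpace
    (φ '' A)).exists_countable_dense_subset
  have hch : ∀ d : (G → ℝ), d ∈ D → ∃ y ∈ A, φ y = d := fun d hd => hDA hd
  choose g hgA hg using hch
  have := hDc.to_subtype
  refine ⟨range fun d : D => g d.1 d.2, ?_, countable_range _, ?_⟩
  · rintro _ ⟨d, rfl⟩
    exact hgA d.1 d.2
  · intro z hz ε hε
    obtain ⟨d, hdD, hd⟩ := Metric.mem_closure_iff.1 (hD ⟨z, hz, rfl⟩) ε hε
    refine ⟨g d hdD, ⟨⟨d, hdD⟩, rfl⟩, fun i hi => ?_⟩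
    have h1 : dist (φ z ⟨i, hi⟩) (d ⟨i, hi⟩) < ε := (dist_le_pi_dist _ _ _).trans_lt hd
    rw [← hg d hdD, dist_comm, Real.dist_eq] at h1
    exact h1

section Criterion

variable {L I S : Type u} [TopologicalSpace L] [CompactSpace L] (f : I → L → ℝ)
  (hf : ∀ i, Continuous (f i)) (a : L → S) (ha : Function.Injective a)
  (b : I → S) (hb : Function.Injective b)

/-- The separation property of an operator. -/
def Sep (c : Finset S → Set S) : Prop :=
  ∀ M : Set S, IsCl c M → ∀ x ∈ closure (a ⁻¹' M), ∀ y ∈ closure (a ⁻¹' M),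
    (∀ i, b i ∈ M → f i x = f i y) → x = y

/-- The operator obtained by adding approximations of points of `A`. -/
noncomputable def addApprox (A : Set L) (c : Finset S → Set S) (F : Finset S) : Set S :=
  c F ∪ a '' (exists_countable_approx f A (F.preimage b hb.injOn)).choose

omit [TopologicalSpace L] [CompactSpace L] in
theorem addApprox_countable (A : Set L) (c : Finset S → Set S) (hc : ∀ F, (c F).Countable)
    (F : Finset S) : (addApprox f a b hb A c F).Countable :=
  (hc F).union ((exists_countable_approx f A (F.preimage b hb.injOn)).choose_spec.2.1.image a)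

omit [TopologicalSpace L] [CompactSpace L] in
theorem IsCl.of_addApprox {A : Set L} {c : Finset S → Set S} {M : Set S}
    (h : IsCl (addApprox f a b hb A c) M) : IsCl c M := fun F hF =>
  subset_union_left.trans (h F hF)

include hf in
theorem exists_agree_of_isCl {A : Set L} {c : Finset S → Set S} {M : Set S}
    (h : IsCl (addApprox f a b hb A c) M) (x : L) (hx : x ∈ closure A) :
    ∃ y ∈ closure (A ∩ a ⁻¹' M), ∀ i, b i ∈ M → f i y = f i x := by
  classical
  refine exists_agree f hf {i | b i ∈ M} A _ ?_ x hx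
  intro G hG z hz ε hε
  have hF : ((G.image b : Finset S) : Set S) ⊆ M := by
    intro s hs
    obtain ⟨i, hi, rfl⟩ := Finset.mem_image.1 (Finset.mem_coe.1 hs)
    exact hG hi
  obtain ⟨hCA, -, hC⟩ := (exists_countable_approx f A ((G.image b).preimage b
    hb.injOn)).choose_spec
  obtain ⟨y, hy, hyG⟩ := hC z hz ε hε
  refine ⟨y, ⟨hCA hy, h (G.image b) hF (Or.inr ⟨y, hy, rfl⟩)⟩, fun i hi => hyG i ?_⟩
  rw [Finset.mem_preimage]
  exact Finset.mem_image_of_mem b hi

include hf ha hb in
/-- Countable tightness. -/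
theorem tight (c : Finset S → Set S) (hc : ∀ F, (c F).Countable) (hsep : Sep f a b c)
    (A : Set L) (x : L) (hx : x ∈ closure A) : ∃ C ⊆ A, C.Countable ∧ x ∈ closure C := by
  set c' := addApprox f a b hb A c with hc'
  set M := clos c' {a x} with hM
  have hMc : M.Countable := countable_clos c' (addApprox_countable f a b hb A c hc)
    (countable_singleton _)
  have hMcl : IsCl c' M := isCl_clos c' _
  have hax : a x ∈ M := subset_clos c' _ rfl
  obtain ⟨y, hy, hyx⟩ := exists_agree_of_isCl f hf a b hb hMcl x hx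
  refine ⟨A ∩ a ⁻¹' M, inter_subset_left,
    (hMc.preimage_of_injOn ha.injOn).mono inter_subset_right, ?_⟩
  have := hsep M (IsCl.of_addApprox f a b hb hMcl) y (closure_mono inter_subset_right hy) x
    (subset_closure hax) hyx
  rwa [← this]

end Criterion

end Pool.Agent.Helper92.Corson
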