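import Pool.Agent.Helper92.CorsonCrit

set_option autoImplicit false

open Set Cardinal Topology

namespace Pool.Agent.Helper92.Corson

universe u

section Main

variable {L I S : Type u} [TopologicalSpace L] [CompactSpace L] [T2Space L] (f : I → L → ℝ)
  (hf : ∀ i, Continuous (f i)) (a : L → S)
  (b : I → S) (hb : Function.Injective b) (c : Finset S → Set S)
  (hR : ∀ M, IsCl c M → ∀ x : L, ∃ y ∈ closure (a ⁻¹' M), ∀ i, b i ∈ M → f i y = f i x)
  (hsep : Sep f a b c)

/-- The retraction of `L` onto `closure (a ⁻¹' M)`. -/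
noncomputable def R (M : Set S) (hM : IsCl c M) (x : L) : L := (hR M hM x).choose

theorem R_mem (M : Set S) (hM : IsCl c M) (x : L) :
    R f a b c hR M hM x ∈ closure (a ⁻¹' M) := (hR M hM x).choose_spec.1

theorem f_R (M : Set S) (hM : IsCl c M) (x : L) (i : I) (hi : b i ∈ M) :
    f i (R f a b c hR M hM x) = f i x := (hR M hM x).choose_spec.2 i hi

include hsep in
theorem R_fix (M : Set S) (hM : IsCl c M) (x : L) (hx : x ∈ closure (a ⁻¹' M)) :
    R f a b c hR M hM x = x :=
  hsep M hM _ (R_mem f a b c hR M hM x) _ hx (fun i hi => f_R f a b c hR M hM x i hi)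

include hsep in
theorem R_eq_of_agree (M : Set S) (hM : IsCl c M) (x y : L)
    (h : ∀ i, b i ∈ M → f i x = f i y) : R f a b c hR M hM x = R f a b c hR M hM y := by
  refine hsep M hM _ (R_mem f a b c hR M hM x) _ (R_mem f a b c hR M hM y) (fun i hi => ?_)
  rw [f_R f a b c hR M hM x i hi, f_R f a b c hR M hM y i hi, h i hi]

include hsep in
theorem R_comp (N M : Set S) (hN : IsCl c N) (hM : IsCl c M) (hNM : N ⊆ M) (x : L) :
    R f a b c hR N hN (R f a b c hR M hM x) = R f a b c hR N hN x :=
  R_eq_of_agree f a b c hR hsep N hN _ _ (fun i hi => f_R f a b c hR M hM x i (hNM hi))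

include hsep hf in
theorem continuous_R (M : Set S) (hM : IsCl c M) : Continuous (R f a b c hR M hM) := by
  have : CompactSpace (closure (a ⁻¹' M)) := isCompact_iff_compactSpace.1
    isClosed_closure.isCompact
  let ψ : closure (a ⁻¹' M) → ({i // b i ∈ M} → ℝ) := fun y i => f i y
  have hψ : Continuous ψ := continuous_pi fun i => (hf i).comp continuous_subtype_val
  have hψi : Function.Injective ψ := fun x y hxy =>
    Subtype.ext (hsep M hM _ x.2 _ y.2 fun i hi => congrFun hxy ⟨i, hi⟩)
  have hemb : IsClosedEmbedding ψ := hψ.isClosedEmbedding hψi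
  let R' : L → closure (a ⁻¹' M) := fun x => ⟨_, R_mem f a b c hR M hM x⟩
  have hR' : Continuous R' := by
    rw [hemb.isInducing.continuous_iff]
    have : ψ ∘ R' = fun (x : L) (i : {i // b i ∈ M}) => f i.1 x := by
      funext x i
      exact f_R f a b c hR M hM x i i.2
    rw [this]
    exact continuous_pi fun i => hf i
  exact continuous_subtype_val.comp hR'

/-- The conclusion, relative to the closed set `M`. -/
def Good (M : Set S) : Prop :=
  ∃ (Γ : Type u) (e : L → Γ → ℝ), (∀ γ, Continuous fun x => e x γ) ∧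
    (∀ x, (Function.support (e x)).Countable) ∧
    ∀ x y, e x = e y → ∀ i, b i ∈ M → f i x = f i y

include hf hb in
omit [CompactSpace L] [T2Space L] in
theorem good_of_countable (M : Set S) (hM : M.Countable) : Good f b M := by
  have : Countable {i // b i ∈ M} := (hM.preimage_of_injOn hb.injOn).to_subtype
  exact ⟨{i // b i ∈ M}, fun x i => f i x, fun γ => hf _, fun x => to_countable _,
    fun x y hxy i hi => congrFun hxy ⟨i, hi⟩⟩

variable (htight : ∀ (A : Set L) (x : L), x ∈ closure A → ∃ C ⊆ A, C.Countable ∧ x ∈ closure C)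
  (hc : ∀ F, (c F).Countable)

include hf hsep htight hc hR in
theorem good_step (M : Set S) (hM : IsCl c M) (hcard : ℵ₀ < #M)
    (ih : ∀ N : Set S, IsCl c N → #N < #M → Good f b N) : Good f b M := by
  classical
  obtain ⟨r, wo, hr⟩ := Cardinal.exists_ord_eq M
  -- initial segments
  let lo : M → Set S := fun s => Subtype.val '' {t : M | r t s}
  let hi : M → Set S := fun s => insert s.1 (lo s)
  have hloM : ∀ s, lo s ⊆ M := by
    rintro s _ ⟨t, -, rfl⟩
    exact t.2
  have hhiM : ∀ s, hi s ⊆ M := fun s => insert_subset s.2 (hloM s)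
  have hlohi : ∀ s, lo s ⊆ hi s := fun s => subset_insert _ _
  have hhilo : ∀ t s, r t s → hi t ⊆ lo s := by
    intro t s hts
    refine insert_subset ⟨t, hts, rfl⟩ ?_
    rintro _ ⟨v, hv, rfl⟩
    exact ⟨v, _root_.trans hv hts, rfl⟩
  let N : M → Set S := fun s => clos c (lo s)
  let P : M → Set S := fun s => clos c (hi s)
  have hN : ∀ s, IsCl c (N s) := fun s => isCl_clos c _
  have hP : ∀ s, IsCl c (P s) := fun s => isCl_clos c _
  have hNP : ∀ s, N s ⊆ P s := fun s => clos_mono c (hlohi s)
  have hPN : ∀ t s, r t s → P t ⊆ N s := fun t s h => clos_mono c (hhilo t s h)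
  have hPM : ∀ s, P s ⊆ M := fun s => clos_subset c hM (hhiM s)
  have hNM : ∀ s, N s ⊆ M := fun s => (hNP s).trans (hPM s)
  let Z : Set S := clos c ∅
  have hZ : IsCl c Z := isCl_clos c _
  have hZN : ∀ s, Z ⊆ N s := fun s => clos_mono c (empty_subset _)
  have hlocard : ∀ s, #(lo s) < #M := by
    intro s
    refine (Cardinal.mk_image_le).trans_lt ?_
    have := Cardinal.card_typein_lt (r := r) s hr
    rwa [Ordinal.card_typein] at this
  have hPcard : ∀ s, #(P s) < #M := by
    intro s
    have h1 : #(hi s) < #M := by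
      refine (Cardinal.mk_insert_le).trans_lt ?_
      exact Cardinal.add_lt_of_lt hcard.le (hlocard s) (Cardinal.one_lt_aleph0.trans hcard)
    have h2 := mk_clos_le c hc (hi s) (max ℵ₀ #(hi s)) (le_max_left _ _) (le_max_right _ _)
    exact h2.trans_lt (max_lt hcard h1)
  -- finitary character
  have hfin : ∀ s, N s ⊆ Z ∪ ⋃ t ∈ {t : M | r t s}, P t := by
    intro s
    let C : Set (Set S) := insert ∅ (hi '' {t : M | r t s})
    have hsub : lo s ⊆ ⋃₀ C := by
      rintro _ ⟨t, ht, rfl⟩
      exact ⟨hi t, Or.inr ⟨t, ht, rfl⟩, mem_insert _ _⟩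
    have hd : DirectedOn (· ⊆ ·) C := by
      rintro A (rfl | ⟨t, ht, rfl⟩) B (rfl | ⟨v, hv, rfl⟩)
      · exact ⟨∅, Or.inl rfl, Subset.rfl, Subset.rfl⟩
      · exact ⟨hi v, Or.inr ⟨v, hv, rfl⟩, empty_subset _, Subset.rfl⟩
      · exact ⟨hi t, Or.inr ⟨t, ht, rfl⟩, Subset.rfl, empty_subset _⟩
      · rcases trichotomous_of r t v with h | h | h
        · exact ⟨hi v, Or.inr ⟨v, hv, rfl⟩, (hhilo t v h).trans (hlohi v), Subset.rfl⟩
        · subst h
          exact ⟨hi t, Or.inr ⟨t, ht, rfl⟩, Subset.rfl, Subset.rfl⟩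
        · exact ⟨hi t, Or.inr ⟨t, ht, rfl⟩, Subset.rfl, (hhilo v t h).trans (hlohi t)⟩
    refine (clos_mono c hsub).trans ((clos_sUnion_subset c ⟨∅, Or.inl rfl⟩ hd).trans ?_)
    rintro x hx
    obtain ⟨A, hA, hxA⟩ := mem_iUnion₂.1 hx
    rcases hA with rfl | ⟨t, ht, rfl⟩
    · exact Or.inl hxA
    · exact Or.inr (mem_biUnion (x := t) ht hxA)
  -- the set of jumps
  let ρ : M → L → L := fun s => R f a b c hR (N s) (hN s)
  let σ : M → L → L := fun s => R f a b c hR (P s) (hP s)
  have hρc : ∀ s, Continuous (ρ s) := fun s => continuous_R f hf a b c hR hsep _ _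
  have hσc : ∀ s, Continuous (σ s) := fun s => continuous_R f hf a b c hR hsep _ _
  let T : L → Set M := fun x => {s | ρ s x ≠ σ s x}
  have hTclos : ∀ (C : Set L) (x : L), C.Countable → x ∈ closure C →
      (∀ y ∈ C, (T y).Countable) → (T x).Countable := by
    intro C x hC hx hT
    refine (hC.biUnion hT).mono ?_
    intro s hs
    by_contra hcon
    apply hs
    have h1 : C ⊆ {y | ρ s y = σ s y} := by
      intro y hy
      by_contra hne
      exact hcon (mem_biUnion hy hne)
    exact closure_minimal h1 (isClosed_eq (hρc s) (hσc s)) hx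
  have hTZ : ∀ x ∈ closure (a ⁻¹' Z), T x = ∅ := by
    intro x hx
    ext s
    simp only [T, mem_ofPred_eq, mem_empty_iff_false, iff_false, not_not]
    have h1 : ρ s x = x := R_fix f a b c hR hsep _ _ x
      (closure_mono (preimage_mono (hZN s)) hx)
    have h2 : σ s x = x := R_fix f a b c hR hsep _ _ x
      (closure_mono (preimage_mono ((hZN s).trans (hNP s))) hx)
    rw [h1, h2]
  have hTP : ∀ s : M, ∀ x ∈ closure (a ⁻¹' (P s)), (T x).Countable := by
    intro s
    induction s using (IsWellFounded.wf (r := r)).induction with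
    | _ s ihs =>
      intro x hx
      -- points of the closure of `N s`
      have hTN : ∀ y ∈ closure (a ⁻¹' (N s)), (T y).Countable := by
        intro y hy
        obtain ⟨C, hCA, hC, hyC⟩ := htight _ y hy
        refine hTclos C y hC hyC fun z hz => ?_
        rcases hfin s (hCA hz) with h | h
        · rw [hTZ z (subset_closure h)]
          exact countable_empty
        · obtain ⟨t, ht, hzt⟩ := mem_iUnion₂.1 h
          exact ihs t ht z (subset_closure hzt)
      have hy := hTN (ρ s x) (R_mem f a b c hR _ _ x)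
      refine (hy.union (countable_singleton s)).mono ?_
      intro t ht
      rcases trichotomous_of r t s with h | h | h
      · left
        have h1 : ρ t (ρ s x) = ρ t x := R_comp f a b c hR hsep _ _ _ _
          ((hNP t).trans (hPN t s h)) x
        have h2 : σ t (ρ s x) = σ t x := R_comp f a b c hR hsep _ _ _ _
          (hPN t s h) x
        show ρ t (ρ s x) ≠ σ t (ρ s x)
        rw [h1, h2]
        exact ht
      · right
        exact h
      · exfalso
        apply ht
        have h1 : ρ t x = x := R_fix f a b c hR hsep _ _ x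
          (closure_mono (preimage_mono (hPN s t h)) hx)
        have h2 : σ t x = x := R_fix f a b c hR hsep _ _ x
          (closure_mono (preimage_mono ((hPN s t h).trans (hNP t))) hx)
        rw [h1, h2]
  have hT : ∀ x, (T x).Countable := by
    intro x
    have h0 : (T (R f a b c hR M hM x)).Countable := by
      obtain ⟨C, hCA, hC, hyC⟩ := htight _ _ (R_mem f a b c hR M hM x)
      refine hTclos C _ hC hyC fun z hz => ?_
      exact hTP ⟨a z, hCA hz⟩ z (subset_closure (subset_clos c _ (mem_insert _ _)))
    refine h0.mono ?_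
    intro t ht
    have h1 : ρ t (R f a b c hR M hM x) = ρ t x := R_comp f a b c hR hsep _ _ _ _ (hNM t) x
    have h2 : σ t (R f a b c hR M hM x) = σ t x := R_comp f a b c hR hsep _ _ _ _ (hPM t) x
    show ρ t (R f a b c hR M hM x) ≠ σ t (R f a b c hR M hM x)
    rw [h1, h2]
    exact ht
  -- the embeddings
  have hZcard : #Z < #M := by
    have := mk_clos_le c hc ∅ ℵ₀ le_rfl (by simp)
    exact this.trans_lt hcard
  obtain ⟨Γ₀, e₀, he₀c, he₀s, he₀⟩ := ih Z hZ hZcard
  choose Γ e hec hes he using fun s => ih (P s) (hP s) (hPcard s)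
  refine ⟨Γ₀ ⊕ (Σ s : M, Γ s), fun x γ => Sum.elim (e₀ x)
    (fun g => e g.1 (σ g.1 x) g.2 - e g.1 (ρ g.1 x) g.2) γ, ?_, ?_, ?_⟩
  · rintro (g | ⟨s, g⟩)
    · exact he₀c g
    · exact ((hec s g).comp (hσc s)).sub ((hec s g).comp (hρc s))
  · intro x
    have hsub : Function.support (fun γ => Sum.elim (e₀ x)
        (fun g : (Σ s : M, Γ s) => e g.1 (σ g.1 x) g.2 - e g.1 (ρ g.1 x) g.2) γ) ⊆
        (Sum.inl '' Function.support (e₀ x)) ∪ ⋃ s ∈ T x, (fun g => Sum.inr ⟨s, g⟩) ''
          (Function.support (e s (σ s x)) ∪ Function.support (e s (ρ s x))) := by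
      rintro (g | ⟨s, g⟩) hg
      · exact Or.inl ⟨g, hg, rfl⟩
      · right
        have hg' : e s (σ s x) g - e s (ρ s x) g ≠ 0 := hg
        have hs : s ∈ T x := by
          intro heq
          apply hg'
          rw [heq, sub_self]
        refine mem_biUnion hs ⟨g, ?_, rfl⟩
        by_contra hcon
        simp only [mem_union, Function.mem_support, not_or, not_not] at hcon
        apply hg'
        rw [hcon.1, hcon.2, sub_self]
    refine Countable.mono hsub (((he₀s x).image _).union ((hT x).biUnion fun s _ => ?_))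
    exact ((hes s _).union (hes s _)).image _
  · intro x y hxy
    have hxy0 : e₀ x = e₀ y := by
      funext g
      exact congrFun hxy (Sum.inl g)
    have hxys : ∀ s g, e s (σ s x) g - e s (ρ s x) g = e s (σ s y) g - e s (ρ s y) g :=
      fun s g => congrFun hxy (Sum.inr ⟨s, g⟩)
    have hkey : ∀ s : M, ∀ i, b i ∈ P s → f i x = f i y := by
      intro s
      induction s using (IsWellFounded.wf (r := r)).induction with
      | _ s ihs =>
        have hNs : ∀ i, b i ∈ N s → f i x = f i y := by
          intro i hi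
          rcases hfin s hi with h | h
          · exact he₀ x y hxy0 i h
          · obtain ⟨t, ht, hit⟩ := mem_iUnion₂.1 h
            exact ihs t ht i hit
        have h1 : ρ s x = ρ s y := R_eq_of_agree f a b c hR hsep _ _ x y hNs
        have h2 : e s (σ s x) = e s (σ s y) := by
          funext g
          have := hxys s g
          rw [h1] at this
          linarith
        intro i hi
        have h3 := he s _ _ h2 i hi
        rwa [f_R f a b c hR _ _ _ i hi, f_R f a b c hR _ _ _ i hi] at h3
    intro i hi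
    exact hkey ⟨b i, hi⟩ i (subset_clos c _ (mem_insert _ _))

include hf hsep htight hc hR hb in
theorem good_of_isCl (M : Set S) (hM : IsCl c M) : Good f b M := by
  have key : ∀ κ : Cardinal.{u}, ∀ M : Set S, #M = κ → IsCl c M → Good f b M := by
    intro κ
    induction κ using Cardinal.lt_wf.induction with
    | _ κ ih =>
      intro M hMκ hM
      rcases le_or_gt #M ℵ₀ with h | h
      · exact good_of_countable f hf b hb M ((Cardinal.le_aleph0_iff_set_countable).1 h)
      · exact good_step f hf a b c hR hsep htight hc M hM h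
          (fun N hN hNM => ih #N (hMκ ▸ hNM) N rfl hN)
  exact key _ M rfl hM

end Main

/-- **Criterion.** -/
theorem corson_criterion {L I S : Type u} [TopologicalSpace L] [CompactSpace L] [T2Space L]
    (f : I → L → ℝ) (hf : ∀ i, Continuous (f i)) (a : L → S) (ha : Function.Injective a)
    (b : I → S) (hb : Function.Injective b) (c : Finset S → Set S)
    (hc : ∀ F, (c F).Countable) (hsep : Sep f a b c) :
    ∃ (Γ : Type u) (e : L → Γ → ℝ), IsEmbedding e ∧
      ∀ x, (Function.support (e x)).Countable := by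
  have htight := tight f hf a ha b hb c hc hsep
  set c' := addApprox f a b hb univ c with hc'
  have hc'c : ∀ F, (c' F).Countable := addApprox_countable f a b hb univ c hc
  have hsep' : Sep f a b c' := fun M hM => hsep M (IsCl.of_addApprox f a b hb hM)
  have hR : ∀ M, IsCl c' M → ∀ x : L, ∃ y ∈ closure (a ⁻¹' M),
      ∀ i, b i ∈ M → f i y = f i x := by
    intro M hM x
    obtain ⟨y, hy, h⟩ := exists_agree_of_isCl f hf a b hb hM x (by simp)
    exact ⟨y, by simpa using hy, h⟩
  have huniv : IsCl c' (univ : Set S) := fun F _ => subset_univ _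
  obtain ⟨Γ, e, hec, hes, he⟩ := good_of_isCl f hf a b hb c' hR hsep' htight hc'c univ huniv
  refine ⟨Γ, e, ?_, hes⟩
  have hcont : Continuous e := continuous_pi hec
  have hinj : Function.Injective e := by
    intro x y hxy
    exact hsep' univ huniv x (by simp) y (by simp) (fun i hi => he x y hxy i hi)
  exact (hcont.isClosedEmbedding hinj).isEmbedding

end Pool.Agent.Helper92.Corson
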