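import Mathlib

/-!
Algebra for two-step nilpotent groups: the abelian group attached to a local bilinear real lift of
the commutator form composed with a character of the centre.
-/

set_option autoImplicit false

noncomputable section

namespace Pool.Agent.Helper92.NilAlg

open scoped commutatorElement

universe u

/-- Twisted product. -/
@[ext]
structure TP (G : Type u) {F : Type u} [AddCommGroup F] (β : F →+ F →+ ℝ) where
  g : G
  r : F
  t : Circle

namespace TP

variable {G : Type u} [Group G] {F : Type u} [AddCommGroup F] (β : F →+ F →+ ℝ)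

instance : Mul (TP G β) :=
  ⟨fun x y => ⟨x.g * y.g, x.r + y.r, x.t * y.t * Circle.exp (β x.r y.r / 2)⟩⟩

instance : One (TP G β) := ⟨⟨1, 0, 1⟩⟩

instance : Inv (TP G β) := ⟨fun x => ⟨x.g⁻¹, -x.r, x.t⁻¹ * Circle.exp (β x.r x.r / 2)⟩⟩

@[simp] theorem mul_g (x y : TP G β) : (x * y).g = x.g * y.g := rfl
@[simp] theorem mul_r (x y : TP G β) : (x * y).r = x.r + y.r := rfl
@[simp] theorem mul_t (x y : TP G β) : (x * y).t = x.t * y.t * Circle.exp (β x.r y.r / 2) := rfl
@[simp] theorem one_g : (1 : TP G β).g = 1 := rfl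
@[simp] theorem one_r : (1 : TP G β).r = 0 := rfl
@[simp] theorem one_t : (1 : TP G β).t = 1 := rfl
@[simp] theorem inv_g (x : TP G β) : (x⁻¹).g = x.g⁻¹ := rfl
@[simp] theorem inv_r (x : TP G β) : (x⁻¹).r = -x.r := rfl
@[simp] theorem inv_t (x : TP G β) : (x⁻¹).t = x.t⁻¹ * Circle.exp (β x.r x.r / 2) := rfl

instance : Group (TP G β) := Group.ofLeftAxioms
  (by
    intro x y z
    refine TP.ext (mul_assoc _ _ _) (add_assoc _ _ _) ?_
    simp only [mul_t, mul_r, map_add, AddMonoidHom.add_apply, add_div, Circle.exp_add]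
    rw [show x.t * y.t * Circle.exp (β x.r y.r / 2) * z.t *
        (Circle.exp (β x.r z.r / 2) * Circle.exp (β y.r z.r / 2)) =
        x.t * (y.t * z.t * Circle.exp (β y.r z.r / 2)) *
        (Circle.exp (β x.r y.r / 2) * Circle.exp (β x.r z.r / 2)) by
      simp only [mul_comm, mul_left_comm, mul_assoc]])
  (by
    intro x
    refine TP.ext (one_mul _) (zero_add _) ?_
    simp)
  (by
    intro x
    refine TP.ext (inv_mul_cancel _) (neg_add_cancel _) ?_
    simp only [mul_t, inv_t, inv_r, map_neg, AddMonoidHom.neg_apply, neg_div, Circle.exp_neg,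
      one_t]
    rw [show x.t⁻¹ * Circle.exp (β x.r x.r / 2) * x.t * (Circle.exp (β x.r x.r / 2))⁻¹ =
      (x.t⁻¹ * x.t) * (Circle.exp (β x.r x.r / 2) * (Circle.exp (β x.r x.r / 2))⁻¹) by
      simp only [mul_comm, mul_assoc]]
    simp)

end TP

section Main

variable {G : Type u} [Group G] (h2 : ∀ g h : G, ⁅g, h⁆ ∈ Subgroup.center G)

/-- the commutator as an element of the centre -/
def cm (g h : G) : Subgroup.center G := ⟨⁅g, h⁆, h2 g h⟩

theorem mul_eq_cm_mul (g h : G) : g * h = (cm h2 g h : G) * (h * g) := by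
  change g * h = ⁅g, h⁆ * (h * g)
  rw [commutatorElement_def]
  group

theorem center_comm (z : Subgroup.center G) (g : G) : g * (z : G) = (z : G) * g :=
  (Subgroup.mem_center_iff.mp z.2 g)

theorem cm_mul_left (g g' h : G) : cm h2 (g * g') h = cm h2 g h * cm h2 g' h := by
  apply Subtype.ext
  change ⁅g * g', h⁆ = ⁅g, h⁆ * ⁅g', h⁆
  have h1 : ⁅g * g', h⁆ = g * ⁅g', h⁆ * g⁻¹ * ⁅g, h⁆ := by
    simp only [commutatorElement_def]
    group
  rw [h1, Subgroup.mem_center_iff.mp (h2 g' h) g, mul_assoc ⁅g', h⁆, mul_inv_cancel, mul_one]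
  exact (Subgroup.mem_center_iff.mp (h2 g h) _)

theorem cm_inv (g h : G) : (cm h2 g h)⁻¹ = cm h2 h g := by
  apply Subtype.ext
  change (⁅g, h⁆)⁻¹ = ⁅h, g⁆
  exact commutatorElement_inv g h

theorem cm_mul_right (g h h' : G) : cm h2 g (h * h') = cm h2 g h * cm h2 g h' := by
  rw [← cm_inv, cm_mul_left, mul_inv_rev, cm_inv, cm_inv, mul_comm']

theorem cm_one_left (h : G) : cm h2 1 h = 1 := by
  apply Subtype.ext
  change ⁅(1 : G), h⁆ = 1
  simp

theorem cm_center_left (z : Subgroup.center G) (h : G) : cm h2 (z : G) h = 1 := by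
  apply Subtype.ext
  change ⁅(z : G), h⁆ = 1
  rw [commutatorElement_eq_one_iff_mul_comm]
  exact (center_comm z h).symm

theorem cm_center_right (z : Subgroup.center G) (h : G) : cm h2 h (z : G) = 1 := by
  rw [← cm_inv, cm_center_left, inv_one]

end Main

section Build

variable {G : Type u} [Group G] (h2 : ∀ g h : G, ⁅g, h⁆ ∈ Subgroup.center G)
  (χ : Subgroup.center G →* Circle) (W : Set G)

/-- The real lift of the commutator pairing. -/
def lft (g h : G) : ℝ := Complex.arg (χ (cm h2 g h) : ℂ)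

theorem exp_lft (g h : G) : Circle.exp (lft h2 χ g h) = χ (cm h2 g h) := Circle.exp_arg _

theorem lft_center_left (z : Subgroup.center G) (h : G) : lft h2 χ (z : G) h = 0 := by
  simp [lft, cm_center_left]

theorem lft_center_right (z : Subgroup.center G) (h : G) : lft h2 χ h (z : G) = 0 := by
  simp [lft, cm_center_right]

theorem lft_mul_center_left (z : Subgroup.center G) (g h : G) :
    lft h2 χ ((z : G) * g) h = lft h2 χ g h := by
  simp [lft, cm_mul_left, cm_center_left]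

/-- The bilinear form on the free abelian group. -/
def β : FreeAbelianGroup W →+ FreeAbelianGroup W →+ ℝ :=
  FreeAbelianGroup.lift fun x : W => FreeAbelianGroup.lift fun y : W => lft h2 χ x.1 y.1

theorem β_of (x y : W) : β h2 χ W (FreeAbelianGroup.of x) (FreeAbelianGroup.of y) =
    lft h2 χ x.1 y.1 := by
  simp [β]

theorem lft_neg (hW : ∀ x ∈ W, ∀ y ∈ W, |lft h2 χ x y| < Real.pi / 4) {x y : G} (hx : x ∈ W)
    (hy : y ∈ W) : lft h2 χ y x = - lft h2 χ x y := by
  have h1 : χ (cm h2 y x) = (χ (cm h2 x y))⁻¹ := by rw [← map_inv, cm_inv]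
  have h3 := hW x hx y hy
  rw [abs_lt] at h3
  rw [lft, h1, Circle.coe_inv, Complex.arg_inv, if_neg]
  · rfl
  · intro h
    have h4 : lft h2 χ x y = Real.pi := h
    have := Real.pi_pos
    linarith

theorem lft_mul (hW : ∀ x ∈ W, ∀ y ∈ W, |lft h2 χ x y| < Real.pi / 4) {x x' y : G} (hx : x ∈ W)
    (hx' : x' ∈ W) (hy : y ∈ W) : lft h2 χ (x * x') y = lft h2 χ x y + lft h2 χ x' y := by
  have h3 := hW x hx y hy
  have h4 := hW x' hx' y hy
  rw [abs_lt] at h3 h4
  have hpi := Real.pi_pos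
  rw [lft, cm_mul_left, map_mul, Circle.coe_mul]
  refine Complex.arg_mul (Circle.coe_ne_zero _) (Circle.coe_ne_zero _) ?_
  change lft h2 χ x y + lft h2 χ x' y ∈ _
  constructor <;> linarith

theorem β_antisymm (hW : ∀ x ∈ W, ∀ y ∈ W, |lft h2 χ x y| < Real.pi / 4)
    (r s : FreeAbelianGroup W) : β h2 χ W s r = - β h2 χ W r s := by
  have h : AddMonoidHom.flip (β h2 χ W) = - β h2 χ W := by
    ext x y
    simp only [AddMonoidHom.flip_apply, AddMonoidHom.neg_apply, β_of]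
    exact lft_neg h2 χ W hW x.2 y.2
  have := congrArg (fun f : FreeAbelianGroup W →+ FreeAbelianGroup W →+ ℝ => f r s) h
  simpa using this

/-- The subgroup generated by the local copy of `W` and by the circle. -/
def HH : Subgroup (TP G (β h2 χ W)) :=
  Subgroup.closure {x | (∃ w : W, x.g = w ∧ x.r = FreeAbelianGroup.of w) ∨ (x.g = 1 ∧ x.r = 0)}

theorem HH_comm (x y : TP G (β h2 χ W)) (hx : x ∈ HH h2 χ W) (hy : y ∈ HH h2 χ W) :
    χ (cm h2 x.g y.g) = Circle.exp (β h2 χ W x.r y.r) := by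
  -- both sides are bimultiplicative
  have key : ∀ a ∈ {x : TP G (β h2 χ W) | (∃ w : W, x.g = w ∧ x.r = FreeAbelianGroup.of w) ∨
      (x.g = 1 ∧ x.r = 0)}, ∀ y ∈ HH h2 χ W,
      χ (cm h2 a.g y.g) = Circle.exp (β h2 χ W a.r y.r) := by
    intro a ha y hy
    induction hy using Subgroup.closure_induction with
    | mem b hb =>
      rcases ha with ⟨w, hw1, hw2⟩ | ⟨ha1, ha2⟩
      · rcases hb with ⟨v, hv1, hv2⟩ | ⟨hb1, hb2⟩
        · rw [hw1, hw2, hv1, hv2, β_of, exp_lft]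
        · rw [hb1, hb2, map_zero, Circle.exp_zero]
          have : cm h2 a.g 1 = 1 := cm_center_right h2 1 a.g
          rw [this, map_one]
      · rw [ha1, ha2, map_zero, AddMonoidHom.zero_apply, Circle.exp_zero, cm_one_left, map_one]
    | one =>
      rw [TP.one_g, TP.one_r, map_zero, Circle.exp_zero]
      have : cm h2 a.g 1 = 1 := cm_center_right h2 1 a.g
      rw [this, map_one]
    | mul x y hx hy ihx ihy =>
      rw [TP.mul_g, TP.mul_r, cm_mul_right, map_mul, ihx, ihy, map_add, Circle.exp_add]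
    | inv x hx ih =>
      rw [TP.inv_g, TP.inv_r, map_neg, Circle.exp_neg, ← ih, ← map_inv]
      congr 1
      rw [eq_inv_iff_mul_eq_one, ← cm_mul_right, inv_mul_cancel]
      exact cm_center_right h2 1 a.g
  induction hx using Subgroup.closure_induction with
  | mem a ha => exact key a ha y hy
  | one => rw [TP.one_g, TP.one_r, map_zero, AddMonoidHom.zero_apply, Circle.exp_zero,
      cm_one_left, map_one]
  | mul a b ha hb iha ihb =>
    rw [TP.mul_g, TP.mul_r, cm_mul_left, map_mul, iha, ihb, map_add, AddMonoidHom.add_apply,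
      Circle.exp_add]
  | inv a ha ih =>
    rw [TP.inv_g, TP.inv_r, map_neg, AddMonoidHom.neg_apply, Circle.exp_neg, ← ih, ← map_inv]
    congr 1
    rw [eq_inv_iff_mul_eq_one, ← cm_mul_left, inv_mul_cancel, cm_one_left]

/-- The kernel. -/
def NN : Subgroup (HH h2 χ W) where
  carrier := {x | ∃ z : Subgroup.center G, x.1.g = z ∧ x.1.t = χ z ∧
    ∀ s, β h2 χ W x.1.r s = 0}
  one_mem' := ⟨1, rfl, by simp, fun s => by simp⟩
  mul_mem' := by
    rintro x y ⟨z, hz1, hz2, hz3⟩ ⟨z', hz1', hz2', hz3'⟩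
    refine ⟨z * z', ?_, ?_, ?_⟩
    · change x.1.g * y.1.g = _
      rw [hz1, hz1']
      rfl
    · change x.1.t * y.1.t * Circle.exp (β h2 χ W x.1.r y.1.r / 2) = _
      rw [hz3, hz2, hz2', map_mul]
      simp
    · intro s
      change β h2 χ W (x.1.r + y.1.r) s = 0
      rw [map_add, AddMonoidHom.add_apply, hz3, hz3', add_zero]
  inv_mem' := by
    rintro x ⟨z, hz1, hz2, hz3⟩
    refine ⟨z⁻¹, ?_, ?_, ?_⟩
    · change (x.1.g)⁻¹ = _
      rw [hz1]
      rfl
    · change (x.1.t)⁻¹ * Circle.exp (β h2 χ W x.1.r x.1.r / 2) = _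
      rw [hz3, hz2, map_inv]
      simp
    · intro s
      change β h2 χ W (-x.1.r) s = 0
      rw [map_neg, AddMonoidHom.neg_apply, hz3, neg_zero]

theorem NN_central (hW : ∀ x ∈ W, ∀ y ∈ W, |lft h2 χ x y| < Real.pi / 4)
    (n : HH h2 χ W) (hn : n ∈ NN h2 χ W) (x : HH h2 χ W) : n * x = x * n := by
  obtain ⟨z, hz1, hz2, hz3⟩ := hn
  apply Subtype.ext
  refine TP.ext ?_ (add_comm _ _) ?_
  · change n.1.g * x.1.g = x.1.g * n.1.g
    rw [hz1]
    exact (center_comm z _).symm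
  · change n.1.t * x.1.t * Circle.exp (β h2 χ W n.1.r x.1.r / 2) =
      x.1.t * n.1.t * Circle.exp (β h2 χ W x.1.r n.1.r / 2)
    rw [β_antisymm h2 χ W hW n.1.r x.1.r, hz3, neg_zero, mul_comm n.1.t]

theorem NN_normal (hW : ∀ x ∈ W, ∀ y ∈ W, |lft h2 χ x y| < Real.pi / 4) :
    (NN h2 χ W).Normal := by
  constructor
  intro n hn x
  rw [← NN_central h2 χ W hW n hn x, mul_assoc, mul_inv_cancel, mul_one]
  exact hn

theorem β_self (hW : ∀ x ∈ W, ∀ y ∈ W, |lft h2 χ x y| < Real.pi / 4)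
    (r : FreeAbelianGroup W) : β h2 χ W r r = 0 := by
  have := β_antisymm h2 χ W hW r r
  linarith

theorem NN_commutator (hW : ∀ x ∈ W, ∀ y ∈ W, |lft h2 χ x y| < Real.pi / 4)
    (x y : HH h2 χ W) : (y * x)⁻¹ * (x * y) ∈ NN h2 χ W := by
  refine ⟨cm h2 x.1.g y.1.g, ?_, ?_, ?_⟩
  · change (y.1.g * x.1.g)⁻¹ * (x.1.g * y.1.g) = _
    rw [mul_eq_cm_mul h2 x.1.g y.1.g, ← mul_assoc, center_comm, mul_assoc, inv_mul_cancel, mul_one]
  · have e0 : ((y * x)⁻¹ * (x * y)).1.t = (y.1.t * x.1.t * Circle.exp (β h2 χ W y.1.r x.1.r / 2))⁻¹ *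
        Circle.exp (β h2 χ W (y.1.r + x.1.r) (y.1.r + x.1.r) / 2) *
        (x.1.t * y.1.t * Circle.exp (β h2 χ W x.1.r y.1.r / 2)) *
        Circle.exp (β h2 χ W (-(y.1.r + x.1.r)) (x.1.r + y.1.r) / 2) := rfl
    rw [e0, add_comm x.1.r y.1.r, map_neg, AddMonoidHom.neg_apply, β_self h2 χ W hW, neg_zero,
      zero_div, Circle.exp_zero, mul_one, mul_one, HH_comm h2 χ W _ _ x.2 y.2]
    have e1 : β h2 χ W y.1.r x.1.r = - β h2 χ W x.1.r y.1.r := β_antisymm h2 χ W hW _ _
    rw [e1, neg_div, Circle.exp_neg, mul_inv, mul_inv, inv_inv]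
    have e2 : Circle.exp (β h2 χ W x.1.r y.1.r) = Circle.exp (β h2 χ W x.1.r y.1.r / 2) *
        Circle.exp (β h2 χ W x.1.r y.1.r / 2) := by
      rw [← Circle.exp_add, add_halves]
    rw [e2]
    rw [show (y.1.t)⁻¹ * (x.1.t)⁻¹ * Circle.exp (β h2 χ W x.1.r y.1.r / 2) *
        (x.1.t * y.1.t * Circle.exp (β h2 χ W x.1.r y.1.r / 2)) =
        ((y.1.t)⁻¹ * y.1.t) * ((x.1.t)⁻¹ * x.1.t) * (Circle.exp (β h2 χ W x.1.r y.1.r / 2) *
        Circle.exp (β h2 χ W x.1.r y.1.r / 2)) by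
      simp only [mul_comm, mul_left_comm, mul_assoc]]
    rw [inv_mul_cancel, inv_mul_cancel, one_mul, one_mul]
  · intro s
    change β h2 χ W (-(y.1.r + x.1.r) + (x.1.r + y.1.r)) s = 0
    rw [add_comm x.1.r, neg_add_cancel, map_zero, AddMonoidHom.zero_apply]

/-- Data of the local homomorphism into an abelian group. -/
structure LocData (W : Set G) : Type (u + 1) where
  B : Type u
  grp : CommGroup B
  j : G → Circle → B
  mul : ∀ g ∈ W, ∀ h ∈ W, g * h ∈ W → ∀ t s,
    j g t * j h s = j (g * h) (t * s * Circle.exp (lft h2 χ g h / 2))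
  cen : ∀ (z : Subgroup.center G) (g : G), g ∈ W → (z : G) * g ∈ W → ∀ t,
    j ((z : G) * g) t = j g ((χ z)⁻¹ * t)
  ker : ∀ g ∈ W, ∀ t, j g t = 1 → ∃ z : Subgroup.center G, g = z ∧ t = χ z

theorem β_eq_zero (r : FreeAbelianGroup W)
    (hr : ∀ y : W, β h2 χ W r (FreeAbelianGroup.of y) = 0) (s : FreeAbelianGroup W) :
    β h2 χ W r s = 0 := by
  have : β h2 χ W r = 0 := by
    ext y
    exact hr y
  rw [this, AddMonoidHom.zero_apply]

open Classical in
/-- The local homomorphism. -/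
def jj (g : G) (t : Circle) : HH h2 χ W :=
  if hg : g ∈ W then ⟨⟨g, FreeAbelianGroup.of ⟨g, hg⟩, t⟩,
    Subgroup.subset_closure (Or.inl ⟨⟨g, hg⟩, rfl, rfl⟩)⟩ else 1

theorem jj_val {g : G} (hg : g ∈ W) (t : Circle) : (jj h2 χ W g t).1 =
    ⟨g, FreeAbelianGroup.of ⟨g, hg⟩, t⟩ := by
  rw [jj, dif_pos hg]

theorem lft_self (g : G) : lft h2 χ g g = 0 := by
  have : cm h2 g g = 1 := by
    apply Subtype.ext
    change ⁅g, g⁆ = 1
    simp
  rw [lft, this, map_one, Circle.coe_one, Complex.arg_one]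

def locData (hW : ∀ x ∈ W, ∀ y ∈ W, |lft h2 χ x y| < Real.pi / 4) :
    LocData h2 χ W := by
  haveI := NN_normal h2 χ W hW
  refine
  { B := HH h2 χ W ⧸ NN h2 χ W
    grp := { (inferInstance : Group (HH h2 χ W ⧸ NN h2 χ W)) with
      mul_comm := ?_ }
    j := fun g t => QuotientGroup.mk (jj h2 χ W g t)
    mul := ?_
    cen := ?_
    ker := ?_ }
  · intro a b
    induction a using QuotientGroup.induction_on with
    | H x =>
      induction b using QuotientGroup.induction_on with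
      | H y =>
        change ((x * y : HH h2 χ W) : HH h2 χ W ⧸ NN h2 χ W) = ((y * x : HH h2 χ W) : _)
        symm
        rw [QuotientGroup.eq]
        exact NN_commutator h2 χ W hW x y
  · intro g hg h hh hgh t s
    change ((jj h2 χ W g t * jj h2 χ W h s : HH h2 χ W) : HH h2 χ W ⧸ NN h2 χ W) =
      (jj h2 χ W (g * h) _ : _)
    rw [QuotientGroup.eq]
    have hr : ∀ y : W, β h2 χ W (-(FreeAbelianGroup.of ⟨g, hg⟩ + FreeAbelianGroup.of ⟨h, hh⟩) +
        FreeAbelianGroup.of ⟨g * h, hgh⟩) (FreeAbelianGroup.of y) = 0 := by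
      intro y
      rw [map_add, map_neg, map_add, AddMonoidHom.add_apply, AddMonoidHom.neg_apply,
        AddMonoidHom.add_apply, β_of, β_of, β_of]
      change -(lft h2 χ g y + lft h2 χ h y) + lft h2 χ (g * h) y = 0
      rw [lft_mul h2 χ W hW hg hh y.2]
      ring
    refine ⟨1, ?_, ?_, ?_⟩
    · change (((jj h2 χ W g t).1.g * (jj h2 χ W h s).1.g)⁻¹ *
        (jj h2 χ W (g * h) (t * s * Circle.exp (lft h2 χ g h / 2))).1.g) = 1
      rw [jj_val h2 χ W hg, jj_val h2 χ W hh, jj_val h2 χ W hgh]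
      simp
    · have e0 : (((jj h2 χ W g t * jj h2 χ W h s)⁻¹ *
          (jj h2 χ W (g * h) (t * s * Circle.exp (lft h2 χ g h / 2)))).1.t) =
          ((jj h2 χ W g t).1 * (jj h2 χ W h s).1).t⁻¹ *
          Circle.exp (β h2 χ W ((jj h2 χ W g t).1 * (jj h2 χ W h s).1).r
            ((jj h2 χ W g t).1 * (jj h2 χ W h s).1).r / 2) *
          (jj h2 χ W (g * h) (t * s * Circle.exp (lft h2 χ g h / 2))).1.t *
          Circle.exp (β h2 χ W (-((jj h2 χ W g t).1 * (jj h2 χ W h s).1).r)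
            (jj h2 χ W (g * h) (t * s * Circle.exp (lft h2 χ g h / 2))).1.r / 2) := rfl
      rw [e0, jj_val h2 χ W hg, jj_val h2 χ W hh, jj_val h2 χ W hgh, β_self h2 χ W hW]
      simp only [TP.mul_t, TP.mul_r, β_of]
      rw [map_neg, map_add, AddMonoidHom.neg_apply, AddMonoidHom.add_apply, β_of, β_of]
      change (t * s * Circle.exp (lft h2 χ g h / 2))⁻¹ * Circle.exp (0 / 2) *
        (t * s * Circle.exp (lft h2 χ g h / 2)) *
        Circle.exp (-(lft h2 χ g (g * h) + lft h2 χ h (g * h)) / 2) = χ 1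
      rw [← lft_mul h2 χ W hW hg hh hgh, lft_self, zero_div, Circle.exp_zero, mul_one, neg_zero,
        zero_div, Circle.exp_zero, mul_one, inv_mul_cancel, map_one]
    · apply β_eq_zero
      intro y
      have e0 : ((jj h2 χ W g t * jj h2 χ W h s)⁻¹ *
          (jj h2 χ W (g * h) (t * s * Circle.exp (lft h2 χ g h / 2)))).1.r =
          -((jj h2 χ W g t).1.r + (jj h2 χ W h s).1.r) +
          (jj h2 χ W (g * h) (t * s * Circle.exp (lft h2 χ g h / 2))).1.r := rfl
      rw [e0, jj_val h2 χ W hg, jj_val h2 χ W hh, jj_val h2 χ W hgh]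
      exact hr y
  · intro z g hg hzg t
    change (jj h2 χ W ((z : G) * g) t : HH h2 χ W ⧸ NN h2 χ W) =
      (jj h2 χ W g ((χ z)⁻¹ * t) : _)
    rw [QuotientGroup.eq]
    refine ⟨z⁻¹, ?_, ?_, ?_⟩
    · change ((jj h2 χ W ((z : G) * g) t).1.g)⁻¹ * (jj h2 χ W g ((χ z)⁻¹ * t)).1.g = _
      rw [jj_val h2 χ W hg, jj_val h2 χ W hzg]
      change ((z : G) * g)⁻¹ * g = ((z⁻¹ : Subgroup.center G) : G)
      rw [← center_comm, mul_inv_rev, mul_assoc, inv_mul_cancel, mul_one]
      rfl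
    · have e0 : ((jj h2 χ W ((z : G) * g) t)⁻¹ * jj h2 χ W g ((χ z)⁻¹ * t)).1.t =
          (jj h2 χ W ((z : G) * g) t).1.t⁻¹ *
          Circle.exp (β h2 χ W (jj h2 χ W ((z : G) * g) t).1.r
            (jj h2 χ W ((z : G) * g) t).1.r / 2) * (jj h2 χ W g ((χ z)⁻¹ * t)).1.t *
          Circle.exp (β h2 χ W (-(jj h2 χ W ((z : G) * g) t).1.r)
            (jj h2 χ W g ((χ z)⁻¹ * t)).1.r / 2) := rfl
      rw [e0, jj_val h2 χ W hg, jj_val h2 χ W hzg, β_self h2 χ W hW, map_neg,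
        AddMonoidHom.neg_apply, β_of]
      change t⁻¹ * Circle.exp (0 / 2) * ((χ z)⁻¹ * t) * Circle.exp (-lft h2 χ ((z : G) * g) g / 2) =
        χ z⁻¹
      rw [lft_mul_center_left, lft_self, map_inv]
      simp
    · apply β_eq_zero
      intro y
      have e0 : ((jj h2 χ W ((z : G) * g) t)⁻¹ * jj h2 χ W g ((χ z)⁻¹ * t)).1.r =
          -(jj h2 χ W ((z : G) * g) t).1.r + (jj h2 χ W g ((χ z)⁻¹ * t)).1.r := rfl
      rw [e0, jj_val h2 χ W hg, jj_val h2 χ W hzg]
      rw [map_add, map_neg, AddMonoidHom.add_apply, AddMonoidHom.neg_apply, β_of, β_of]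
      change -lft h2 χ ((z : G) * g) y + lft h2 χ g y = 0
      rw [lft_mul_center_left]
      ring
  · intro g hg t h
    have h' : ((jj h2 χ W g t : HH h2 χ W) : HH h2 χ W ⧸ NN h2 χ W) = 1 := h
    rw [QuotientGroup.eq_one_iff] at h'
    obtain ⟨z, hz1, hz2, _⟩ := h'
    rw [jj_val h2 χ W hg] at hz1 hz2
    exact ⟨z, hz1, hz2⟩

end Build

end Pool.Agent.Helper92.NilAlg
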