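import Mathlib
import Pool.Agent.Helper92.LCAChar
import Pool.Agent.Helper92.GroupFilter
import Pool.Agent.Helper92.NilAlg
import Pool.Agent.Helper92.CenterCompact

/-!
Quasi-characters on neighbourhoods in two-step nilpotent locally compact groups.
-/

set_option autoImplicit false
set_option linter.unusedSectionVars false

noncomputable section

namespace Pool.Agent.Helper92.QuasiChar

open Topology Filter Pool.Agent.Helper92.GroupFilter Pool.Agent.Helper92.NilAlg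
open scoped Pointwise IsMulCommutative commutatorElement

universe u

variable {G : Type u} [Group G] [TopologicalSpace G] [IsTopologicalGroup G] [T2Space G]
variable (h2 : ∀ g h : G, ⁅g, h⁆ ∈ Subgroup.center G)
  (χ : Subgroup.center G →* Circle) (hχ : Continuous χ)

theorem cm_continuous : Continuous fun p : G × G => cm h2 p.1 p.2 := by
  refine Continuous.subtype_mk ?_ _
  change Continuous fun p : G × G => p.1 * p.2 * p.1⁻¹ * p.2⁻¹
  fun_prop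

include hχ in
theorem lft_tendsto {α : Type*} {l : Filter α} {a b : α → G}
    (h : Tendsto (fun x => cm h2 (a x) (b x)) l (𝓝 1)) :
    Tendsto (fun x => lft h2 χ (a x) (b x)) l (𝓝 0) := by
  have h1 : Tendsto (fun x => χ (cm h2 (a x) (b x))) l (𝓝 1) := by
    have := (hχ.tendsto 1).comp h
    rwa [map_one] at this
  have h3 : Tendsto (fun x => (χ (cm h2 (a x) (b x)) : ℂ)) l (𝓝 1) := by
    have := (LCAChar.circle_isInducing.continuous.tendsto (1 : Circle)).comp h1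
    simpa [Function.comp_def] using this
  have h4 : ContinuousAt Complex.arg 1 := Complex.continuousAt_arg (by simp)
  have h5 := h4.tendsto.comp h3
  rw [Complex.arg_one] at h5
  exact h5

theorem cm_tendsto_one {α : Type*} {l : Filter α} {a b : α → G} {g h : G}
    (ha : Tendsto a l (𝓝 g)) (hb : Tendsto b l (𝓝 h)) (hgh : cm h2 g h = 1) :
    Tendsto (fun x => cm h2 (a x) (b x)) l (𝓝 1) := by
  have := ((cm_continuous h2).tendsto (g, h)).comp (ha.prodMk_nhds hb)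
  simpa [Function.comp_def, hgh] using this

theorem exp_lft_tendsto {α : Type*} {l : Filter α} {c : α → ℝ} (h : Tendsto c l (𝓝 0)) :
    Tendsto (fun x => Circle.exp (c x / 2)) l (𝓝 1) := by
  have h1 : Continuous fun r : ℝ => Circle.exp (r / 2) :=
    Circle.exp.continuous.comp (continuous_id.div_const 2)
  have := (h1.tendsto 0).comp h
  simpa [Function.comp_def] using this

section Build

variable (W : Set G) (hWn : W ∈ 𝓝 (1 : G)) (D : LocData h2 χ W)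

/-- the local map as a function on the product -/
def J (p : G × Circle) : D.B := D.j p.1 p.2

/-- the neighbourhood filter -/
def NJ : Filter D.B := map (J h2 χ W D) (𝓝 1 ×ˢ 𝓝 1)

include hWn

theorem j_one_one : letI := D.grp; D.j 1 1 = 1 := by
  let _ := D.grp
  have h1 : (1 : G) ∈ W := mem_of_mem_nhds hWn
  have := D.mul 1 h1 1 h1 (by simpa using h1) 1 1
  have e : lft h2 χ (1 : G) 1 = 0 := lft_self h2 χ 1
  rw [e] at this
  simp only [mul_one, zero_div, Circle.exp_zero] at this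
  exact mul_eq_left.mp this

theorem ev_mul : ∀ᶠ p : (G × Circle) × (G × Circle) in (𝓝 1 ×ˢ 𝓝 1) ×ˢ (𝓝 1 ×ˢ 𝓝 1),
    p.1.1 ∈ W ∧ p.2.1 ∈ W ∧ p.1.1 * p.2.1 ∈ W := by
  have ha : Tendsto (fun p : (G × Circle) × (G × Circle) => p.1.1)
      ((𝓝 1 ×ˢ 𝓝 1) ×ˢ (𝓝 1 ×ˢ 𝓝 1)) (𝓝 1) := tendsto_fst.comp tendsto_fst
  have hb : Tendsto (fun p : (G × Circle) × (G × Circle) => p.2.1)
      ((𝓝 1 ×ˢ 𝓝 1) ×ˢ (𝓝 1 ×ˢ 𝓝 1)) (𝓝 1) := tendsto_fst.comp tendsto_snd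
  have hab : Tendsto (fun p : (G × Circle) × (G × Circle) => p.1.1 * p.2.1)
      ((𝓝 1 ×ˢ 𝓝 1) ×ˢ (𝓝 1 ×ˢ 𝓝 1)) (𝓝 1) := by simpa using ha.mul hb
  filter_upwards [ha hWn, hb hWn, hab hWn] with p h1 h3 h4
  exact ⟨h1, h3, h4⟩

include hχ

theorem NJ_gf : letI := D.grp; GF (NJ h2 χ W D) := by
  let _ := D.grp
  constructor
  · intro U hU
    have h1 : (J h2 χ W D) ⁻¹' U ∈ 𝓝 (1 : G) ×ˢ 𝓝 (1 : Circle) := hU
    rw [← nhds_prod_eq] at h1
    have h3 := mem_of_mem_nhds h1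
    rw [Set.mem_preimage] at h3
    have h4 : J h2 χ W D (1, 1) = 1 := j_one_one h2 χ W hWn D
    rw [h4] at h3
    exact h3
  · rw [NJ, prod_map_map_eq, tendsto_map'_iff]
    have h1 : (fun p : (G × Circle) × (G × Circle) => J h2 χ W D
        (p.1.1 * p.2.1, p.1.2 * p.2.2 * Circle.exp (lft h2 χ p.1.1 p.2.1 / 2))) =ᶠ[
        (𝓝 1 ×ˢ 𝓝 1) ×ˢ (𝓝 1 ×ˢ 𝓝 1)]
        ((fun p : D.B × D.B => p.1 * p.2) ∘
          fun p : (G × Circle) × (G × Circle) => (J h2 χ W D p.1, J h2 χ W D p.2)) := by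
      filter_upwards [ev_mul W hWn] with p hp
      exact (D.mul _ hp.1 _ hp.2.1 hp.2.2 _ _).symm
    refine Tendsto.congr' h1 ?_
    change Tendsto (J h2 χ W D ∘ fun p : (G × Circle) × (G × Circle) =>
        (p.1.1 * p.2.1, p.1.2 * p.2.2 * Circle.exp (lft h2 χ p.1.1 p.2.1 / 2))) _ _
    refine tendsto_map.comp ?_
    have ha : Tendsto (fun p : (G × Circle) × (G × Circle) => p.1.1)
        ((𝓝 1 ×ˢ 𝓝 1) ×ˢ (𝓝 1 ×ˢ 𝓝 1)) (𝓝 1) := tendsto_fst.comp tendsto_fst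
    have hb : Tendsto (fun p : (G × Circle) × (G × Circle) => p.2.1)
        ((𝓝 1 ×ˢ 𝓝 1) ×ˢ (𝓝 1 ×ˢ 𝓝 1)) (𝓝 1) := tendsto_fst.comp tendsto_snd
    have ha' : Tendsto (fun p : (G × Circle) × (G × Circle) => p.1.2)
        ((𝓝 1 ×ˢ 𝓝 1) ×ˢ (𝓝 1 ×ˢ 𝓝 1)) (𝓝 1) := tendsto_snd.comp tendsto_fst
    have hb' : Tendsto (fun p : (G × Circle) × (G × Circle) => p.2.2)
        ((𝓝 1 ×ˢ 𝓝 1) ×ˢ (𝓝 1 ×ˢ 𝓝 1)) (𝓝 1) := tendsto_snd.comp tendsto_snd
    refine Tendsto.prodMk (by simpa using ha.mul hb) ?_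
    have h3 := exp_lft_tendsto (lft_tendsto h2 χ hχ (cm_tendsto_one h2 ha hb (cm_one_left h2 1)))
    simpa using (ha'.mul hb').mul h3
  · rw [NJ, tendsto_map'_iff]
    have h1 : (fun p : G × Circle => J h2 χ W D (p.1⁻¹, p.2⁻¹)) =ᶠ[𝓝 1 ×ˢ 𝓝 1]
        ((fun g : D.B => g⁻¹) ∘ J h2 χ W D) := by
      have ha : Tendsto (fun p : G × Circle => p.1) (𝓝 1 ×ˢ 𝓝 1) (𝓝 1) := tendsto_fst
      have ha' : Tendsto (fun p : G × Circle => p.1⁻¹) (𝓝 1 ×ˢ 𝓝 1) (𝓝 1) := by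
        simpa using ha.inv
      filter_upwards [ha hWn, ha' hWn] with p hp hp'
      change D.j p.1⁻¹ p.2⁻¹ = (D.j p.1 p.2)⁻¹
      rw [eq_inv_iff_mul_eq_one, D.mul _ hp' _ hp (by simpa using mem_of_mem_nhds hWn)]
      have : lft h2 χ p.1⁻¹ p.1 = 0 := by
        have e : cm h2 p.1⁻¹ p.1 = 1 := by
          apply Subtype.ext
          change ⁅p.1⁻¹, p.1⁆ = 1
          rw [commutatorElement_eq_one_iff_mul_comm]
          simp
        rw [lft, e, map_one, Circle.coe_one, Complex.arg_one]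
      rw [this]
      simp only [inv_mul_cancel, zero_div, Circle.exp_zero, mul_one]
      exact j_one_one h2 χ W hWn D
    refine Tendsto.congr' h1 ?_
    change Tendsto (J h2 χ W D ∘ fun p : G × Circle => (p.1⁻¹, p.2⁻¹)) _ _
    refine tendsto_map.comp ?_
    have ha : Tendsto (fun p : G × Circle => p.1) (𝓝 1 ×ˢ 𝓝 1) (𝓝 1) := tendsto_fst
    have hb : Tendsto (fun p : G × Circle => p.2) (𝓝 1 ×ˢ 𝓝 1) (𝓝 1) := tendsto_snd
    exact Tendsto.prodMk (by simpa using ha.inv) (by simpa using hb.inv)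
  · intro b
    have : (fun x : D.B => b * x * b⁻¹) = id := by
      funext x
      rw [mul_comm b x, mul_assoc, mul_inv_cancel, mul_one]
      rfl
    rw [this]
    exact tendsto_id

omit hχ in
theorem j_inv {g : G} (hg : g ∈ W) (hg' : g⁻¹ ∈ W) (t : Circle) :
    letI := D.grp; (D.j g t)⁻¹ = D.j g⁻¹ t⁻¹ := by
  let _ := D.grp
  rw [inv_eq_iff_mul_eq_one, D.mul _ hg _ hg' (by simpa using mem_of_mem_nhds hWn)]
  have : lft h2 χ g g⁻¹ = 0 := by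
    have e : cm h2 g g⁻¹ = 1 := by
      apply Subtype.ext
      change ⁅g, g⁻¹⁆ = 1
      rw [commutatorElement_eq_one_iff_mul_comm]
      simp
    rw [lft, e, map_one, Circle.coe_one, Complex.arg_one]
  rw [this]
  simp only [mul_inv_cancel, zero_div, Circle.exp_zero, mul_one]
  exact j_one_one h2 χ W hWn D

omit hχ in
/-- the key injectivity property -/
theorem j_eq {g g' : G} (hg : g ∈ W) (hg' : g' ∈ W) (hgi : g'⁻¹ ∈ W) (hgg : g * g'⁻¹ ∈ W)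
    {t t' : Circle} (h : D.j g t = D.j g' t') :
    ∃ z : Subgroup.center G, g = z * g' ∧ t = χ z * t' := by
  let _ := D.grp
  have h1 : D.j g t * (D.j g' t')⁻¹ = 1 := by rw [h, mul_inv_cancel]
  rw [j_inv h2 χ W hWn D hg' hgi, D.mul _ hg _ hgi hgg] at h1
  obtain ⟨z, hz1, hz2⟩ := D.ker _ hgg _ h1
  have hg3 : g = z * g' := by rw [← hz1]; simp
  refine ⟨z, hg3, ?_⟩
  have e : lft h2 χ g g'⁻¹ = 0 := by
    rw [hg3, lft_mul_center_left]
    have e : cm h2 g' g'⁻¹ = 1 := by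
      apply Subtype.ext
      change ⁅g', g'⁻¹⁆ = 1
      rw [commutatorElement_eq_one_iff_mul_comm]
      simp
    rw [lft, e, map_one, Circle.coe_one, Complex.arg_one]
  rw [e, zero_div, Circle.exp_zero, mul_one] at hz2
  rw [← hz2]
  simp

theorem NJ_sep (b : D.B) (hb : letI := D.grp; b ≠ 1) : ∃ U ∈ NJ h2 χ W D, b ∉ U := by
  let _ := D.grp
  by_contra hcon
  push Not at hcon
  have hfreq : ∀ A ∈ 𝓝 (1 : G), ∀ O ∈ 𝓝 (1 : Circle), ∃ g ∈ A, ∃ t ∈ O, D.j g t = b := by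
    intro A hA O hO
    have : (J h2 χ W D) '' (A ×ˢ O) ∈ NJ h2 χ W D := image_mem_map (prod_mem_prod hA hO)
    obtain ⟨⟨z, p⟩, ⟨hz, hp⟩, hzp⟩ := hcon _ this
    exact ⟨z, hz, p, hp, hzp⟩
  -- a small neighbourhood
  obtain ⟨A₀, hA₀, hA₀W⟩ : ∃ A ∈ 𝓝 (1 : G), ∀ x ∈ A, x ∈ W ∧ x⁻¹ ∈ W ∧ ∀ y ∈ A, x * y⁻¹ ∈ W := by
    have hc : Tendsto (fun p : G × G => p.1 * p.2⁻¹) (𝓝 1 ×ˢ 𝓝 1) (𝓝 1) := by
      have : Continuous fun p : G × G => p.1 * p.2⁻¹ := by fun_prop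
      have h4 := this.tendsto (1, 1)
      rw [nhds_prod_eq] at h4
      simpa using h4
    have h5 := hc hWn
    rw [mem_map, mem_prod_same_iff] at h5
    obtain ⟨V, hV, hVW⟩ := h5
    have hi : Tendsto (fun x : G => x⁻¹) (𝓝 1) (𝓝 1) := by
      simpa using (continuous_inv (G := G)).tendsto 1
    refine ⟨V ∩ W ∩ (fun x => x⁻¹) ⁻¹' W, inter_mem (inter_mem hV hWn) (hi hWn), ?_⟩
    intro x hx
    exact ⟨hx.1.2, hx.2, fun y hy => hVW (show (x, y) ∈ V ×ˢ V from ⟨hx.1.1, hy.1.1⟩)⟩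
  have hK : ∀ g ∈ A₀, ∀ g' ∈ A₀, ∀ t t', D.j g t = b → D.j g' t' = b →
      ∃ z : Subgroup.center G, g = z * g' ∧ t = χ z * t' := by
    intro g hg g' hg' t t' h h'
    exact j_eq h2 χ W hWn D (hA₀W g hg).1 (hA₀W g' hg').1 (hA₀W g' hg').2.1
      ((hA₀W g hg).2.2 g' hg') (h.trans h'.symm)
  have hZ : ∀ g ∈ A₀, ∀ t, D.j g t = b → g ∈ Subgroup.center G := by
    intro g hg t ht
    have : g ∈ closure (Subgroup.center G : Set G) := by
      rw [mem_closure_iff_nhds]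
      intro T hT
      have hc : Tendsto (fun x : G => g * x⁻¹) (𝓝 1) (𝓝 g) := by
        have : Continuous fun x : G => g * x⁻¹ := by fun_prop
        simpa using this.tendsto 1
      obtain ⟨g', hg', t', _, ht'⟩ := hfreq _ (inter_mem hA₀ (hc hT)) Set.univ univ_mem
      obtain ⟨z, hz, _⟩ := hK g hg g' hg'.1 t t' ht ht'
      refine ⟨g * g'⁻¹, hg'.2, ?_⟩
      rw [hz]
      simp
    rwa [CenterCompact.isClosed_center.closure_eq] at this
  obtain ⟨g₀, hg₀, t₀, _, ht₀⟩ := hfreq A₀ hA₀ Set.univ univ_mem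
  have hg₀Z := hZ g₀ hg₀ t₀ ht₀
  set z₀ : Subgroup.center G := ⟨g₀, hg₀Z⟩ with hz₀
  -- the constant
  have hc0 : (χ z₀)⁻¹ * t₀ = 1 := by
    by_contra hne
    have h3 : Tendsto (fun q : Subgroup.center G × Circle => (χ q.1)⁻¹ * q.2) (𝓝 1 ×ˢ 𝓝 1)
        (𝓝 1) := by
      have : Continuous fun q : Subgroup.center G × Circle => (χ q.1)⁻¹ * q.2 :=
        (hχ.comp continuous_fst).inv.mul continuous_snd
      have h4 := this.tendsto (1, 1)
      rw [nhds_prod_eq] at h4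
      simpa using h4
    have h4 : {c : Circle | c ≠ (χ z₀)⁻¹ * t₀} ∈ 𝓝 (1 : Circle) :=
      isOpen_ne.mem_nhds (Ne.symm hne)
    have h5 := h3 h4
    rw [mem_map, mem_prod_iff] at h5
    obtain ⟨A1, hA1, O1, hO1, hO⟩ := h5
    rw [nhds_subtype_eq_comap, mem_comap] at hA1
    obtain ⟨A2, hA2, hA21⟩ := hA1
    obtain ⟨g, hg, t, ht, hgt⟩ := hfreq _ (inter_mem hA₀ hA2) O1 hO1
    have hgZ := hZ g hg.1 t hgt
    obtain ⟨z, hz, hzt⟩ := hK g₀ hg₀ g hg.1 t₀ t ht₀ hgt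
    have h6 : (⟨g, hgZ⟩ : Subgroup.center G) ∈ A1 := hA21 hg.2
    have h7 := hO (show ((⟨g, hgZ⟩ : Subgroup.center G), t) ∈ A1 ×ˢ O1 from ⟨h6, ht⟩)
    apply h7
    change (χ ⟨g, hgZ⟩)⁻¹ * t = (χ z₀)⁻¹ * t₀
    have h8 : z₀ = z * ⟨g, hgZ⟩ := Subtype.ext hz
    rw [h8, hzt, map_mul, mul_inv]
    rw [show (χ z)⁻¹ * (χ ⟨g, hgZ⟩)⁻¹ * (χ z * t) = ((χ z)⁻¹ * χ z) * ((χ ⟨g, hgZ⟩)⁻¹ * t) by
      simp only [mul_comm, mul_left_comm, mul_assoc]]
    rw [inv_mul_cancel, one_mul]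
  apply hb
  have h1W : (1 : G) ∈ W := mem_of_mem_nhds hWn
  have h9 : D.j ((z₀ : G) * 1) t₀ = D.j 1 ((χ z₀)⁻¹ * t₀) :=
    D.cen z₀ 1 h1W (by rw [mul_one]; exact (hA₀W g₀ hg₀).1) t₀
  rw [hc0, mul_one, j_one_one h2 χ W hWn D] at h9
  rw [← ht₀]
  exact h9

/-- `J` is continuous at points over the interior of `W`. -/
theorem J_continuousAt (g₀ : G) (hg₀ : W ∈ 𝓝 g₀) (t₀ : Circle) :
    letI := D.grp
    letI := (NJ_gf h2 χ hχ W hWn D).top
    ContinuousAt (J h2 χ W D) (g₀, t₀) := by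
  let _ := D.grp
  have hgf := NJ_gf h2 χ hχ W hWn D
  let _ := hgf.top
  have : IsTopologicalGroup D.B := hgf.isTopologicalGroup
  have e1 : Tendsto (fun p : G × Circle => g₀⁻¹ * p.1) (𝓝 (g₀, t₀)) (𝓝 1) := by
    have : Continuous fun p : G × Circle => g₀⁻¹ * p.1 := by fun_prop
    simpa using this.tendsto (g₀, t₀)
  have e1' : Tendsto (fun p : G × Circle => p.1) (𝓝 (g₀, t₀)) (𝓝 g₀) :=
    continuous_fst.tendsto _
  have e2 : Tendsto (fun p : G × Circle => Circle.exp (lft h2 χ g₀ (g₀⁻¹ * p.1) / 2))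
      (𝓝 (g₀, t₀)) (𝓝 1) := by
    refine exp_lft_tendsto (lft_tendsto h2 χ hχ (cm_tendsto_one h2 tendsto_const_nhds e1 ?_))
    exact cm_center_right h2 1 g₀
  have e3 : Tendsto (fun p : G × Circle => t₀⁻¹ * p.2 *
      (Circle.exp (lft h2 χ g₀ (g₀⁻¹ * p.1) / 2))⁻¹) (𝓝 (g₀, t₀)) (𝓝 1) := by
    have h3 : Tendsto (fun p : G × Circle => t₀⁻¹ * p.2) (𝓝 (g₀, t₀)) (𝓝 1) := by
      have : Continuous fun p : G × Circle => t₀⁻¹ * p.2 := by fun_prop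
      simpa using this.tendsto (g₀, t₀)
    simpa using h3.mul e2.inv
  have e4 : Tendsto (fun p : G × Circle => J h2 χ W D (g₀⁻¹ * p.1, t₀⁻¹ * p.2 *
      (Circle.exp (lft h2 χ g₀ (g₀⁻¹ * p.1) / 2))⁻¹)) (𝓝 (g₀, t₀)) (𝓝 1) := by
    rw [hgf.nhds_one]
    exact (tendsto_map (f := J h2 χ W D)).comp (e1.prodMk e3)
  have e5 := e4.const_mul (J h2 χ W D (g₀, t₀))
  rw [mul_one] at e5
  refine Tendsto.congr' ?_ e5
  filter_upwards [e1 hWn, e1' hg₀] with p hp hp'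
  change D.j g₀ t₀ * D.j (g₀⁻¹ * p.1) _ = D.j p.1 p.2
  rw [D.mul _ (mem_of_mem_nhds hg₀) _ hp (by simpa using hp')]
  congr 1
  · simp
  · rw [show t₀ * (t₀⁻¹ * p.2 * (Circle.exp (lft h2 χ g₀ (g₀⁻¹ * p.1) / 2))⁻¹) *
      Circle.exp (lft h2 χ g₀ (g₀⁻¹ * p.1) / 2) = (t₀ * t₀⁻¹) * p.2 *
      ((Circle.exp (lft h2 χ g₀ (g₀⁻¹ * p.1) / 2))⁻¹ *
      Circle.exp (lft h2 χ g₀ (g₀⁻¹ * p.1) / 2)) by
      simp only [mul_comm, mul_left_comm, mul_assoc]]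
    simp

theorem locComp [LocallyCompactSpace G] :
    letI := D.grp
    letI := (NJ_gf h2 χ hχ W hWn D).top
    LocallyCompactSpace D.B := by
  let _ := D.grp
  have hgf := NJ_gf h2 χ hχ W hWn D
  let _ := hgf.top
  have : IsTopologicalGroup D.B := hgf.isTopologicalGroup
  obtain ⟨K, hK1, hKW, hK⟩ := local_compact_nhds (interior_mem_nhds.mpr hWn)
  have hc : IsCompact (K ×ˢ (Set.univ : Set Circle)) := hK.prod isCompact_univ
  have hcont : ContinuousOn (J h2 χ W D) (K ×ˢ (Set.univ : Set Circle)) := by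
    intro p hp
    apply ContinuousAt.continuousWithinAt
    exact J_continuousAt h2 χ hχ W hWn D p.1 (mem_interior_iff_mem_nhds.mp (hKW hp.1)) p.2
  have himg : IsCompact (J h2 χ W D '' (K ×ˢ (Set.univ : Set Circle))) := hc.image_of_continuousOn hcont
  refine himg.locallyCompactSpace_of_mem_nhds_of_group (x := 1) ?_
  rw [hgf.nhds_one]
  exact image_mem_map (prod_mem_prod hK1 univ_mem)

end Build

/-- Existence of quasi-characters. -/
theorem exists_quasiChar [LocallyCompactSpace G] (W : Set G) (hWn : W ∈ 𝓝 (1 : G))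
    (hχ : Continuous χ)
    (hW : ∀ x ∈ W, ∀ y ∈ W, |lft h2 χ x y| < Real.pi / 4)
    (z₀ : Subgroup.center G) (hz₀W : (z₀ : G) ∈ W) (hz₀ : χ z₀ ≠ 1) :
    ∃ (f : G → Circle) (θ : Circle →* Circle), Continuous θ ∧ Tendsto f (𝓝 1) (𝓝 1) ∧ f 1 = 1 ∧
      (∀ g ∈ W, ∀ h ∈ W, g * h ∈ W → f (g * h) = f g * f h * (θ (Circle.exp (lft h2 χ g h / 2)))⁻¹) ∧
      (∀ (z : Subgroup.center G) (g : G), g ∈ W → (z : G) * g ∈ W →
        f ((z : G) * g) = f g * (θ (χ z))⁻¹) ∧ f z₀ ≠ 1 := by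
  let D := locData h2 χ W hW
  let _ := D.grp
  have hgf := NJ_gf h2 χ hχ W hWn D
  let _ := hgf.top
  have : IsTopologicalGroup D.B := hgf.isTopologicalGroup
  have : T2Space D.B := hgf.t2 (NJ_sep h2 χ hχ W hWn D)
  have : LocallyCompactSpace D.B := locComp h2 χ hχ W hWn D
  have h1W : (1 : G) ∈ W := mem_of_mem_nhds hWn
  have hone : D.j 1 1 = 1 := j_one_one h2 χ W hWn D
  have hmul1 : ∀ g ∈ W, ∀ t s, D.j g t * D.j 1 s = D.j g (t * s) := by
    intro g hg t s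
    rw [D.mul g hg 1 h1W (by rwa [mul_one]), mul_one]
    have : lft h2 χ g 1 = 0 := lft_center_right h2 χ 1 g
    rw [this, zero_div, Circle.exp_zero, mul_one]
  have hc : D.j 1 (χ z₀)⁻¹ ≠ 1 := by
    intro h
    obtain ⟨z, hz1, hz2⟩ := D.ker 1 h1W _ h
    have : z = 1 := Subtype.ext hz1.symm
    rw [this, map_one, inv_eq_one] at hz2
    exact hz₀ hz2
  obtain ⟨Ψ, hΨ, hΨ0⟩ := LCAChar.exists_char (D.j 1 (χ z₀)⁻¹) hc
  let θ : Circle →* Circle :=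
    { toFun := fun c => Ψ (D.j 1 c)
      map_one' := by rw [hone, map_one]
      map_mul' := fun a b => by rw [← map_mul, hmul1 1 h1W] }
  have hθ : ∀ c, θ c = Ψ (D.j 1 c) := fun c => rfl
  have hJt : Tendsto (J h2 χ W D) (𝓝 1 ×ˢ 𝓝 1) (𝓝 1) := by
    rw [hgf.nhds_one]
    exact tendsto_map
  have hΨ1 : Tendsto Ψ (𝓝 1) (𝓝 1) := by
    have := hΨ.tendsto 1
    rwa [map_one] at this
  refine ⟨fun g => Ψ (D.j g 1), θ, ?_, ?_, ?_, ?_, ?_, ?_⟩
  · apply continuous_of_continuousAt_one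
    rw [ContinuousAt, map_one]
    have h3 : Tendsto (fun c : Circle => ((1 : G), c)) (𝓝 1) (𝓝 1 ×ˢ 𝓝 1) :=
      tendsto_const_nhds.prodMk tendsto_id
    exact hΨ1.comp (hJt.comp h3)
  · have h3 : Tendsto (fun g : G => (g, (1 : Circle))) (𝓝 1) (𝓝 1 ×ˢ 𝓝 1) :=
      tendsto_id.prodMk tendsto_const_nhds
    exact hΨ1.comp (hJt.comp h3)
  · change Ψ (D.j 1 1) = 1
    rw [hone, map_one]
  · intro g hg h hh hgh
    change Ψ (D.j (g * h) 1) = Ψ (D.j g 1) * Ψ (D.j h 1) * (Ψ (D.j 1 (Circle.exp (lft h2 χ g h / 2))))⁻¹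
    rw [eq_mul_inv_iff_mul_eq, ← map_mul, ← map_mul, hmul1 _ hgh, D.mul g hg h hh hgh]
    simp
  · intro z g hg hzg
    change Ψ (D.j ((z : G) * g) 1) = Ψ (D.j g 1) * (θ (χ z))⁻¹
    rw [← map_inv, hθ, ← map_mul, hmul1 _ hg, D.cen z g hg hzg]
    simp
  · change Ψ (D.j (z₀ : G) 1) ≠ 1
    have h3 : D.j ((z₀ : G) * 1) 1 = D.j 1 ((χ z₀)⁻¹ * 1) :=
      D.cen z₀ 1 h1W (by rwa [mul_one]) 1
    rw [mul_one, mul_one] at h3
    rw [h3]
    exact hΨ0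

end Pool.Agent.Helper92.QuasiChar
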