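import Mathlib
import Pool.Agent.Helper92.QuasiChar

/-!
Powers of two-step nilpotent locally compact minimal groups are minimal.
-/

set_option autoImplicit false
set_option linter.unusedSectionVars false

noncomputable section

namespace Pool.Agent.Helper92.Nil2Minimal

open Topology Filter Pool.Agent.Helper92.GroupFilter Pool.Agent.Helper92.NilAlg
  Pool.Agent.Helper92.QuasiChar
open scoped Pointwise IsMulCommutative commutatorElement

universe u v

variable {G : Type u} [Group G] [TopologicalSpace G] [IsTopologicalGroup G] [T2Space G]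
  [LocallyCompactSpace G]
variable (h2 : ∀ g h : G, ⁅g, h⁆ ∈ Subgroup.center G)

/-- For a minimal group, null ultrafilters of coarser commutator-continuous group filters converge
to points of the centre. -/
theorem key (hmin : MinGrp G) (Wf : Filter G) (hWf : GF Wf) (hle : 𝓝 1 ≤ Wf)
    (hcomm : Tendsto (fun p : G × G => cm h2 p.1 p.2) (Wf ×ˢ Wf) (𝓝 1))
    (hfix : ∀ g : G, Tendsto (fun x => cm h2 g x) Wf (𝓝 1))
    (U : Ultrafilter G) (hU : (U : Filter G) ≤ Wf) :
    ∃ z ∈ Subgroup.center G, (U : Filter G) ≤ 𝓝 z := by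
  have hcomp : CompactSpace (Subgroup.center G) :=
    isCompact_iff_compactSpace.mp (CenterCompact.isCompact_center hmin)
  have hlc : LocallyCompactSpace (Subgroup.center G) := inferInstance
  -- the index set
  let I := {z : Subgroup.center G // z ≠ 1 ∧ ∀ V ∈ Wf, (z : G) ∈ V}
  have hex : ∀ i : I, ∃ (χ : Subgroup.center G →* Circle) (W : Set G) (f : G → Circle)
      (θ : Circle →* Circle), Continuous χ ∧ W ∈ Wf ∧ Continuous θ ∧
      Tendsto f (𝓝 1) (𝓝 1) ∧ f 1 = 1 ∧
      (∀ g ∈ W, ∀ h ∈ W, g * h ∈ W → f (g * h) = f g * f h * (θ (Circle.exp (lft h2 χ g h / 2)))⁻¹) ∧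
      (∀ (z : Subgroup.center G) (g : G), g ∈ W → (z : G) * g ∈ W →
        f ((z : G) * g) = f g * (θ (χ z))⁻¹) ∧ f i.1 ≠ 1 := by
    intro i
    obtain ⟨χ, hχ, hχi⟩ := LCAChar.exists_char i.1 i.2.1
    have h1 : Tendsto (fun p : G × G => lft h2 χ p.1 p.2) (Wf ×ˢ Wf) (𝓝 0) :=
      lft_tendsto h2 χ hχ hcomm
    have h3 : {r : ℝ | |r| < Real.pi / 4} ∈ 𝓝 (0 : ℝ) := by
      apply (isOpen_lt continuous_abs continuous_const).mem_nhds
      change |(0 : ℝ)| < Real.pi / 4
      rw [abs_zero]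
      exact div_pos Real.pi_pos (by norm_num)
    have h4 := h1 h3
    rw [mem_map, mem_prod_same_iff] at h4
    obtain ⟨W, hW, hWW⟩ := h4
    obtain ⟨f, θ, hf⟩ := exists_quasiChar h2 χ W (hle hW) hχ
      (fun x hx y hy => hWW (show (x, y) ∈ W ×ˢ W from ⟨hx, hy⟩)) i.1 (i.2.2 W hW) hχi
    exact ⟨χ, W, f, θ, hχ, hW, hf⟩
  choose χ W f θ hχ hW hθ hf1 hf11 hfmul hfcen hfi using hex
  let N : Filter G := Wf ⊓ ⨅ i : I, comap (f i) (𝓝 1)
  have hNW : N ≤ Wf := inf_le_left
  have hNf : ∀ i, Tendsto (f i) N (𝓝 1) := by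
    intro i
    have h1 : N ≤ comap (f i) (𝓝 1) := inf_le_right.trans (iInf_le _ i)
    exact tendsto_comap_iff.mp (tendsto_id.mono_left h1 : Tendsto id N (comap (f i) (𝓝 1)))
  have hNto : ∀ {α : Type u} {l : Filter α} {a : α → G}, Tendsto a l Wf →
      (∀ i, Tendsto (fun x => f i (a x)) l (𝓝 1)) → Tendsto a l N := by
    intro α l a h1 h3
    refine tendsto_inf.mpr ⟨h1, tendsto_iInf.mpr fun i => tendsto_comap_iff.mpr (h3 i)⟩
  -- general product estimate
  have hprod : ∀ {α : Type u} {l : Filter α} {a b : α → G} (i : I) {s t : Circle},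
      Tendsto a l Wf → Tendsto b l Wf → Tendsto (fun x => f i (a x)) l (𝓝 s) →
      Tendsto (fun x => f i (b x)) l (𝓝 t) →
      Tendsto (fun x => f i (a x * b x)) l (𝓝 (s * t)) := by
    intro α l a b i s t ha hb hfa hfb
    have hab : Tendsto (fun x => a x * b x) l Wf := hWf.mul.comp (ha.prodMk hb)
    have h1 : Tendsto (fun x => lft h2 (χ i) (a x) (b x)) l (𝓝 0) :=
      lft_tendsto h2 (χ i) (hχ i) (hcomm.comp (ha.prodMk hb))
    have h3 : Tendsto (fun x => (θ i (Circle.exp (lft h2 (χ i) (a x) (b x) / 2)))⁻¹) l (𝓝 1) := by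
      have h4 := ((hθ i).tendsto 1).comp (exp_lft_tendsto h1)
      rw [map_one] at h4
      simpa using h4.inv
    have h5 := (hfa.mul hfb).mul h3
    rw [mul_one] at h5
    refine Tendsto.congr' ?_ h5
    filter_upwards [ha (hW i), hb (hW i), hab (hW i)] with x hx1 hx2 hx3
    exact (hfmul i _ hx1 _ hx2 hx3).symm
  have hinv : ∀ {α : Type u} {l : Filter α} {a : α → G} (i : I) {s : Circle},
      Tendsto a l Wf → Tendsto (fun x => f i (a x)) l (𝓝 s) →
      Tendsto (fun x => f i (a x)⁻¹) l (𝓝 s⁻¹) := by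
    intro α l a i s ha hfa
    refine Tendsto.congr' ?_ hfa.inv
    filter_upwards [ha (hW i), (hWf.inv.comp ha) (hW i)] with x hx1 hx2
    have h1 : (1 : G) ∈ W i := mem_pure.mp (hWf.one (hW i))
    have h3 := hfmul i _ hx1 _ hx2 (by simpa using h1)
    have e : lft h2 (χ i) (a x) (a x)⁻¹ = 0 := by
      have e : cm h2 (a x) (a x)⁻¹ = 1 := by
        apply Subtype.ext
        change ⁅a x, (a x)⁻¹⁆ = 1
        rw [commutatorElement_eq_one_iff_mul_comm]
        simp
      rw [lft, e, map_one, Circle.coe_one, Complex.arg_one]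
    change f i (a x * (a x)⁻¹) = f i (a x) * f i (a x)⁻¹ *
      (θ i (Circle.exp (lft h2 (χ i) (a x) (a x)⁻¹ / 2)))⁻¹ at h3
    rw [e, mul_inv_cancel, hf11, zero_div, Circle.exp_zero, map_one, inv_one, mul_one] at h3
    rw [inv_eq_iff_mul_eq_one]
    exact h3.symm
  have hNgf : GF N := by
    constructor
    · refine le_inf hWf.one (le_iInf fun i => ?_)
      rw [← map_le_iff_le_comap, map_pure, hf11]
      exact pure_le_nhds 1
    · refine hNto (hWf.mul.mono_left (prod_mono hNW hNW)) fun i => ?_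
      have h1 : Tendsto (fun p : G × G => p.1) (N ×ˢ N) N := tendsto_fst
      have h3 : Tendsto (fun p : G × G => p.2) (N ×ˢ N) N := tendsto_snd
      have := hprod i (h1.mono_right hNW) (h3.mono_right hNW) ((hNf i).comp h1) ((hNf i).comp h3)
      simpa using this
    · refine hNto (hWf.inv.mono_left hNW) fun i => ?_
      have := hinv i (tendsto_id.mono_right hNW) (hNf i)
      simpa using this
    · intro g
      refine hNto ((hWf.conj g).mono_left hNW) fun i => ?_
      have h1 : Tendsto (fun x => f i x * (θ i (χ i (cm h2 g x)))⁻¹) N (𝓝 1) := by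
        have h3 : Tendsto (fun x => χ i (cm h2 g x)) N (𝓝 1) := by
          have := ((hχ i).tendsto 1).comp ((hfix g).mono_left hNW)
          rwa [map_one] at this
        have h4 : Tendsto (fun x => θ i (χ i (cm h2 g x))) N (𝓝 1) := by
          have := ((hθ i).tendsto 1).comp h3
          rwa [map_one] at this
        simpa using (hNf i).mul h4.inv
      refine Tendsto.congr' ?_ h1
      filter_upwards [hNW (hW i), ((hWf.conj g).mono_left hNW) (hW i)] with x hx1 hx2
      have e : g * x * g⁻¹ = (cm h2 g x : G) * x := by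
        change g * x * g⁻¹ = g * x * g⁻¹ * x⁻¹ * x
        simp
      change f i x * _ = f i (g * x * g⁻¹)
      rw [e]
      have hx2' : (cm h2 g x : G) * x ∈ W i := by rw [← e]; exact hx2
      exact (hfcen i _ _ hx1 hx2').symm
  have hNsep : ∀ g : G, g ≠ 1 → ∃ V ∈ N, g ∉ V := by
    intro g hg
    by_cases hgW : ∀ V ∈ Wf, g ∈ V
    · have hgZ : g ∈ Subgroup.center G := by
        rw [Subgroup.mem_center_iff]
        intro h
        have h1 : pure (cm h2 h g) ≤ 𝓝 (1 : Subgroup.center G) := by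
          intro V hV
          have h3 := hfix h hV
          exact hgW _ h3
        have h3 : cm h2 h g = 1 := by
          have := pure_le_nhds_iff.mp h1
          exact this
        have h4 : ⁅h, g⁆ = 1 := congrArg Subtype.val h3
        exact commutatorElement_eq_one_iff_mul_comm.mp h4
      let i : I := ⟨⟨g, hgZ⟩, fun h => hg (congrArg Subtype.val h), hgW⟩
      refine ⟨f i ⁻¹' {c | c ≠ f i g}, ?_, fun h => h rfl⟩
      exact hNf i (isOpen_ne.mem_nhds (Ne.symm (hfi i)))
    · push Not at hgW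
      obtain ⟨V, hV, hgV⟩ := hgW
      exact ⟨V, hNW hV, hgV⟩
  have hNle : 𝓝 1 ≤ N := by
    refine le_inf hle (le_iInf fun i => ?_)
    exact tendsto_iff_comap.mp (hf1 i)
  have hN1 : N ≤ 𝓝 1 := hmin.filter_le hNgf hNsep hNle
  have hUc : Tendsto (fun p : G × G => p.1 * p.2⁻¹) ((U : Filter G) ×ˢ (U : Filter G)) (𝓝 1) := by
    refine Tendsto.mono_right ?_ hN1
    have h1 : Tendsto (fun p : G × G => p.1) ((U : Filter G) ×ˢ (U : Filter G)) Wf :=
      (tendsto_fst (f := (U : Filter G))).mono_right hU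
    have h3 : Tendsto (fun p : G × G => p.2) ((U : Filter G) ×ˢ (U : Filter G)) Wf :=
      (tendsto_snd (f := (U : Filter G))).mono_right hU
    have h4 : Tendsto (fun p : G × G => p.2⁻¹) ((U : Filter G) ×ˢ (U : Filter G)) Wf :=
      hWf.inv.comp h3
    refine hNto (hWf.mul.comp (h1.prodMk h4)) fun i => ?_
    obtain ⟨t, _, ht⟩ := (isCompact_univ (X := Circle)).ultrafilter_le_nhds (U.map (f i)) (by simp)
    have ht' : Tendsto (f i) (U : Filter G) (𝓝 t) := ht
    have h5 := hprod i h1 h4 (ht'.comp tendsto_fst) (hinv i h3 (ht'.comp tendsto_snd))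
    simpa using h5
  obtain ⟨g, hg⟩ := exists_le_nhds_of_cauchy U hUc
  refine ⟨g, ?_, hg⟩
  rw [Subgroup.mem_center_iff]
  intro h
  have h1 : Tendsto (fun x => cm h2 h x) (U : Filter G) (𝓝 1) := (hfix h).mono_left hU
  have h3 : Tendsto (fun x => cm h2 h x) (U : Filter G) (𝓝 (cm h2 h g)) := by
    have h4 : Tendsto (fun x : G => (h, x)) (U : Filter G) (𝓝 (h, g)) :=
      tendsto_const_nhds.prodMk_nhds hg
    exact ((cm_continuous h2).tendsto (h, g)).comp h4
  have h4 : cm h2 h g = 1 := tendsto_nhds_unique h3 h1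
  have h5 : ⁅h, g⁆ = 1 := congrArg Subtype.val h4
  exact commutatorElement_eq_one_iff_mul_comm.mp h5

theorem GF.map' {P : Type v} [Group P] {N : Filter P} (h : GF N) (φ : P →* G)
    (hφ : Function.Surjective φ) : GF (map φ N) := by
  constructor
  · have := map_mono (m := φ) h.one
    rwa [map_pure, map_one] at this
  · rw [prod_map_map_eq, tendsto_map'_iff]
    have e : ((fun p : G × G => p.1 * p.2) ∘ fun p : P × P => (φ p.1, φ p.2)) =
        φ ∘ fun p : P × P => p.1 * p.2 := by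
      funext p
      exact (map_mul φ _ _).symm
    rw [e]
    exact tendsto_map.comp h.mul
  · rw [tendsto_map'_iff]
    have e : ((fun g : G => g⁻¹) ∘ φ) = φ ∘ fun g : P => g⁻¹ := by
      funext p
      exact (map_inv φ _).symm
    rw [e]
    exact tendsto_map.comp h.inv
  · intro g
    obtain ⟨p, rfl⟩ := hφ g
    rw [tendsto_map'_iff]
    have e : ((fun x : G => φ p * x * (φ p)⁻¹) ∘ φ) = φ ∘ fun x : P => p * x * p⁻¹ := by
      funext x
      simp
    rw [e]
    exact tendsto_map.comp (h.conj p)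

theorem nhds_gf {P : Type v} [Group P] [TopologicalSpace P] [IsTopologicalGroup P] :
    GF (𝓝 (1 : P)) := by
  constructor
  · exact pure_le_nhds 1
  · have : Continuous fun p : P × P => p.1 * p.2 := continuous_mul
    have h4 := this.tendsto (1, 1)
    rw [nhds_prod_eq] at h4
    simpa using h4
  · simpa using (continuous_inv (G := P)).tendsto 1
  · intro g
    have : Continuous fun x : P => g * x * g⁻¹ := by fun_prop
    simpa using this.tendsto 1

section Product

variable {ι : Type v} {H : ι → Type u} [∀ i, Group (H i)] [∀ i, TopologicalSpace (H i)]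
  [∀ i, IsTopologicalGroup (H i)] [∀ i, T2Space (H i)] [∀ i, LocallyCompactSpace (H i)]

/-- The key theorem applied in each coordinate of a product. -/
theorem key_product (h2 : ∀ i, ∀ g h : H i, ⁅g, h⁆ ∈ Subgroup.center (H i))
    (hmin : ∀ i, MinGrp (H i)) (N : Filter (∀ i, H i)) (hN : GF N)
    (hle : 𝓝 1 ≤ N)
    (hcomm : Tendsto (fun p : (∀ i, H i) × (∀ i, H i) => ⁅p.1, p.2⁆) (N ×ˢ N) (𝓝 1))
    (hfix : ∀ g : ∀ i, H i, Tendsto (fun x => ⁅g, x⁆) N (𝓝 1))
    (U : Ultrafilter (∀ i, H i)) (hU : (U : Filter (∀ i, H i)) ≤ N) :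
    ∃ z : ∀ i, H i, (U : Filter (∀ i, H i)) ≤ 𝓝 z := by
  classical
  have hi : ∀ i : ι, ∃ z : H i, Tendsto (fun x : ∀ i, H i => x i) (U : Filter (∀ i, H i)) (𝓝 z) := by
    intro i
    have hWf := GF.map' (G := H i) hN (Pi.evalMonoidHom H i)
      (fun g => ⟨Pi.mulSingle i g, by simp⟩)
    have hle' : 𝓝 (1 : H i) ≤ map (Pi.evalMonoidHom H i) N := by
      have h1 : Tendsto (fun g : H i => (Pi.mulSingle i g : ∀ i, H i)) (𝓝 1) (𝓝 1) := by
        have : Continuous fun g : H i => (Pi.mulSingle i g : ∀ i, H i) :=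
          continuous_mulSingle (A := H) i
        simpa using this.tendsto 1
      have h3 := (tendsto_map (f := Pi.evalMonoidHom H i)).comp (h1.mono_right hle)
      have e : (Pi.evalMonoidHom H i ∘ fun g : H i => (Pi.mulSingle i g : ∀ i, H i)) = id := by
        funext g
        simp
      rw [e] at h3
      exact h3
    have hc : Tendsto (fun p : H i × H i => cm (h2 i) p.1 p.2)
        (map (Pi.evalMonoidHom H i) N ×ˢ map (Pi.evalMonoidHom H i) N) (𝓝 1) := by
      rw [prod_map_map_eq, tendsto_map'_iff, tendsto_subtype_rng]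
      have := ((continuous_apply i).tendsto (1 : ∀ i, H i)).comp hcomm
      exact this
    have hf : ∀ g : H i, Tendsto (fun x => cm (h2 i) g x)
        (map (Pi.evalMonoidHom H i) N) (𝓝 1) := by
      intro g
      rw [tendsto_map'_iff, tendsto_subtype_rng]
      have := ((continuous_apply i).tendsto (1 : ∀ i, H i)).comp (hfix (Pi.mulSingle i g))
      refine Tendsto.congr (fun x => ?_) this
      change ⁅(Pi.mulSingle i g : ∀ i, H i), x⁆ i = ⁅g, x i⁆
      rw [commutatorElement_def, commutatorElement_def]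
      simp
    obtain ⟨z, _, hz⟩ := key (h2 i) (hmin i) _ hWf hle' hc hf
      (U.map (Pi.evalMonoidHom H i)) (by
        rw [Ultrafilter.coe_map]
        exact map_mono hU)
    exact ⟨z, hz⟩
  choose z hz using hi
  exact ⟨z, tendsto_pi_nhds.mpr hz⟩

/-- Products of two-step nilpotent locally compact minimal groups are minimal. -/
theorem main (h2 : ∀ i, ∀ g h : H i, ⁅g, h⁆ ∈ Subgroup.center (H i))
    (hmin : ∀ i, MinGrp (H i)) : MinGrp (∀ i, H i) := by
  classical
  -- the centre
  let ZZ : Set (∀ i, H i) := Set.univ.pi fun i => (Subgroup.center (H i) : Set (H i))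
  have hZZ : IsCompact ZZ :=
    isCompact_univ_pi fun i => CenterCompact.isCompact_center (hmin i)
  have hZZ' : ∀ U : Ultrafilter (∀ i, H i), ZZ ∈ U →
      ∃ z : ∀ i, H i, (U : Filter (∀ i, H i)) ≤ @nhds _ Pi.topologicalSpace z := by
    intro U hUZ
    obtain ⟨z, _, hz⟩ := hZZ.ultrafilter_le_nhds U (le_principal_iff.mpr hUZ)
    exact ⟨z, hz⟩
  intro σ hσ hσT hcoarse
  have hle : (Pi.topologicalSpace : TopologicalSpace (∀ i, H i)) ≤ σ := by
    rw [TopologicalSpace.le_def]
    exact hcoarse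
  have hnle : ∀ x : ∀ i, H i, @nhds _ Pi.topologicalSpace x ≤ @nhds _ σ x :=
    fun x => nhds_mono hle
  have huniq : ∀ (U : Ultrafilter (∀ i, H i)) (x y : ∀ i, H i),
      (U : Filter (∀ i, H i)) ≤ @nhds _ σ x →
      (U : Filter (∀ i, H i)) ≤ @nhds _ σ y → x = y := fun U x y hx hy =>
    (@t2_iff_ultrafilter _ σ).mp hσT U hx hy
  -- on the centre the two topologies agree at `1`
  have hZ : ∀ {α : Type (max u v)} {l : Filter α} {a : α → (∀ i, H i)},
      Tendsto a l (@nhds _ σ 1) → (∀ x, a x ∈ ZZ) → Tendsto a l (@nhds _ Pi.topologicalSpace 1) := by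
    intro α l a ha haZ
    rw [Tendsto, le_iff_ultrafilter]
    intro U hU
    have hUZ : ZZ ∈ U := hU (show a ⁻¹' ZZ ∈ l from Filter.mem_of_superset univ_mem fun x _ => haZ x)
    obtain ⟨z, hz⟩ := hZZ' U hUZ
    have h1 : z = 1 := huniq U z 1 (hz.trans (hnle z)) (hU.trans ha)
    rwa [h1] at hz
  have hmemZ : ∀ x y : ∀ i, H i, ⁅x, y⁆ ∈ ZZ := by
    intro x y i _
    exact h2 i (x i) (y i)
  have hgf : GF (@nhds _ σ (1 : ∀ i, H i)) := @nhds_gf (∀ i, H i) _ σ hσ
  have hcomm : Tendsto (fun p : (∀ i, H i) × (∀ i, H i) => ⁅p.1, p.2⁆)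
      (@nhds _ σ 1 ×ˢ @nhds _ σ 1) (@nhds _ Pi.topologicalSpace 1) := by
    refine hZ ?_ fun p => hmemZ _ _
    have h1 : Tendsto (fun p : (∀ i, H i) × (∀ i, H i) => p.1) (@nhds _ σ 1 ×ˢ @nhds _ σ 1)
      (@nhds _ σ 1) := tendsto_fst
    have h3 : Tendsto (fun p : (∀ i, H i) × (∀ i, H i) => p.2) (@nhds _ σ 1 ×ˢ @nhds _ σ 1)
      (@nhds _ σ 1) := tendsto_snd
    have h4 := hgf.mul.comp ((hgf.mul.comp ((hgf.mul.comp (h1.prodMk h3)).prodMk
      (hgf.inv.comp h1))).prodMk (hgf.inv.comp h3))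
    exact h4
  have hfix : ∀ g : ∀ i, H i, Tendsto (fun x => ⁅g, x⁆) (@nhds _ σ 1)
      (@nhds _ Pi.topologicalSpace 1) := by
    intro g
    refine hZ ?_ fun p => hmemZ _ _
    have h3 := hgf.mul.comp ((hgf.conj g).prodMk hgf.inv)
    exact h3
  have hfin : @nhds _ σ (1 : ∀ i, H i) ≤ @nhds _ Pi.topologicalSpace 1 := by
    rw [le_iff_ultrafilter]
    intro U hU
    obtain ⟨z, hz⟩ := key_product h2 hmin _ hgf (hnle 1) hcomm hfix U hU
    have h1 : z = 1 := huniq U z 1 (hz.trans (hnle z)) hU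
    rwa [h1] at hz
  have hge : σ ≤ (Pi.topologicalSpace : TopologicalSpace (∀ i, H i)) :=
    le_of_nhds_one_le hσ inferInstance hfin
  intro V hV
  exact (TopologicalSpace.le_def.mp hge) V hV

end Product

end Pool.Agent.Helper92.Nil2Minimal
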