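import Mathlib

/-!
Sigma-products of copies of the two-element group: omega-bounded, every continuous automorphism
is open, and the topology is not a minimal Hausdorff group topology.
-/

set_option autoImplicit false

namespace Pool.Agent.Helper92.SigmaProduct

open Set Topology Filter

/-- The subgroup of `ι → ℤˣ` of all functions with countable support. -/
def Sig (ι : Type) : Subgroup (ι → ℤˣ) where
  carrier := {x | {i | x i ≠ 1}.Countable}
  one_mem' := by simp
  mul_mem' := by
    intro a b ha hb
    refine (ha.union hb).mono ?_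
    intro i hi
    by_contra h
    simp only [mem_union, mem_ofPred_eq, not_or, not_not] at h
    exact hi (by simp [h.1, h.2])
  inv_mem' := by
    intro a ha
    refine ha.mono ?_
    intro i hi h
    exact hi (by simp [h])

variable {ι : Type}

theorem mem_Sig {x : ι → ℤˣ} : x ∈ Sig ι ↔ {i | x i ≠ 1}.Countable := Iff.rfl

/-- Elements supported in `C`. -/
def PC (C : Set ι) : Set (Sig ι) := {x | ∀ i, i ∉ C → x.1 i = 1}

theorem isClosed_PC (C : Set ι) : IsClosed (PC C) := by
  have : PC C = ⋂ i ∈ Cᶜ, {x : Sig ι | x.1 i = 1} := by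
    ext x; simp [PC]
  rw [this]
  refine isClosed_biInter fun i _ => ?_
  exact isClosed_eq ((continuous_apply i).comp continuous_subtype_val) continuous_const

theorem isCompact_PC {C : Set ι} (hC : C.Countable) : IsCompact (PC C) := by
  rw [Topology.IsInducing.subtypeVal.isCompact_iff]
  have : ((fun x : Sig ι => (x : ι → ℤˣ)) '' PC C : Set (ι → ℤˣ)) = ⋂ i ∈ Cᶜ, {x : ι → ℤˣ | x i = 1} := by
    ext x
    simp only [mem_image, mem_iInter, mem_compl_iff, mem_ofPred_eq]
    constructor
    · rintro ⟨y, hy, rfl⟩ i hi
      exact hy i hi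
    · intro hx
      refine ⟨⟨x, ?_⟩, hx, rfl⟩
      rw [mem_Sig]
      refine hC.mono ?_
      intro i hi
      by_contra h
      exact hi (hx i h)
  change IsCompact ((fun x : Sig ι => (x : ι → ℤˣ)) '' PC C)
  rw [this]
  apply IsClosed.isCompact
  refine isClosed_biInter fun i _ => ?_
  exact isClosed_eq (continuous_apply i) continuous_const

/-- The element with value `-1` exactly on the finite set `F`. -/
noncomputable def ev (F : Set ι) (hF : F.Countable) : Sig ι := by
  classical
  exact ⟨fun i => if i ∈ F then -1 else 1, by
    rw [mem_Sig]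
    refine hF.mono ?_
    intro i hi
    by_contra h
    exact hi (by simp [h])⟩

theorem ev_apply_mem {F : Set ι} (hF : F.Countable) {i : ι} (hi : i ∈ F) : (ev F hF).1 i = -1 := by
  simp [ev, hi]

theorem ev_apply_not_mem {F : Set ι} (hF : F.Countable) {i : ι} (hi : i ∉ F) :
    (ev F hF).1 i = 1 := by
  simp [ev, hi]

/-- every countable set of points lies in some `PC C`, `C` countable. -/
theorem exists_PC {A : Set (Sig ι)} (hA : A.Countable) : ∃ C : Set ι, C.Countable ∧ A ⊆ PC C := by
  refine ⟨⋃ a ∈ A, {i | a.1 i ≠ 1}, hA.biUnion fun a _ => a.2, ?_⟩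
  intro a ha i hi
  simp only [mem_iUnion, not_exists] at hi
  by_contra h
  exact hi a ha h

theorem isCompact_closure_of_countable {A : Set (Sig ι)} (hA : A.Countable) :
    IsCompact (closure A) := by
  obtain ⟨C, hC, hAC⟩ := exists_PC hA
  exact (isCompact_PC hC).of_isClosed_subset isClosed_closure
    (closure_minimal hAC (isClosed_PC C))

theorem countablyCompact : CountablyCompactSpace (Sig ι) := by
  constructor
  apply IsCountablyCompact.of_seq_clusterPt
  intro x _
  have hc : IsCompact (closure (range x)) := isCompact_closure_of_countable (countable_range x)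
  obtain ⟨a, _, ha⟩ := hc.exists_mapClusterPt (f := (atTop : Filter ℕ)) (u := x)
    (Filter.le_principal_iff.mpr (Filter.mem_map.mpr
      (Filter.Eventually.of_forall fun n => subset_closure (mem_range_self n))))
  exact ⟨a, mem_univ _, ha⟩

/-- Finitely supported elements of `PC C`. -/
def FC (C : Set ι) : Set (Sig ι) := {x | ∃ F : Finset ι, (F : Set ι) ⊆ C ∧
  x = ev (F : Set ι) F.countable_toSet}

theorem countable_FC {C : Set ι} (hC : C.Countable) : (FC C).Countable := by
  classical
  have : Countable C := hC.to_subtype
  have hcount : {F : Finset ι | (F : Set ι) ⊆ C}.Countable := by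
    have h1 : (range fun G : Finset C => G.map (Function.Embedding.subtype _)).Countable :=
      countable_range _
    refine h1.mono ?_
    intro F hF
    refine ⟨F.subtype (· ∈ C), ?_⟩
    ext i
    simp only [Finset.mem_map, Finset.mem_subtype, Function.Embedding.coe_subtype]
    constructor
    · rintro ⟨a, ha, rfl⟩; exact ha
    · intro hi; exact ⟨⟨i, hF hi⟩, hi, rfl⟩
  refine (hcount.image fun F => ev (F : Set ι) F.countable_toSet).mono ?_
  rintro x ⟨F, hF, rfl⟩
  exact ⟨F, hF, rfl⟩

theorem int_unit_cases (u : ℤˣ) : u = 1 ∨ u = -1 := Int.units_eq_one_or u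

/-- `PC C` is contained in the closure of `FC C`. -/
theorem PC_subset_closure_FC (C : Set ι) : PC C ⊆ closure (FC C) := by
  classical
  intro x hx
  rw [mem_closure_iff_nhds]
  intro t ht
  rw [nhds_subtype_eq_comap, Filter.mem_comap] at ht
  obtain ⟨s, hs, hst⟩ := ht
  rw [nhds_pi, Filter.mem_pi] at hs
  obtain ⟨I, hI, u, hu, hsub⟩ := hs
  set F : Finset ι := hI.toFinset.filter (fun i => x.1 i ≠ 1) with hF
  refine ⟨ev (F : Set ι) F.countable_toSet, hst ?_, F, ?_, rfl⟩
  · apply hsub
    intro i hi
    have hxi : (ev (F : Set ι) F.countable_toSet).1 i = x.1 i := by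
      by_cases h : i ∈ (F : Set ι)
      · rw [ev_apply_mem _ h]
        have : x.1 i ≠ 1 := by
          have := h
          simp [hF] at this
          exact this.2
        rcases int_unit_cases (x.1 i) with h1 | h1
        · exact absurd h1 this
        · exact h1.symm
      · rw [ev_apply_not_mem _ h]
        by_contra h2
        apply h
        simp only [hF, Finset.coe_filter, mem_ofPred_eq, Finite.mem_toFinset]
        exact ⟨hi, fun h3 => h2 h3.symm⟩
    rw [hxi]
    exact mem_of_mem_nhds (hu i)
  · intro i hi
    by_contra h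
    have := hx i h
    simp [hF] at hi
    exact hi.2 this

/-- Key lemma: the inverse of a continuous automorphism, composed with a coordinate, is continuous
at the identity. -/
theorem symm_coord {f : Sig ι ≃* Sig ι} (hf : Continuous f) (i : ι) :
    ∀ᶠ y in 𝓝 (1 : Sig ι), (f.symm y).1 i = 1 := by
  classical
  -- continuity of `f.symm` on each `PC C`
  have key : ∀ C : Set ι, C.Countable → ContinuousOn f.symm (PC C) := by
    intro C hC
    obtain ⟨C', hC', hsub⟩ := exists_PC ((countable_FC hC).image f.symm)
    have h1 : FC C ⊆ f '' PC C' := by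
      intro y hy
      exact ⟨f.symm y, hsub ⟨y, hy, rfl⟩, by simp⟩
    have hcomp : IsCompact (f '' PC C') := (isCompact_PC hC').image hf
    have h2 : PC C ⊆ f '' PC C' :=
      (PC_subset_closure_FC C).trans (closure_minimal h1 hcomp.isClosed)
    -- `f` restricted to the compact set `PC C'` is a closed embedding
    have h3 : ContinuousOn f.symm (f '' PC C') := by
      rw [continuousOn_iff_isClosed]
      intro t ht
      refine ⟨f '' (PC C' ∩ t), ?_, ?_⟩
      · exact (((isCompact_PC hC').inter_right ht).image hf).isClosed
      · ext y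
        constructor
        · rintro ⟨hy1, hy2⟩
          obtain ⟨x, hx, rfl⟩ := hy2
          refine ⟨⟨x, ⟨hx, by simpa using hy1⟩, rfl⟩, ⟨x, hx, rfl⟩⟩
        · rintro ⟨hy1, hy2⟩
          obtain ⟨x, hx, rfl⟩ := hy1
          exact ⟨by simpa using hx.2, ⟨x, hx.1, rfl⟩⟩
    exact h3.mono h2
  -- the homomorphism `h`
  let h : Sig ι →* ℤˣ :=
    (Pi.evalMonoidHom (fun _ : ι => ℤˣ) i).comp ((Sig ι).subtype.comp f.symm.toMonoidHom)
  have hdef : ∀ y, h y = (f.symm y).1 i := fun y => rfl
  have hcont : ∀ C : Set ι, C.Countable → ContinuousOn h (PC C) := by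
    intro C hC
    have := key C hC
    exact ((continuous_apply i).comp continuous_subtype_val).comp_continuousOn this
  -- the support of `h`
  let S : Set ι := {j | h (ev {j} (countable_singleton j)) ≠ 1}
  have hS : S.Finite := by
    by_contra hinf
    have hinf : S.Infinite := hinf
    obtain ⟨g⟩ : Nonempty (ℕ ↪ S) := ⟨hinf.natEmbedding⟩
    let C : Set ι := range fun n => (g n : ι)
    have hC : C.Countable := countable_range _
    have hinj : Function.Injective fun n => (g n : ι) :=
      Subtype.val_injective.comp g.injective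
    let e : ℕ → Sig ι := fun n => ev {(g n : ι)} (countable_singleton _)
    have he : ∀ n, e n ∈ PC C := by
      intro n j hj
      apply ev_apply_not_mem
      intro hj'
      exact hj ⟨n, hj'.symm⟩
    have hlim : Tendsto e atTop (𝓝 1) := by
      rw [nhds_subtype_eq_comap, tendsto_comap_iff, tendsto_pi_nhds]
      intro j
      refine tendsto_const_nhds.congr' ?_
      by_cases hj : ∃ n, (g n : ι) = j
      · obtain ⟨n, hn⟩ := hj
        filter_upwards [eventually_gt_atTop n] with m hm
        symm
        apply ev_apply_not_mem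
        intro hj'
        have : (g m : ι) = (g n : ι) := by rw [hn]; exact hj'.symm
        exact absurd (hinj this) (by omega)
      · refine Filter.Eventually.of_forall fun m => ?_
        symm
        apply ev_apply_not_mem
        intro hj'
        exact hj ⟨m, hj'.symm⟩
    have h1 : (1 : Sig ι) ∈ PC C := fun j _ => rfl
    have hlim' : Tendsto e atTop (𝓝[PC C] 1) :=
      tendsto_nhdsWithin_iff.mpr ⟨hlim, Filter.Eventually.of_forall he⟩
    have hh : Tendsto (fun n => h (e n)) atTop (𝓝 (h 1)) := (hcont C hC 1 h1).tendsto.comp hlim'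
    rw [map_one, nhds_discrete, tendsto_pure] at hh
    obtain ⟨n, hn⟩ := hh.exists
    exact (g n).2 hn
  -- `h` vanishes on elements that are trivial on `S`
  have hvan : ∀ y : Sig ι, (∀ j ∈ S, y.1 j = 1) → h y = 1 := by
    intro y hy
    let C : Set ι := {j | y.1 j ≠ 1}
    have hC : C.Countable := y.2
    have hfin : ∀ F : Finset ι, (F : Set ι) ⊆ C → h (ev (F : Set ι) F.countable_toSet) = 1 := by
      intro F
      induction F using Finset.induction_on with
      | empty =>
        intro _
        have : ev ((∅ : Finset ι) : Set ι) (Finset.countable_toSet _) = 1 := by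
          apply Subtype.ext
          funext j
          rw [ev_apply_not_mem]
          · rfl
          · simp
        rw [this, map_one]
      | insert a F ha ih =>
        intro hF
        have hFC : (F : Set ι) ⊆ C := fun j hj => hF (by simp; right; exact hj)
        have haC : a ∈ C := hF (by simp)
        have haS : a ∉ S := fun haS => haC (hy a haS)
        have hmul : ev ((insert a F : Finset ι) : Set ι) (Finset.countable_toSet _) =
            ev {a} (countable_singleton a) * ev (F : Set ι) F.countable_toSet := by
          apply Subtype.ext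
          funext j
          change _ = (ev {a} (countable_singleton a)).1 j * (ev (F : Set ι) F.countable_toSet).1 j
          by_cases hja : j = a
          · subst hja
            rw [ev_apply_mem _ (by simp), ev_apply_mem _ (by simp), ev_apply_not_mem _ (by simpa)]
            simp
          · by_cases hjF : j ∈ F
            · rw [ev_apply_mem _ (by simp [hjF]), ev_apply_not_mem _ (by simpa),
                ev_apply_mem _ (by simpa)]
              simp
            · rw [ev_apply_not_mem _ (by simp [hjF, hja]), ev_apply_not_mem _ (by simpa),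
                ev_apply_not_mem _ (by simpa)]
              simp
        rw [hmul, map_mul, ih hFC]
        have : h (ev {a} (countable_singleton a)) = 1 := by
          by_contra hne
          exact haS hne
        rw [this, one_mul]
    have hFC : ∀ x ∈ FC C, h x = 1 := by
      rintro x ⟨F, hF, rfl⟩
      exact hfin F hF
    have hyC : y ∈ PC C := fun j hj => by
      by_contra hne
      exact hj hne
    have hclos : y ∈ closure (FC C) := PC_subset_closure_FC C hyC
    have hFCsub : FC C ⊆ PC C := by
      rintro x ⟨F, hF, rfl⟩ j hj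
      exact ev_apply_not_mem _ (fun hjF => hj (hF hjF))
    have hcl : h y ∈ closure (h '' FC C) := by
      have hcw : ContinuousWithinAt h (FC C) y := (hcont C hC y hyC).mono hFCsub
      exact hcw.mem_closure_image hclos
    have hsub : h '' FC C ⊆ {1} := by
      rintro _ ⟨x, hx, rfl⟩
      exact hFC x hx
    have := closure_mono hsub hcl
    rw [closure_singleton] at this
    exact this
  -- conclusion
  have hopen : ∀ᶠ y : Sig ι in 𝓝 1, ∀ j ∈ S, y.1 j = 1 := by
    rw [Set.Finite.eventually_all hS]
    intro j _
    have hc : Continuous fun y : Sig ι => y.1 j := (continuous_apply j).comp continuous_subtype_val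
    have : Tendsto (fun y : Sig ι => y.1 j) (𝓝 1) (𝓝 (1 : ℤˣ)) := hc.tendsto 1
    rw [nhds_discrete ℤˣ, tendsto_pure] at this
    exact this
  filter_upwards [hopen] with y hy
  exact hvan y hy

/-- Every continuous automorphism of `Sig ι` is open. -/
theorem gReversible (f : Sig ι ≃* Sig ι) (hf : Continuous f) : IsOpenMap f := by
  have hcont : Continuous f.symm := by
    have h1 : ContinuousAt f.symm.toMonoidHom (1 : Sig ι) := by
      change Tendsto f.symm (𝓝 1) (𝓝 (f.symm 1))
      rw [map_one, tendsto_subtype_rng, tendsto_pi_nhds]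
      intro i
      have hd : Filter.Tendsto (fun y : Sig ι => (f.symm y).1 i) (𝓝 1) (𝓝 1) := by
        rw [nhds_discrete ℤˣ, tendsto_pure]
        exact symm_coord hf i
      exact hd
    exact continuous_of_continuousAt_one f.symm.toMonoidHom h1
  let F : Sig ι ≃ₜ Sig ι := { f.toEquiv with
    continuous_toFun := hf
    continuous_invFun := hcont }
  exact F.isOpenMap

/-- The homomorphism whose induced topology is coarser. -/
def diff (ι : Type) : Sig ι →* (ι × ι → ℤˣ) where
  toFun x p := x.1 p.1 * x.1 p.2
  map_one' := by
    funext p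
    simp
  map_mul' x y := by
    funext p
    change (x.1 p.1 * y.1 p.1) * (x.1 p.2 * y.1 p.2) = (x.1 p.1 * x.1 p.2) * (y.1 p.1 * y.1 p.2)
    exact mul_mul_mul_comm _ _ _ _

theorem diff_injective [Uncountable ι] : Function.Injective (diff ι) := by
  rw [injective_iff_map_eq_one]
  intro x hx
  have hxx : ∀ i j, x.1 i = x.1 j := by
    intro i j
    have h1 : x.1 i * x.1 j = 1 := congrFun hx (i, j)
    rcases int_unit_cases (x.1 i) with h | h <;> rcases int_unit_cases (x.1 j) with h' | h' <;>
      rw [h, h'] at h1 ⊢ <;> simp at h1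
  apply Subtype.ext
  funext i
  by_contra hne
  have : {j | x.1 j ≠ 1} = univ := by
    ext j
    simp only [mem_univ, iff_true]
    change x.1 j ≠ 1
    rw [hxx j i]
    exact hne
  have hc : (univ : Set ι).Countable := this ▸ x.2
  exact not_countable (α := ι) (Set.countable_univ_iff.mp hc)

theorem diff_continuous : Continuous (diff ι) := by
  refine continuous_pi fun p => ?_
  exact ((continuous_apply p.1).comp continuous_subtype_val).mul
    ((continuous_apply p.2).comp continuous_subtype_val)

/-- The topology of `Sig ι` is not minimal among Hausdorff group topologies. -/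
theorem exists_coarser [Uncountable ι] : ∃ s : TopologicalSpace (Sig ι),
    (@IsTopologicalGroup (Sig ι) s _) ∧ (@T2Space (Sig ι) s) ∧
      (instTopologicalSpaceSubtype : TopologicalSpace (Sig ι)) < s := by
  classical
  refine ⟨TopologicalSpace.induced (diff ι) inferInstance, topologicalGroup_induced (diff ι), ?_, ?_⟩
  · let _ : TopologicalSpace (Sig ι) := TopologicalSpace.induced (diff ι) inferInstance
    exact T2Space.of_injective_continuous diff_injective continuous_induced_dom
  · refine lt_of_le_of_ne (continuous_iff_le_induced.mp diff_continuous) ?_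
    intro heq
    obtain ⟨i0⟩ : Nonempty ι := inferInstance
    have h1 : {y : Sig ι | y.1 i0 = 1} ∈ 𝓝 (1 : Sig ι) := by
      have hc : Continuous fun y : Sig ι => y.1 i0 :=
        (continuous_apply i0).comp continuous_subtype_val
      have : Tendsto (fun y : Sig ι => y.1 i0) (𝓝 1) (𝓝 (1 : ℤˣ)) := hc.tendsto 1
      rw [nhds_discrete ℤˣ, tendsto_pure] at this
      exact this
    rw [heq, nhds_induced, Filter.mem_comap] at h1
    obtain ⟨t, ht, hsub⟩ := h1
    rw [map_one, nhds_pi, Filter.mem_pi] at ht
    obtain ⟨I, hI, u, hu, hsub'⟩ := ht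
    set F : Finset ι := insert i0 ((hI.toFinset.image Prod.fst) ∪ (hI.toFinset.image Prod.snd))
      with hF
    have hmem : ev (F : Set ι) F.countable_toSet ∈ (diff ι) ⁻¹' t := by
      apply hsub'
      intro p hp
      have hp1 : p.1 ∈ (F : Set ι) := by
        simp only [hF, Finset.coe_insert, Finset.coe_union, Finset.coe_image, Finite.coe_toFinset]
        right; left; exact ⟨p, hp, rfl⟩
      have hp2 : p.2 ∈ (F : Set ι) := by
        simp only [hF, Finset.coe_insert, Finset.coe_union, Finset.coe_image, Finite.coe_toFinset]
        right; right; exact ⟨p, hp, rfl⟩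
      have : diff ι (ev (F : Set ι) F.countable_toSet) p = 1 := by
        change (ev (F : Set ι) F.countable_toSet).1 p.1 * (ev (F : Set ι) F.countable_toSet).1 p.2
          = 1
        rw [ev_apply_mem _ hp1, ev_apply_mem _ hp2]
        simp
      rw [this]
      exact mem_of_mem_nhds (hu p)
    have h2 := hsub hmem
    have h3 : (ev (F : Set ι) F.countable_toSet).1 i0 = 1 := h2
    rw [ev_apply_mem _ (by simp [hF])] at h3
    exact absurd h3 (by decide)

/-- `Sig ι` is pseudocompact. -/
theorem pseudocompact (f : Sig ι → ℝ) (hf : Continuous f) : ∃ C : ℝ, ∀ x, |f x| ≤ C := by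
  have hcc : IsCountablyCompact (univ : Set (Sig ι)) :=
    (countablyCompact (ι := ι)).isCountablyCompact_univ
  have h1 : IsCountablyCompact (f '' univ) := hcc.image hf
  have h2 : IsSeqCompact (f '' univ) := h1.isSeqCompact
  have h3 : IsCompact (f '' univ) := h2.isCompact
  obtain ⟨C, hC⟩ := h3.isBounded.exists_norm_le
  exact ⟨C, fun x => by simpa using hC (f x) ⟨x, mem_univ _, rfl⟩⟩

theorem exists_coarser' [Uncountable ι] : ∃ s : TopologicalSpace (Sig ι),
    (@IsTopologicalGroup (Sig ι) s _) ∧ (@T2Space (Sig ι) s) ∧
      (∀ U : Set (Sig ι), IsOpen[s] U → IsOpen[instTopologicalSpaceSubtype] U) ∧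
      ∃ U : Set (Sig ι), IsOpen[instTopologicalSpaceSubtype] U ∧ ¬ IsOpen[s] U := by
  obtain ⟨s, h1, h2, h3⟩ := exists_coarser (ι := ι)
  refine ⟨s, h1, h2, fun U hU => h3.le U hU, ?_⟩
  by_contra hcon
  push Not at hcon
  exact h3.not_ge fun U hU => hcon U hU

theorem main : ∃ (G : Type) (_ : CommGroup G) (t : TopologicalSpace G),
    IsTopologicalGroup G ∧ T2Space G ∧
    (∀ A : Set G, A.Countable → IsCompact (closure A)) ∧
    CountablyCompactSpace G ∧
    (∀ f : G → ℝ, Continuous f → ∃ C : ℝ, ∀ x, |f x| ≤ C) ∧
    (∀ f : G ≃* G, Continuous f → IsOpenMap f) ∧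
    ∃ s : TopologicalSpace G, @IsTopologicalGroup G s _ ∧ @T2Space G s ∧
      (∀ U : Set G, IsOpen[s] U → IsOpen[t] U) ∧ ∃ U : Set G, IsOpen[t] U ∧ ¬ IsOpen[s] U :=
  ⟨Sig ℝ, inferInstance, inferInstance, inferInstance, inferInstance,
    fun _ hA => isCompact_closure_of_countable hA, countablyCompact, pseudocompact,
    gReversible, exists_coarser'⟩

end Pool.Agent.Helper92.SigmaProduct
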